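import Pool.Agent.VRR.AsmC

/-!
# VRR-Main: the perfect set form of Vaught's conjecture for theories of semiprime rings without
nilpotent elements of finite additive order
-/

open Set FirstOrder VCR

namespace VRR

/-- `s` codes the product of the ring with code `c.1` and a finite ring with tables `c.2` -/
private def FinP (c : List (ℕ × ℕ × ℕ∞) × (Σ n : ℕ, (Fin n → Fin n → Fin n) × (Fin n → Fin n → Fin n)))
    (s : Str FirstOrder.Language.ring) : Prop :=
  ∃ (A : Type) (rA : Ring A) (B : Type) (rB : Ring B) (g : B ≃ Fin c.2.1), IsCode c.1 A rA ∧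
    IsRingStr s (A × B) ∧ (∀ x y, g (x + y) = c.2.2.1 (g x) (g y)) ∧
    ∀ x y, g (x * y) = c.2.2.2 (g x) (g y)

private theorem FinP.iso
    {c : List (ℕ × ℕ × ℕ∞) × (Σ n : ℕ, (Fin n → Fin n → Fin n) × (Fin n → Fin n → Fin n))}
    {s t : Str FirstOrder.Language.ring} (hs : FinP c s) (ht : FinP c t) : Iso s t := by
  obtain ⟨A, rA, B, rB, g, h1, h2, h3, h4⟩ := hs
  obtain ⟨A', rA', B', rB', g', h1', h2', h3', h4'⟩ := ht
  obtain ⟨φ⟩ := h1.iso h1'
  refine iso_of_ringEquiv h2 h2' (RingEquiv.prodCongr φ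
    { (g.trans g'.symm) with
      map_mul' := fun x y => ?_
      map_add' := fun x y => ?_ })
  · show g'.symm (g (x * y)) = g'.symm (g x) * g'.symm (g y)
    apply g'.injective
    rw [h4', Equiv.apply_symm_apply, Equiv.apply_symm_apply, Equiv.apply_symm_apply, h4]
  · show g'.symm (g (x + y)) = g'.symm (g x) + g'.symm (g y)
    apply g'.injective
    rw [h3', Equiv.apply_symm_apply, Equiv.apply_symm_apply, Equiv.apply_symm_apply, h3]

theorem countable_fin :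
    ∃ C : Set (Str FirstOrder.Language.ring), C.Countable ∧ ∀ s,
      ∀ (l : List (ℕ × ℕ × ℕ∞)) (A : Type) (rA : Ring A) (B : Type) (rB : Ring B), Finite B →
        IsCode l A rA → IsRingStr s (A × B) → ∃ t ∈ C, Iso s t := by
  classical
  have key : ∀ s : Str FirstOrder.Language.ring,
      ∃ c : List (ℕ × ℕ × ℕ∞) × (Σ n : ℕ, (Fin n → Fin n → Fin n) × (Fin n → Fin n → Fin n)),
        s ∈ {s | ∃ c, FinP c s} → FinP c s := by
    intro s
    by_cases hs : s ∈ {s | ∃ c, FinP c s}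
    · obtain ⟨c, hc⟩ := hs
      exact ⟨c, fun _ => hc⟩
    · exact ⟨⟨[], ⟨0, ⟨fun x _ => x, fun x _ => x⟩⟩⟩, fun h => absurd h hs⟩
  choose c hc using key
  obtain ⟨C, hC, h⟩ := countable_classes {s | ∃ c, FinP c s} c fun s hs t ht hst => by
    have h1 := hc s hs
    rw [hst] at h1
    exact h1.iso (hc t ht)
  refine ⟨C, hC, fun s l A rA B rB hB hA hsr => h s ?_⟩
  let g : B ≃ Fin (Nat.card B) := Finite.equivFin B
  refine ⟨⟨l, ⟨Nat.card B, ⟨fun i j => g (g.symm i + g.symm j), fun i j => g (g.symm i * g.symm j)⟩⟩⟩,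
    A, rA, B, rB, g, hA, hsr, fun x y => ?_, fun x y => ?_⟩
  · simp
  · simp

theorem vc_semiprime (T : FirstOrder.Language.ring.Theory)
    (hT : ∀ s ∈ VCR.Mod T, ∃ (R : Type) (_ : Ring R), IsRingStr s R ∧
      (∀ x : R, (∀ y, x * y * x = 0) → x = 0) ∧
      (∀ (n : ℕ) (x : R), n ≠ 0 → n • x = 0 → x * x = 0 → x = 0)) : VC2 T := by
  classical
  by_cases hP : PerfectMany T
  · exact Or.inr hP
  left
  obtain ⟨C₀, hC₀, h₀⟩ := countable_fin
  have hinf := fun (l : List (ℕ × ℕ × ℕ∞)) (N : {N : ℕ // 2 ≤ N}) => countable_inf T hP l N.2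
  choose C hC h using hinf
  refine ⟨C₀ ∪ ⋃ (l : List (ℕ × ℕ × ℕ∞)), ⋃ (N : {N : ℕ // 2 ≤ N}), C l N,
    hC₀.union (countable_iUnion fun l => countable_iUnion fun N => hC l N), fun s hs => ?_⟩
  obtain ⟨R, _, hR, hsp, hnil⟩ := hT s hs
  obtain ⟨l, N, A, rA, B, rB, hA, hN, hB, hsr⟩ := exists_coded T hP hs hR hsp hnil
  rcases finite_or_infinite B with hf | hi
  · obtain ⟨t, ht, h1⟩ := h₀ s l A rA B rB hf hA hsr
    exact ⟨t, Or.inl ht, h1⟩
  · obtain ⟨t, ht, h1⟩ := h l ⟨N, hN⟩ s hs A rA B rB hi hA hB hsr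
    exact ⟨t, Or.inr (mem_iUnion.2 ⟨l, mem_iUnion.2 ⟨⟨N, hN⟩, ht⟩⟩), h1⟩

end VRR
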