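import Pool.Agent.VCR.IdlA

/-!
# VRR-Act: a one parameter group with dilatations acts trivially on a finite quotient algebra

The set of the parameters which act trivially is a vector subspace; it is not zero since the field is infinite.
-/

open Set VCR

namespace VRR

universe v w

theorem act_triv {Z : Type v} (B : Set (Set Z)) (hBi : ∀ S ∈ B, ∀ S' ∈ B, S ∩ S' ∈ B)
    (hBc : ∀ S ∈ B, Sᶜ ∈ B)
    (Γ : Subgroup (Equiv.Perm Z)) (hΓ : ∀ γ ∈ Γ, ∀ S ∈ B, (γ : Z → Z) ⁻¹' S ∈ B)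
    (J : Set (Set Z)) (hJ : InvIdeal B Γ J) (N : ℕ)
    (hN : ∀ S : Fin (N + 1) → Set Z, (∀ i, S i ∈ B) → ∃ i j, i < j ∧ symmDiff (S i) (S j) ∈ J)
    {F : Type w} [Field F] [Infinite F] (u : F → Equiv.Perm Z) (hu : ∀ a b, u (a + b) = u a * u b)
    (huΓ : ∀ a, u a ∈ Γ) (δ : F → Equiv.Perm Z) (hδ : ∀ c, c ≠ 0 → δ c ∈ Γ)
    (hδu : ∀ c, c ≠ 0 → ∀ a, δ c * u a = u (c * a) * δ c)
    (S : Set Z) (hS : S ∈ B) (a : F) : symmDiff S ((u a : Z → Z) ⁻¹' S) ∈ J := by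
  classical
  have hdf : ∀ S S' : Set Z, S ∈ B → S' ∈ B → S \ S' ∈ B := by
    intro S S' h h'
    rw [sdiff_eq]
    exact hBi S h _ (hBc S' h')
  have hun : ∀ S S' : Set Z, S ∈ B → S' ∈ B → S ∪ S' ∈ B := by
    intro S S' h h'
    have h1 := hBc _ (hBi _ (hBc S h) _ (hBc S' h'))
    rw [← compl_union, compl_compl] at h1
    exact h1
  have hsd : ∀ S S' : Set Z, S ∈ B → S' ∈ B → symmDiff S S' ∈ B := by
    intro S S' h h'
    exact hun _ _ (hdf _ _ h h') (hdf _ _ h' h)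
  have htr : ∀ S S' S'' : Set Z, S ∈ B → S'' ∈ B → symmDiff S S' ∈ J →
      symmDiff S' S'' ∈ J → symmDiff S S'' ∈ J := by
    intro S S' S'' h h'' h1 h2
    exact hJ.down _ (hJ.union _ h1 _ h2) _ (hsd _ _ h h'') (symmDiff_triangle S S' S'')
  have hpre : ∀ γ ∈ Γ, ∀ S S' : Set Z, symmDiff S S' ∈ J →
      symmDiff ((γ : Z → Z) ⁻¹' S) ((γ : Z → Z) ⁻¹' S') ∈ J := by
    intro γ hγ S S' h
    exact hJ.inv γ hγ _ h
  -- representatives
  have hrep : ∃ s : Finset (Set Z), (∀ S ∈ s, S ∈ B) ∧ ∀ S ∈ B, ∃ S' ∈ s, symmDiff S S' ∈ J := by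
    by_contra hcon
    push Not at hcon
    have h1 : ∀ n : ℕ, ∃ T : Fin n → Set Z, (∀ i, T i ∈ B) ∧ ∀ i j, i < j → symmDiff (T i) (T j) ∉ J := by
      intro n
      induction n with
      | zero => exact ⟨fun i => i.elim0, fun i => i.elim0, fun i => i.elim0⟩
      | succ n ih =>
        obtain ⟨T, hT, hT'⟩ := ih
        obtain ⟨S, hS, hS'⟩ := hcon (Finset.univ.image T) (fun S hS => by
          obtain ⟨i, -, rfl⟩ := Finset.mem_image.1 hS
          exact hT i)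
        refine ⟨Fin.snoc T S, fun i => ?_, fun i j hij => ?_⟩
        · refine Fin.lastCases ?_ (fun i => ?_) i
          · rw [Fin.snoc_last]
            exact hS
          · rw [Fin.snoc_castSucc]
            exact hT i
        · revert hij
          refine Fin.lastCases ?_ (fun i => ?_) i
          · intro hij
            exact absurd hij (not_lt.2 (Fin.le_last j))
          · refine Fin.lastCases ?_ (fun j => ?_) j
            · intro _
              rw [Fin.snoc_castSucc, Fin.snoc_last, symmDiff_comm]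
              exact hS' _ (Finset.mem_image_of_mem _ (Finset.mem_univ i))
            · intro hij
              rw [Fin.snoc_castSucc, Fin.snoc_castSucc]
              exact hT' i j (by simpa using hij)
    obtain ⟨T, hT, hT'⟩ := h1 (N + 1)
    obtain ⟨i, j, hij, h2⟩ := hN T hT
    exact hT' i j hij h2
  obtain ⟨s, hsB, hs⟩ := hrep
  have h0 : u 0 = 1 := by
    have h1 := hu 0 0
    rw [add_zero] at h1
    exact (left_eq_mul.1 h1)
  have hadd : ∀ (x y : F) (S : Set Z),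
      (u y : Z → Z) ⁻¹' ((u x : Z → Z) ⁻¹' S) = (u (x + y) : Z → Z) ⁻¹' S := by
    intro x y S
    rw [hu x y]
    rfl
  have h0' : ∀ S : Set Z, (u 0 : Z → Z) ⁻¹' S = S := by
    intro S
    rw [h0]
    rfl
  -- a nonzero parameter which acts trivially
  have hne : ∃ b : F, b ≠ 0 ∧ ∀ S ∈ B, symmDiff S ((u b : Z → Z) ⁻¹' S) ∈ J := by
    have h1 : ∀ (a : F) (S : s), ∃ S' : s, symmDiff ((u a : Z → Z) ⁻¹' (S : Set Z)) (S' : Set Z) ∈ J := by
      intro a S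
      obtain ⟨S', hS', h⟩ := hs _ (hΓ _ (huΓ a) _ (hsB S.1 S.2))
      exact ⟨⟨S', hS'⟩, h⟩
    choose φ hφ using h1
    obtain ⟨x, y, hxy, hφxy⟩ := Finite.exists_ne_map_eq_of_infinite φ
    refine ⟨x - y, sub_ne_zero.2 hxy, fun S hS => ?_⟩
    obtain ⟨S₀, hS₀, h2⟩ := hs S hS
    have hS₀B := hsB S₀ hS₀
    have h3 : symmDiff ((u x : Z → Z) ⁻¹' S₀) ((u y : Z → Z) ⁻¹' S₀) ∈ J := by
      refine htr _ _ _ (hΓ _ (huΓ _) _ hS₀B) (hΓ _ (huΓ _) _ hS₀B) (hφ x ⟨S₀, hS₀⟩) ?_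
      rw [symmDiff_comm, hφxy]
      exact hφ y ⟨S₀, hS₀⟩
    have h4 : symmDiff ((u x : Z → Z) ⁻¹' S) ((u y : Z → Z) ⁻¹' S) ∈ J := by
      refine htr _ _ _ (hΓ _ (huΓ _) _ hS) (hΓ _ (huΓ _) _ hS) (hpre _ (huΓ x) _ _ h2) ?_
      refine htr _ _ _ (hΓ _ (huΓ _) _ hS₀B) (hΓ _ (huΓ _) _ hS) h3 ?_
      rw [symmDiff_comm]
      exact hpre _ (huΓ y) _ _ h2
    have h5 := hpre _ (huΓ (-y)) _ _ h4
    rw [hadd, hadd, add_neg_cancel, h0', ← sub_eq_add_neg, symmDiff_comm] at h5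
    exact h5
  obtain ⟨b, hb, hbt⟩ := hne
  by_cases ha : a = 0
  · rw [ha, h0', symmDiff_self]
    exact hJ.empty
  obtain ⟨c, hc⟩ : ∃ c, c = a / b := ⟨_, rfl⟩
  have hc0 : c ≠ 0 := by
    rw [hc]
    exact div_ne_zero ha hb
  have hcb : c * b = a := by
    rw [hc, div_mul_cancel₀ _ hb]
  have hcon : u a = δ c * u b * (δ c)⁻¹ := by
    rw [hδu c hc0 b, hcb, mul_inv_cancel_right]
  have h1 := hpre _ (Γ.inv_mem (hδ c hc0)) _ _ (hbt _ (hΓ _ (hδ c hc0) S hS))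
  have h2 : ((δ c)⁻¹ : Equiv.Perm Z) ⁻¹' ((δ c : Z → Z) ⁻¹' S) = S := by
    ext z
    exact iff_of_eq (congrArg (· ∈ S) ((δ c).apply_symm_apply z))
  have h3 : ((δ c)⁻¹ : Equiv.Perm Z) ⁻¹' ((u b : Z → Z) ⁻¹' ((δ c : Z → Z) ⁻¹' S)) =
      (u a : Z → Z) ⁻¹' S := by
    rw [hcon]
    rfl
  rw [h2, h3] at h1
  exact h1

end VRR
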