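import Pool.Agent.VRR.Act
import Pool.Agent.VCR.Adj

/-!
# VRR-Idl: the ideal of small definable subsets of the plane

As `VCR-RootB`, with the field of the definable elements instead of the rational numbers.
-/

open Set VCR

namespace VRR

universe v

/-- the field of the definable elements -/
def deF {K : Type v} [Field K] (𝓔 : Calc K) [RC 𝓔] : Subfield K where
  carrier := {x | DE 𝓔 x}
  mul_mem' := DE.mul
  one_mem' := DE.one
  add_mem' := DE.add
  zero_mem' := DE.zero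
  neg_mem' := DE.neg
  inv_mem' := fun _ => DE.inv

theorem mem_deF {K : Type v} [Field K] {𝓔 : Calc K} [RC 𝓔] {x : K} : x ∈ deF 𝓔 ↔ DE 𝓔 x := Iff.rfl

/-- the shears -/
private def rb_sh1 (K : Type v) [Field K] (a : K) : Equiv.Perm (Bool → K) where
  toFun f := fun b => if b then f true else f false + a * f true
  invFun f := fun b => if b then f true else f false + (-a) * f true
  left_inv f := by
    funext b
    cases b
    · simp
    · simp
  right_inv f := by
    funext b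
    cases b
    · simp
    · simp

/-- the shears -/
private def rb_sh2 (K : Type v) [Field K] (a : K) : Equiv.Perm (Bool → K) where
  toFun f := fun b => if b then f true + a * f false else f false
  invFun f := fun b => if b then f true + (-a) * f false else f false
  left_inv f := by
    funext b
    cases b
    · simp
    · simp
  right_inv f := by
    funext b
    cases b
    · simp
    · simp

/-- the dilatations -/
private def rb_dg {K : Type v} [Field K] (g : K) (hg : g ≠ 0) : Equiv.Perm (Bool → K) where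
  toFun f := fun b => if b then g * f true else f false
  invFun f := fun b => if b then g⁻¹ * f true else f false
  left_inv f := by
    funext b
    cases b
    · simp
    · show g⁻¹ * (g * f true) = f true
      rw [← mul_assoc, inv_mul_cancel₀ hg, one_mul]
  right_inv f := by
    funext b
    cases b
    · simp
    · show g * (g⁻¹ * f true) = f true
      rw [← mul_assoc, mul_inv_cancel₀ hg, one_mul]

/-- the group -/
private def rb_G {Z : Type v} (z : Z) (B : Set (Set Z)) : Subgroup (Equiv.Perm Z) where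
  carrier := {γ | γ z = z ∧ (∀ S ∈ B, (γ : Z → Z) ⁻¹' S ∈ B) ∧ ∀ S ∈ B, (γ.symm : Z → Z) ⁻¹' S ∈ B}
  one_mem' := ⟨rfl, fun S hS => hS, fun S hS => hS⟩
  mul_mem' := by
    rintro γ δ ⟨h1, h2, h3⟩ ⟨k1, k2, k3⟩
    refine ⟨?_, fun S hS => k2 _ (h2 S hS), fun S hS => h3 _ (k3 S hS)⟩
    show γ (δ z) = z
    rw [k1, h1]
  inv_mem' := by
    rintro γ ⟨h1, h2, h3⟩
    refine ⟨?_, fun S hS => h3 S hS, fun S hS => h2 S hS⟩
    show γ.symm z = z
    rw [Equiv.symm_apply_eq, h1]

private theorem rb_sub {K : Type v} (𝓔 : Calc K) (t : Bool → (Bool → K) → K) (ht : ∀ b, Df 𝓔 (t b))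
    (S : Set (Bool → K)) (hS : S ∈ 𝓔.D Bool) : {f : Bool → K | (fun b => t b f) ∈ S} ∈ 𝓔.D Bool :=
  Dp.sub (𝓓 := 𝓔) (Q := fun f : Bool → K => f ∈ S) hS ht

private theorem rb_d1 {K : Type v} [Field K] (𝓔 : Calc K) [RC 𝓔] (a : K) (ha : DE 𝓔 a) (S : Set (Bool → K)) (hS : S ∈ 𝓔.D Bool) :
    {f : Bool → K | (fun b : Bool => if b then f true else f false + a * f true) ∈ S} ∈ 𝓔.D Bool := by
  refine rb_sub 𝓔 (fun b f => if b then f true else f false + a * f true) ?_ S hS
  intro b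
  cases b
  · have h : Df 𝓔 (fun f : Bool → K => f false + a * f true) :=
      Df.add (Df.var false) (Df.mul (DE.app ha) (Df.var true))
    exact Df.congr (fun f => by simp) h
  · exact Df.congr (fun f => by simp) (Df.var (𝓓 := 𝓔) true)

private theorem rb_d2 {K : Type v} [Field K] (𝓔 : Calc K) [RC 𝓔] (a : K) (ha : DE 𝓔 a) (S : Set (Bool → K)) (hS : S ∈ 𝓔.D Bool) :
    {f : Bool → K | (fun b : Bool => if b then f true + a * f false else f false) ∈ S} ∈ 𝓔.D Bool := by
  refine rb_sub 𝓔 (fun b f => if b then f true + a * f false else f false) ?_ S hS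
  intro b
  cases b
  · exact Df.congr (fun f => by simp) (Df.var (𝓓 := 𝓔) false)
  · have h : Df 𝓔 (fun f : Bool → K => f true + a * f false) :=
      Df.add (Df.var true) (Df.mul (DE.app ha) (Df.var false))
    exact Df.congr (fun f => by simp) h

private theorem rb_d3 {K : Type v} [Field K] (𝓔 : Calc K) [RC 𝓔] (g : K) (hg : DE 𝓔 g) (S : Set (Bool → K))
    (hS : S ∈ 𝓔.D Bool) :
    {f : Bool → K | (fun b : Bool => if b then g * f true else f false) ∈ S} ∈ 𝓔.D Bool := by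
  refine rb_sub 𝓔 (fun b f => if b then g * f true else f false) ?_ S hS
  intro b
  cases b
  · exact Df.congr (fun f => by simp) (Df.var (𝓓 := 𝓔) false)
  · have h : Df 𝓔 (fun f : Bool → K => g * f true) := Df.mul (DE.app hg) (Df.var true)
    exact Df.congr (fun f => by simp) h

open Classical in
theorem exists_ideal {K : Type v} [Field K] (𝓓 : Calc K) [RC 𝓓]
    (hinf : {x : K | DE 𝓓 x}.Infinite) (G : Finset K)
    (hG0 : ∀ g ∈ G, g ≠ 0) :
    ∃ (𝓔 : Calc K) (J : Set (Set (Bool → K))), RC 𝓔 ∧ (∀ g ∈ G, DE 𝓔 g) ∧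
      J ⊆ 𝓔.D Bool ∧ (∀ S ∈ J, ∀ S' ∈ 𝓔.D Bool, S' ⊆ S → S' ∈ J) ∧
      (∀ S ∈ J, ∀ S' ∈ J, S ∪ S' ∈ J) ∧ univ ∉ J ∧ {0} ∈ J ∧
      (∀ g ∈ G, ∀ S ∈ J, {f : Bool → K | (fun b => if b then g * f true else f false) ∈ S} ∈ J) ∧
      (∀ a, DE 𝓔 a → ∀ S ∈ 𝓔.D Bool, symmDiff S {f : Bool → K |
        (fun b => if b then f true else f false + a * f true) ∈ S} ∈ J) ∧
      (∀ a, DE 𝓔 a → ∀ S ∈ 𝓔.D Bool, symmDiff S {f : Bool → K |
        (fun b => if b then f true + a * f false else f false) ∈ S} ∈ J) := by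
  obtain ⟨𝓔, hle, hG⟩ := exists_adj_finset 𝓓 G
  have hRC : RC 𝓔 := RC.mono hle
  have hsdm : ∀ S ∈ 𝓔.D Bool, Sᶜ ∈ 𝓔.D Bool := fun S hS => 𝓔.compl hS
  have hint : ∀ S ∈ 𝓔.D Bool, ∀ S' ∈ 𝓔.D Bool, S ∩ S' ∈ 𝓔.D Bool := fun S hS S' hS' => 𝓔.inter hS hS'
  have hsm : ∀ T : List Bool → Set (Bool → K), IsTree T → ¬ ∀ s, T s ∈ 𝓔.D Bool := fun T hT => 𝓔.small T hT
  have hz : ({0} : Set (Bool → K)) ∈ 𝓔.D Bool := by
    have h1 : Dp 𝓔 (fun f : Bool → K => ∀ b, f b = 0) := Dp.allfin fun b => Dp.eq (Df.var b) Df.zero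
    have h2 : ({0} : Set (Bool → K)) = {f : Bool → K | ∀ b, f b = 0} := by
      ext f
      exact ⟨fun h b => congrFun h b, fun h => funext h⟩
    rw [h2]
    exact h1
  set Γ := rb_G (0 : Bool → K) (𝓔.D Bool) with hΓ
  have hΓB : ∀ γ ∈ Γ, ∀ S ∈ 𝓔.D Bool, (γ : (Bool → K) → (Bool → K)) ⁻¹' S ∈ 𝓔.D Bool := fun γ hγ => hγ.2.1
  have hJ0 : InvIdeal (𝓔.D Bool) Γ {S | S ∈ 𝓔.D Bool ∧ S ⊆ {0}} := by
    refine ⟨fun S hS => hS.1, ⟨?_, empty_subset _⟩, ?_, ?_, ?_, ?_⟩
    · have h1 := 𝓔.compl (𝓔.univ (α := Bool))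
      rw [compl_univ] at h1
      exact h1
    · exact fun S hS S' hS' h => ⟨hS', h.trans hS.2⟩
    · rintro S ⟨hS, h⟩ S' ⟨hS', h'⟩
      refine ⟨?_, union_subset h h'⟩
      have h1 := 𝓔.compl (𝓔.inter (𝓔.compl hS) (𝓔.compl hS'))
      rw [← compl_union, compl_compl] at h1
      exact h1
    · rintro γ hγ S ⟨hS, h⟩
      refine ⟨hΓB γ hγ S hS, fun z hz => ?_⟩
      have h1 : γ z = 0 := h hz
      have h2 : γ z = γ 0 := h1.trans hγ.1.symm
      exact γ.injective h2
    · rintro ⟨-, h⟩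
      have h1 : (fun _ => 1 : Bool → K) = 0 := h (mem_univ _)
      exact one_ne_zero (congrFun h1 true)
  obtain ⟨J, hJ0J, hJ, N, hN⟩ := exists_inv_ideal (𝓔.D Bool) 𝓔.univ hint hsdm hsm Γ hΓB _ hJ0
  have hinf' : Infinite (deF 𝓔) := by
    have h1 : {x : K | DE 𝓔 x}.Infinite := hinf.mono fun x hx => DE.mono hle hx
    exact Set.infinite_coe_iff.2 h1
  have hu1 : ∀ a : deF 𝓔, rb_sh1 K (a : K) ∈ Γ := by
    rintro ⟨a, ha⟩
    refine ⟨?_, fun S hS => rb_d1 𝓔 a ha S hS, fun S hS => rb_d1 𝓔 (-a) (DE.neg ha) S hS⟩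
    funext b
    cases b
    · show (0 : K) + a * 0 = 0
      rw [mul_zero, add_zero]
    · rfl
  have hu2 : ∀ a : deF 𝓔, rb_sh2 K (a : K) ∈ Γ := by
    rintro ⟨a, ha⟩
    refine ⟨?_, fun S hS => rb_d2 𝓔 a ha S hS, fun S hS => rb_d2 𝓔 (-a) (DE.neg ha) S hS⟩
    funext b
    cases b
    · rfl
    · show (0 : K) + a * 0 = 0
      rw [mul_zero, add_zero]
  have ha1 : ∀ a b : deF 𝓔, rb_sh1 K ((a + b : deF 𝓔) : K) = rb_sh1 K a * rb_sh1 K b := by
    intro a b
    apply Equiv.ext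
    intro f
    funext c
    cases c
    · show f false + ((a : K) + (b : K)) * f true = f false + (b : K) * f true + (a : K) * f true
      ring
    · rfl
  have ha2 : ∀ a b : deF 𝓔, rb_sh2 K ((a + b : deF 𝓔) : K) = rb_sh2 K a * rb_sh2 K b := by
    intro a b
    apply Equiv.ext
    intro f
    funext c
    cases c
    · rfl
    · show f true + ((a : K) + (b : K)) * f false = f true + (b : K) * f false + (a : K) * f false
      ring
  have hdg : ∀ g, DE 𝓔 g → ∀ hg : g ≠ 0, rb_dg g hg ∈ Γ := by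
    intro g hgE hg
    refine ⟨?_, fun S hS => rb_d3 𝓔 g hgE S hS, fun S hS => rb_d3 𝓔 g⁻¹ (DE.inv hgE) S hS⟩
    funext b
    cases b
    · rfl
    · show g * 0 = 0
      rw [mul_zero]
  refine ⟨𝓔, J, hRC, hG, hJ.sub, hJ.down, hJ.union, hJ.proper, hJ0J ⟨hz, subset_rfl⟩, ?_, ?_, ?_⟩
  · intro g hg S hS
    exact hJ.inv _ (hdg g (hG g hg) (hG0 g hg)) S hS
  · intro a ha S hS
    refine act_triv (𝓔.D Bool) hint hsdm Γ hΓB J hJ N hN (fun a : deF 𝓔 => rb_sh1 K (a : K)) ha1 hu1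
      (fun c => if hc : (c : K) = 0 then 1 else rb_dg ((c : K)⁻¹) (inv_ne_zero hc)) (fun c hc => ?_)
      (fun c hc a => ?_) S hS ⟨a, ha⟩
    · have hc' : (c : K) ≠ 0 := fun h => hc (Subtype.ext h)
      rw [dif_neg hc']
      exact hdg _ (DE.inv c.2) _
    · have hc' : (c : K) ≠ 0 := fun h => hc (Subtype.ext h)
      rw [dif_neg hc']
      apply Equiv.ext
      intro f
      funext b
      cases b
      · show f false + (a : K) * f true = f false + ((c : K) * (a : K)) * ((c : K)⁻¹ * f true)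
        field_simp
      · rfl
  · intro a ha S hS
    refine act_triv (𝓔.D Bool) hint hsdm Γ hΓB J hJ N hN (fun a : deF 𝓔 => rb_sh2 K (a : K)) ha2 hu2
      (fun c => if hc : (c : K) = 0 then 1 else rb_dg (c : K) hc) (fun c hc => ?_)
      (fun c hc a => ?_) S hS ⟨a, ha⟩
    · have hc' : (c : K) ≠ 0 := fun h => hc (Subtype.ext h)
      rw [dif_neg hc']
      exact hdg _ c.2 _
    · have hc' : (c : K) ≠ 0 := fun h => hc (Subtype.ext h)
      rw [dif_neg hc']
      apply Equiv.ext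
      intro f
      funext b
      cases b
      · rfl
      · show (c : K) * (f true + (a : K) * f false) = (c : K) * f true + ((c : K) * (a : K)) * f false
        ring

end VRR
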