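import Pool.Agent.VCR.Fit
import Pool.Agent.VRR.Idl

/-!
# VRR-Add: definable additive subgroups of finite index; the Artin-Schreier map is onto

A definable additive subgroup of finite index in a field with a calculus is everything.
-/

open Set VCR

namespace VRR

universe v

/-- a definable additive subgroup of finite index is everything -/
theorem add_full {K : Type v} [Field K] (𝓓 : Calc K) [RC 𝓓] (hinf : {x : K | DE 𝓓 x}.Infinite)
    (A : AddSubgroup K) (hA : DS 𝓓 (A : Set K)) (Z : Set K) (hZ : Z.Finite)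
    (h : ∀ x, ∃ z ∈ Z, x - z ∈ A) (c : K) : c ∈ A := by
  classical
  obtain ⟨𝓔, hle, hc⟩ := exists_adj_one 𝓓 c
  have : RC 𝓔 := RC.mono hle
  have hAE : DS 𝓔 (A : Set K) := DS.mono hle hA
  have hinf' : {x : K | DE 𝓔 x}.Infinite := hinf.mono fun x hx => DE.mono hle hx
  have : Infinite {x : K | DE 𝓔 x} := Set.infinite_coe_iff.2 hinf'
  let V : Finset K → AddSubgroup K := fun Λ =>
    { carrier := {x | ∀ l ∈ Λ, l * x ∈ A}
      add_mem' := fun {a b} ha hb l hl => by
        rw [mul_add]
        exact A.add_mem (ha l hl) (hb l hl)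
      zero_mem' := fun l _ => by
        rw [mul_zero]
        exact A.zero_mem
      neg_mem' := fun {a} ha l hl => by
        rw [mul_neg]
        exact A.neg_mem (ha l hl) }
  have hV : ∀ Λ x, x ∈ V Λ ↔ ∀ l ∈ Λ, l * x ∈ A := fun _ _ => Iff.rfl
  have hmin : ∃ Λ : Finset K, (∀ l ∈ Λ, DE 𝓔 l) ∧ ∀ x, DE 𝓔 x → x ∈ V Λ → ∀ l, DE 𝓔 l → l * x ∈ A := by
    by_contra hcon
    push Not at hcon
    have hcon' : ∀ Λ : {Λ : Finset K // ∀ l ∈ Λ, DE 𝓔 l}, ∃ x, DE 𝓔 x ∧ x ∈ V Λ.1 ∧ ∃ l, DE 𝓔 l ∧ l * x ∉ A :=
      fun Λ => hcon Λ.1 Λ.2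
    choose x hx hxV l hl hlx using hcon'
    let step : {Λ : Finset K // ∀ l ∈ Λ, DE 𝓔 l} → {Λ : Finset K // ∀ l ∈ Λ, DE 𝓔 l} := fun Λ =>
      ⟨insert (l Λ) Λ.1, fun m hm => by
        rcases Finset.mem_insert.1 hm with rfl | hm
        · exact hl Λ
        · exact Λ.2 m hm⟩
    let L : ℕ → {Λ : Finset K // ∀ l ∈ Λ, DE 𝓔 l} := fun n =>
      step^[n] ⟨∅, fun l hl => absurd hl (Finset.notMem_empty l)⟩
    have hL : ∀ n, (L (n + 1)).1 = insert (l (L n)) (L n).1 := by
      intro n
      show (step^[n + 1] _).1 = _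
      rw [Function.iterate_succ_apply']
    refine no_add_chain 𝓔 (fun n => V (L n).1) (fun n => ?_) (fun n => ?_) (fun n => x (L n))
      (fun n => hx (L n)) (fun n => hxV (L n)) (fun n hn => ?_)
    · have h1 : Dp 𝓔 (fun f : Unit → K => ∀ m ∈ (L n).1, m * f () ∈ (A : Set K)) :=
        Dp.ball _ fun m hm => DS.app hAE (Df.mul (DE.app ((L n).2 m hm)) (Df.var ()))
      exact h1
    · intro y hy m hm
      refine hy m ?_
      rw [hL]
      exact Finset.mem_insert_of_mem hm
    · refine hlx (L n) (hn _ ?_)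
      rw [hL]
      exact Finset.mem_insert_self _ _
  obtain ⟨Λ, hΛ, hW⟩ := hmin
  choose z hzZ hz using h
  have hfinZ : Finite Z := hZ.to_subtype
  obtain ⟨x, y, hxy, hφ⟩ := Finite.exists_ne_map_eq_of_infinite
    (fun x : {x : K | DE 𝓔 x} => fun l : Λ => (⟨z ((l : K) * (x : K)), hzZ _⟩ : Z))
  have hne : (x : K) - y ≠ 0 := sub_ne_zero.2 fun h => hxy (Subtype.ext h)
  have hmem : (x : K) - y ∈ V Λ := by
    intro l hl
    have h1 := congrFun hφ ⟨l, hl⟩
    have h2 : z (l * (x : K)) = z (l * (y : K)) := congrArg Subtype.val h1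
    have h3 := A.sub_mem (hz (l * (x : K))) (hz (l * (y : K)))
    rw [h2] at h3
    have h4 : l * (x : K) - z (l * (y : K)) - (l * (y : K) - z (l * (y : K))) = l * ((x : K) - y) := by
      ring
    rwa [h4] at h3
  have h5 := hW _ (DE.sub x.2 y.2) hmem (c / ((x : K) - y)) (DE.div hc (DE.sub x.2 y.2))
  rwa [div_mul_cancel₀ _ hne] at h5

/-- fields with a calculus are perfect -/
theorem pth_root {K : Type v} [Field K] (𝓓 : Calc K) [RC 𝓓] (p : ℕ) [Fact p.Prime] [CharP K p]
    (x : K) : ∃ y, y ^ p = x :=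
  surj_of_inj 𝓓 (frobenius K p : K →+* K).toAddMonoidHom
    (Df.pow (Df.var ()) p) (frobenius K p).injective x

/-- the Artin-Schreier map is onto -/
theorem as_surj {K : Type v} [Field K] (𝓓 : Calc K) [RC 𝓓] (hinf : {x : K | DE 𝓓 x}.Infinite)
    (p : ℕ) [Fact p.Prime] [CharP K p] (x : K) : ∃ y, y ^ p - y = x := by
  classical
  obtain ⟨T, hT⟩ : ∃ T : K →+ K, ∀ x, T x = x ^ p - x :=
    ⟨(frobenius K p : K →+* K).toAddMonoidHom - AddMonoidHom.id K, fun x => rfl⟩
  have hTd : DF₁ 𝓓 T := by
    have h : DF₁ 𝓓 (fun x : K => x ^ p - x) := Df.subt (Df.pow (Df.var ()) p) (Df.var ())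
    have h' : (fun x : K => x ^ p - x) = T := funext fun z => (hT z).symm
    rwa [← h']
  have hp : 1 < p := (Fact.out : p.Prime).one_lt
  -- scalars
  have hsc : ∀ (n : ℕ) (a : ZMod p) (x : K), T^[n] ((ZMod.castHom dvd_rfl K a) * x) =
      (ZMod.castHom dvd_rfl K a) * T^[n] x := by
    intro n a
    induction n with
    | zero => exact fun x => rfl
    | succ n ih =>
      intro x
      rw [Function.iterate_succ_apply, Function.iterate_succ_apply, ← ih]
      congr 1
      rw [hT, hT, mul_pow, ← map_pow, ZMod.pow_card, mul_sub]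
  -- the kernel
  have hker : ∀ x, T x = 0 → ∃ a : ZMod p, x = ZMod.castHom dvd_rfl K a := by
    intro x hx
    rw [hT, sub_eq_zero] at hx
    have h1 : x ∈ (Finset.univ.image fun a : ZMod p => ZMod.castHom dvd_rfl K a) := by
      by_contra hcon
      have h2 : (insert x (Finset.univ.image fun a : ZMod p => ZMod.castHom dvd_rfl K a)).card = p + 1 := by
        rw [Finset.card_insert_of_notMem hcon, Finset.card_image_of_injective _
          (ZMod.castHom dvd_rfl K).injective, Finset.card_univ, ZMod.card]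
      have h3 : insert x (Finset.univ.image fun a : ZMod p => ZMod.castHom dvd_rfl K a) ⊆
          (Polynomial.X ^ p - Polynomial.X : Polynomial K).roots.toFinset := by
        intro y hy
        rw [Multiset.mem_toFinset, Polynomial.mem_roots (FiniteField.X_pow_card_sub_X_ne_zero K hp),
          Polynomial.IsRoot, Polynomial.eval_sub, Polynomial.eval_pow, Polynomial.eval_X, sub_eq_zero]
        rcases Finset.mem_insert.1 hy with rfl | hy
        · exact hx
        · obtain ⟨a, -, rfl⟩ := Finset.mem_image.1 hy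
          rw [← map_pow, ZMod.pow_card]
      have h4 := Finset.card_le_card h3
      rw [h2] at h4
      have h5 := (Multiset.toFinset_card_le (Polynomial.X ^ p - Polynomial.X : Polynomial K).roots).trans
        (Polynomial.card_roots' _)
      rw [FiniteField.X_pow_card_sub_X_natDegree_eq K hp] at h5
      omega
    obtain ⟨a, -, ha⟩ := Finset.mem_image.1 h1
    exact ⟨a, ha.symm⟩
  -- finiteness of the kernels
  have hfib : ∀ s : Set K, s.Finite → {x | T x ∈ s}.Finite := by
    intro s hs
    have h1 : {x | T x ∈ s} = ⋃ b ∈ s, {x | T x = b} := by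
      ext x
      simp
    rw [h1]
    refine hs.biUnion fun b _ => ?_
    have hne : (Polynomial.X ^ p - Polynomial.X - Polynomial.C b : Polynomial K) ≠ 0 := by
      intro h0
      have h2 := congrArg (fun P : Polynomial K => P.coeff p) h0
      simp [Polynomial.coeff_X, Polynomial.coeff_C, hp.ne, (zero_lt_one.trans hp).ne'] at h2
    refine ((Polynomial.X ^ p - Polynomial.X - Polynomial.C b : Polynomial K).roots.toFinset.finite_toSet).subset
      fun x hx => ?_
    have hx' : T x = b := hx
    rw [Finset.mem_coe, Multiset.mem_toFinset, Polynomial.mem_roots hne]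
    simp [Polynomial.IsRoot, ← hT, hx']
  have hkf : ∀ n, {x | T^[n] x = 0}.Finite := by
    intro n
    induction n with
    | zero =>
      refine (Set.finite_singleton (0 : K)).subset fun x hx => hx
    | succ n ih =>
      exact hfib _ ih
  by_cases hcase : ∀ n, ∃ z, T^[n + 1] z = 0 ∧ T^[n] z ≠ 0
  · -- everything in the kernels is in the range
    have hr : ∀ n z, T^[n] z = 0 → ∃ w, T w = z := by
      intro n
      induction n with
      | zero =>
        intro z hz
        have hz' : z = 0 := hz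
        exact ⟨0, by rw [hz', map_zero]⟩
      | succ n ih =>
        intro z hz
        obtain ⟨b, hb⟩ := hker (T^[n] z) ((Function.iterate_succ_apply' T n z).symm.trans hz)
        obtain ⟨z', hz', hz''⟩ := hcase (n + 1)
        obtain ⟨b', hb'⟩ := hker (T^[n + 1] z') ((Function.iterate_succ_apply' T (n + 1) z').symm.trans hz')
        have hb0 : b' ≠ 0 := by
          rintro rfl
          rw [map_zero] at hb'
          exact hz'' hb'
        obtain ⟨w, hw⟩ := ih (z - T ((ZMod.castHom dvd_rfl K (b / b')) * z')) (by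
          rw [iterate_map_sub, ← Function.iterate_succ_apply, hsc, hb', hb, ← map_mul,
            div_mul_cancel₀ _ hb0, sub_self])
        exact ⟨w + (ZMod.castHom dvd_rfl K (b / b')) * z', by rw [map_add, hw, sub_add_cancel]⟩
    obtain ⟨w, u, n, hx, hu⟩ := exists_fit 𝓓 T hTd x
    obtain ⟨w', hw'⟩ := hr n u hu
    refine ⟨w + w', ?_⟩
    rw [← hT, map_add, hw', ← hx]
  · push Not at hcase
    obtain ⟨n, hn⟩ := hcase
    have hst : ∀ m z, T^[n + m] z = 0 → T^[n] z = 0 := by
      intro m
      induction m with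
      | zero => exact fun z hz => hz
      | succ m ih =>
        intro z hz
        apply ih
        have h1 : T^[n + 1] (T^[m] z) = 0 := by
          rw [← Function.iterate_add_apply]
          rw [show n + 1 + m = n + (m + 1) by ring]
          exact hz
        have h2 := hn _ h1
        rw [← Function.iterate_add_apply] at h2
        exact h2
    have h1 : x ∈ T.range := by
      refine add_full 𝓓 hinf T.range ?_ {z | T^[n] z = 0} (hkf n) (fun x => ?_) x
      · have h1 : Dp 𝓓 (fun f : Unit → K => ∃ y, T y = f ()) :=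
          Dp.ex (Dp.eq (DF₁.app hTd (Df.var none)) (Df.var (some ())))
        exact Dp.congr (fun f => AddMonoidHom.mem_range.symm) h1
      · obtain ⟨w, u, m, hx, hu⟩ := exists_fit 𝓓 T hTd x
        refine ⟨u, hst m u ?_, w, ?_⟩
        · rw [Function.iterate_add_apply, hu, iterate_map_zero]
        · rw [hx, add_sub_cancel_right]
    obtain ⟨y, hy⟩ := h1
    exact ⟨y, by rw [← hT, hy]⟩

end VRR
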