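import Pool.Agent.VRR.Dcp
import Pool.Agent.VCR.PRA
import Pool.Agent.VCR.FimB
import Pool.Agent.VCR.Smp

/-!
# VRR-Tor: semiprime rings with a calculus whose nilpotent elements have infinite additive order

Such a ring is a finite product of matrix rings over algebraically closed fields of characteristic `0`, times a finite
product of algebraically closed fields, times a ring with an identity `x ^ N = x`, `2 ≤ N`.
-/

open Set VCR

namespace VRR

universe v

private theorem ide_aux {R : Type v} [Ring R] (c z : R) (hc : ∀ r, c * r = r * c)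
    (h : c * (c * z) = c) : c * z * (c * z) = c * z ∧ ∀ r, c * z * r = r * (c * z) := by
  have h1 : c * z * (c * z) = c * z := by
    calc c * z * (c * z) = c * (z * c) * z := by simp only [mul_assoc]
      _ = c * (c * z) * z := by rw [hc z]
      _ = c * z := by rw [h]
  refine ⟨h1, fun r => ?_⟩
  have h2 : c * (1 - c * z) = 0 := by rw [mul_sub, mul_one, h, sub_self]
  have h3 : c * z * r * (1 - c * z) = 0 := by
    calc c * z * r * (1 - c * z) = z * c * r * (1 - c * z) := by rw [hc z]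
      _ = z * (c * r) * (1 - c * z) := by rw [mul_assoc z c r]
      _ = z * (r * c) * (1 - c * z) := by rw [hc r]
      _ = z * r * (c * (1 - c * z)) := by simp only [mul_assoc]
      _ = 0 := by rw [h2, mul_zero]
  have h4 : (1 - c * z) * r * (c * z) = 0 := by
    calc (1 - c * z) * r * (c * z) = (1 - c * z) * (r * c) * z := by simp only [mul_assoc]
      _ = (1 - c * z) * (c * r) * z := by rw [hc r]
      _ = ((1 - c * z) * c) * r * z := by simp only [mul_assoc]
      _ = 0 := by rw [← hc (1 - c * z), h2, zero_mul, zero_mul]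
  rw [mul_sub, mul_one, sub_eq_zero] at h3
  rw [sub_mul, one_mul, sub_mul, sub_eq_zero] at h4
  rw [h3, h4]

private theorem exists_ide {R : Type v} [Ring R] (n : ℕ) (hn : ∀ r : R, ∃ x, r ^ n = r ^ (n + 1) * x)
    (m : ℕ) : ∃ e z : R, e * e = e ∧ (∀ r, e * r = r * e) ∧ (m : R) ^ n * e = (m : R) ^ n ∧
      e = (m : R) ^ n * z := by
  obtain ⟨x, hx⟩ := hn (m : R)
  have hk : ∀ k : ℕ, (m : R) ^ n = (m : R) ^ (k + n) * x ^ k := by
    intro k
    induction k with
    | zero => rw [Nat.zero_add, pow_zero, mul_one]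
    | succ k ih =>
      calc (m : R) ^ n = (m : R) ^ k * (m : R) ^ n * x ^ k := by rw [← pow_add, ← ih]
        _ = (m : R) ^ k * ((m : R) ^ (n + 1) * x) * x ^ k := by rw [← hx]
        _ = (m : R) ^ k * (m : R) ^ (n + 1) * (x * x ^ k) := by simp only [mul_assoc]
        _ = (m : R) ^ (k + 1 + n) * x ^ (k + 1) := by
          rw [← pow_add, ← pow_succ', show k + (n + 1) = k + 1 + n by ring]
  have hc : ∀ r : R, (m : R) ^ n * r = r * (m : R) ^ n := fun r => ((Nat.cast_commute m r).pow_left n).eq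
  have h1 : (m : R) ^ n * ((m : R) ^ n * x ^ n) = (m : R) ^ n := by
    rw [← mul_assoc, ← pow_add, ← hk n]
  obtain ⟨h2, h3⟩ := ide_aux _ _ hc h1
  exact ⟨_, x ^ n, h2, h3, h1, rfl⟩

theorem exists_tor {R : Type v} [Ring R] (𝓓 : Calc R) [RC 𝓓] : ∃ (M : ℕ) (e : R), M ≠ 0 ∧
    e * e = e ∧ (∀ r, e * r = r * e) ∧ (M : R) * (1 - e) = 0 ∧
    ∀ (m : ℕ) (x : R), m ≠ 0 → e * x = x → m • x = 0 → x = 0 := by
  obtain ⟨n₀, hn₀⟩ := exists_pireg 𝓓
  have hn : ∀ r : R, ∃ x, r ^ (n₀ + 1) = r ^ (n₀ + 1 + 1) * x := by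
    intro r
    obtain ⟨x, -, hx, -⟩ := hn₀ r
    refine ⟨x, ?_⟩
    rw [pow_succ' r n₀, hx, ← mul_assoc, ← pow_succ']
  choose e z he hec hce hez using fun m => exists_ide (n₀ + 1) hn m
  have hcc : ∀ (m : ℕ) (r : R), (m : R) ^ (n₀ + 1) * r = r * (m : R) ^ (n₀ + 1) :=
    fun m r => ((Nat.cast_commute m r).pow_left _).eq
  have hle : ∀ m M : ℕ, e (m * M) * e M = e (m * M) := by
    intro m M
    have h1 : ((m * M : ℕ) : R) ^ (n₀ + 1) = (m : R) ^ (n₀ + 1) * (M : R) ^ (n₀ + 1) := by
      rw [Nat.cast_mul, (Nat.cast_commute m (M : R)).mul_pow]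
    calc e (m * M) * e M = z (m * M) * ((m : R) ^ (n₀ + 1) * ((M : R) ^ (n₀ + 1) * e M)) := by
          rw [hez (m * M), hcc, h1]
          simp only [mul_assoc]
      _ = z (m * M) * ((m * M : ℕ) : R) ^ (n₀ + 1) := by rw [hce, h1]
      _ = e (m * M) := by rw [hez (m * M), hcc]
  have hmin : ∃ M : ℕ, M ≠ 0 ∧ ∀ m : ℕ, m ≠ 0 → e (m * M) = e M := by
    by_contra hcon
    push Not at hcon
    choose! g hg0 hg using hcon
    obtain ⟨a, ha0, ha⟩ : ∃ a : ℕ → ℕ, (∀ k, a k ≠ 0) ∧ ∀ k, a (k + 1) = g (a k) * a k := by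
      refine ⟨fun k => Nat.rec 1 (fun _ M => g M * M) k, fun k => ?_, fun k => rfl⟩
      induction k with
      | zero => exact one_ne_zero
      | succ k ih => exact mul_ne_zero (hg0 _ ih) ih
    obtain ⟨E, hE⟩ : ∃ E : ℕ → R, ∀ k, E k = e (a k) := ⟨_, fun _ => rfl⟩
    have hEs : ∀ k, E (k + 1) * E k = E (k + 1) := by
      intro k
      rw [hE, hE, ha]
      exact hle _ _
    have hEc : ∀ k r, E k * r = r * E k := by
      intro k r
      rw [hE]
      exact hec _ r
    have hEE : ∀ k, E k * E k = E k := by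
      intro k
      rw [hE]
      exact he _
    have hne : ∀ k, E (k + 1) ≠ E k := by
      intro k
      rw [hE, hE, ha]
      exact hg _ (ha0 k)
    have hEl : ∀ i j, i ≤ j → E j * E i = E j := by
      intro i j hij
      induction hij with
      | refl => exact hEE i
      | step _ ih =>
        rename_i j _
        calc E (j + 1) * E i = E (j + 1) * E j * E i := by rw [hEs]
          _ = E (j + 1) := by rw [mul_assoc, ih, hEs]
    have hEl' : ∀ i j, i ≤ j → E i * E j = E j := by
      intro i j hij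
      rw [hEc, hEl i j hij]
    have hkey : ∀ k x, (∃ y, (a k : R) ^ (n₀ + 1) * x = (a (k + 1) : R) ^ (n₀ + 1) * y) ↔
        (E k - E (k + 1)) * x = 0 := by
      intro k x
      constructor
      · rintro ⟨y, hy⟩
        have h1 : E (k + 1) * ((a k : R) ^ (n₀ + 1) * x) = (a k : R) ^ (n₀ + 1) * x := by
          rw [hy, ← mul_assoc, ← hcc, hE, hce]
        have h2 : E k * x = z (a k) * ((a k : R) ^ (n₀ + 1) * x) := by
          rw [hE, hez, hcc, mul_assoc]
        have h3 : E (k + 1) * (E k * x) = E k * x := by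
          rw [h2, ← mul_assoc, hEc, mul_assoc, h1]
        rw [sub_mul, ← h3, ← mul_assoc, hEs, sub_self]
      · intro h
        rw [sub_mul, sub_eq_zero] at h
        refine ⟨(a k : R) ^ (n₀ + 1) * (z (a (k + 1)) * x), ?_⟩
        have h1 : (a k : R) ^ (n₀ + 1) * x = (a k : R) ^ (n₀ + 1) * (E k * x) := by
          rw [← mul_assoc, hE, hce]
        rw [h1, h, hE, hez, mul_assoc ((a (k + 1) : R) ^ (n₀ + 1)), ← mul_assoc ((a k : R) ^ (n₀ + 1)),
          hcc (a k) ((a (k + 1) : R) ^ (n₀ + 1)), mul_assoc]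
    refine no_indep 𝓓 (fun k => {x : R | ∀ y, (a k : R) ^ (n₀ + 1) * x ≠ (a (k + 1) : R) ^ (n₀ + 1) * y})
      (fun k => by ((try unfold DS); (try unfold DF₁); (try unfold DF₂); (try unfold DR₂); repeat' first | assumption | exact Df.var _ | exact Df.zero | exact Df.one | exact Df.natCast _ | (refine DE.app ?_; first | assumption | exact DE.natCast _) | refine Df.add ?_ ?_ | refine Df.mul ?_ ?_ | refine Df.subt ?_ ?_ | refine Df.neg ?_ | refine Df.pow ?_ _ | refine Df.sum _ (fun _ _ => ?_) | (refine DF₁.app (by assumption) ?_) | (refine DF₂.app (by assumption) ?_ ?_) | refine Dp.const _ | refine Dp.not ?_ | refine Dp.eq ?_ ?_ | refine Dp.ne ?_ ?_ | refine Dp.and ?_ ?_ | refine Dp.or ?_ ?_ | refine Dp.iff ?_ ?_ | refine Dp.imp ?_ ?_ | (refine DS.app (by assumption) ?_) | (refine DR₂.app (by assumption) ?_ ?_) | refine Dp.isUnit ?_ | refine Dp.ball _ (fun _ _ => ?_) | refine Dp.ex ?_ | refine Dp.all ?_ | refine Dp.allfin (fun _ => ?_) | refine Dp.exfin (fun _ => ?_))) fun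 N ε => ?_
    refine ⟨∑ i ∈ Finset.range N, if ε i = true then E i - E (i + 1) else 0, fun k hk => ?_⟩
    have hsum : (E k - E (k + 1)) * (∑ i ∈ Finset.range N, if ε i = true then E i - E (i + 1) else 0) =
        if ε k = true then E k - E (k + 1) else 0 := by
      rw [Finset.mul_sum, Finset.sum_eq_single k]
      · split_ifs
        · rw [mul_sub, sub_mul, sub_mul, hEE, hEs, hEl' k (k + 1) (Nat.le_succ k), hEE, sub_self, sub_zero]
        · rw [mul_zero]
      · intro i _ hik
        split_ifs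
        · rcases Nat.lt_or_gt_of_ne hik with h | h
          · rw [mul_sub, sub_mul, sub_mul, hEl i k h.le, hEl i (k + 1) (by omega), hEl (i + 1) k h,
              hEl (i + 1) (k + 1) (by omega), sub_self]
          · rw [mul_sub, sub_mul, sub_mul, hEl' k i h.le, hEl' (k + 1) i h, hEl' k (i + 1) (by omega),
              hEl' (k + 1) (i + 1) (by omega), sub_self, sub_self, sub_self]
        · rw [mul_zero]
      · intro h
        exact absurd (Finset.mem_range.2 hk) h
    show (∀ y, _ ≠ _) ↔ _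
    rw [← not_exists, hkey, hsum]
    split_ifs with h
    · exact ⟨fun _ => h, fun _ h0 => hne k (sub_eq_zero.1 h0).symm⟩
    · exact ⟨fun h0 => absurd rfl h0, fun h0 => absurd h0 h⟩
  obtain ⟨M, hM0, hM⟩ := hmin
  refine ⟨M ^ (n₀ + 1), e M, pow_ne_zero _ hM0, he M, hec M, ?_, fun m x hm hx hmx => ?_⟩
  · rw [Nat.cast_pow, mul_sub, mul_one, hce, sub_self]
  · have h1 : ((m * M : ℕ) : R) ^ (n₀ + 1) * x = 0 := by
      rw [Nat.cast_mul, (Nat.cast_commute m (M : R)).mul_pow, hcc m, mul_assoc, pow_succ (m : R) n₀,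
        mul_assoc ((m : R) ^ n₀), ← nsmul_eq_mul m x, hmx, mul_zero, mul_zero]
    rw [← hx, ← hM m hm, hez, hcc, mul_assoc, h1, mul_zero]

theorem exists_decomp_all {R : Type v} [Ring R] (𝓓 : Calc R) [RC 𝓓]
    (hsp : ∀ x : R, (∀ y, x * y * x = 0) → x = 0)
    (hnil : ∀ (n : ℕ) (x : R), n ≠ 0 → n • x = 0 → x * x = 0 → x = 0) :
    ∃ (n k N : ℕ) (a : Fin n → ℕ) (K : Fin n → Type v) (_ : ∀ i, Field (K i)) (F : Fin k → Type v)
      (_ : ∀ i, Field (F i)) (B : Type v) (_ : Ring B), 2 ≤ N ∧ (∀ i, 0 < a i ∧ IsAlgClosed (K i)) ∧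
      (∀ i, IsAlgClosed (F i)) ∧ (∀ x : B, x ^ N = x) ∧
      Nonempty (R ≃+* (∀ i, Matrix (Fin (a i)) (Fin (a i)) (K i)) × ((∀ i, F i) × B)) := by
  obtain ⟨M, g, hM0, hgg, hgc, hMg, htf⟩ := exists_tor 𝓓
  obtain ⟨A, B, _, _, e, he⟩ := split_idem g hgg hgc
  obtain ⟨𝓐, h𝓐⟩ := exists_calc_factor 𝓓 ((RingHom.fst A B).comp e.toRingHom)
    (fun x => ⟨e.symm (x, 0), by simp⟩) g (fun x => by
      constructor
      · intro h
        apply e.injective
        rw [map_mul, he, map_zero]
        have h' : (e x).1 = 0 := h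
        refine Prod.ext ?_ (by simp)
        simp [h']
      · intro h
        have h1 := congrArg (fun z => (e z).1) h
        simpa [he] using h1)
  obtain ⟨𝓑, h𝓑⟩ := exists_calc_factor 𝓓 ((RingHom.snd A B).comp e.toRingHom)
    (fun x => ⟨e.symm (0, x), by simp⟩) (1 - g) (fun x => by
      have h2 : e (1 - g) = (0, 1) := by
        rw [map_sub, map_one, he]
        ext <;> simp
      constructor
      · intro h
        apply e.injective
        rw [map_mul, h2, map_zero]
        have h' : (e x).2 = 0 := h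
        refine Prod.ext (by simp) ?_
        simp [h']
      · intro h
        have h1 := congrArg (fun z => (e z).2) h
        simpa [h2] using h1)
  have hA0 : ∀ a : A, e.symm (a, 0) = 0 → a = 0 := by
    intro a ha
    have h1 := congrArg e ha
    rw [RingEquiv.apply_symm_apply, map_zero] at h1
    exact congrArg Prod.fst h1
  have hB0 : ∀ b : B, e.symm (0, b) = 0 → b = 0 := by
    intro b hb
    have h1 := congrArg e hb
    rw [RingEquiv.apply_symm_apply, map_zero] at h1
    exact congrArg Prod.snd h1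
  have htfA : ∀ (n : ℕ) (x : A), n ≠ 0 → n • x = 0 → x = 0 := by
    intro n x hn hx
    apply hA0
    refine htf n _ hn ?_ ?_
    · apply e.injective
      rw [map_mul, he, RingEquiv.apply_symm_apply, Prod.mk_mul_mk, one_mul, zero_mul]
    · rw [← map_nsmul, Prod.smul_mk, hx, smul_zero]
      exact map_zero e.symm
  have hspA : ∀ x : A, (∀ y, x * y * x = 0) → x = 0 := by
    intro x hx
    apply hA0
    apply hsp
    intro y
    apply e.injective
    rw [map_mul, map_mul, RingEquiv.apply_symm_apply, map_zero]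
    refine Prod.ext ?_ (by simp)
    simpa using hx _
  obtain ⟨n, a, K, _, f, hK, hf, N', hN'⟩ := decomp_acf 𝓐 htfA
  have hinj : Function.Injective f := by
    rw [injective_iff_map_eq_zero]
    intro x hx
    exact ker_eq_zero_of_semiprime f hspA N' hN' x hx
  obtain ⟨eA⟩ : Nonempty (A ≃+* ∀ i, Matrix (Fin (a i)) (Fin (a i)) (K i)) :=
    ⟨RingEquiv.ofBijective f ⟨hinj, hf⟩⟩
  have hMB : (M : B) = 0 := by
    have h1 := congrArg (fun z => (e z).2) hMg
    simpa [he] using h1
  have hredB : ∀ x : B, x * x = 0 → x = 0 := by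
    intro x hx
    apply hB0
    refine hnil M _ hM0 ?_ ?_
    · rw [← map_nsmul, Prod.smul_mk, smul_zero, nsmul_eq_mul, hMB, zero_mul]
      exact map_zero e.symm
    · rw [← map_mul, Prod.mk_mul_mk, mul_zero, hx]
      exact map_zero e.symm
  obtain ⟨k, N, F, _, C, _, hN, hF, hC, ⟨eB⟩⟩ := exists_dcp 𝓑 hredB M hM0 hMB
  exact ⟨n, k, N, a, K, inferInstance, F, inferInstance, C, inferInstance, hN,
    fun i => ⟨(hK i).1, (hK i).2.2⟩, hF, hC, ⟨e.trans (RingEquiv.prodCongr eA eB)⟩⟩

end VRR
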