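import Pool.Agent.VRR.Idt
import Pool.Agent.VRR.Tor
import Pool.Agent.VCR.IntC
import Pool.Agent.VCR.RInt
import Pool.Agent.VCR.Maim

/-!
# VRR-Asm: the perfect set form of Vaught's conjecture for theories of semiprime rings
-/

open Set FirstOrder VCR

namespace VRR

/-- cancellation of the factor `A` -/
theorem cancel {l : List (ℕ × ℕ × ℕ∞)} {A : Type} [rA : Ring A] (hA : IsCode l A rA) {N : ℕ} (hN : 2 ≤ N)
    {B B' : Type} [Ring B] [Ring B'] (hB : ∀ x : B, x ^ N = x) (hB' : ∀ x : B', x ^ N = x)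
    (φ : A × B ≃+* A × B') : Nonempty (B ≃+* B') := by
  have key : ∀ {B B' : Type} [Ring B] [Ring B'] (_ : ∀ x : B, x ^ N = x) (φ : A × B ≃+* A × B'),
      (φ (0, 1)).1 = 0 := by
    intro B B' _ _ hB φ
    refine hA.noB hN _ fun x => ?_
    have h1 : ((0, 1) : A × B) * (φ.symm (x, 0)) ^ N = (0, 1) * φ.symm (x, 0) := by
      refine Prod.ext ?_ ?_
      · simp
      · show (1 : B) * ((φ.symm (x, 0)).2) ^ N = 1 * (φ.symm (x, 0)).2
        rw [hB]
    have h2 := congrArg φ h1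
    rw [map_mul, map_pow, map_mul, RingEquiv.apply_symm_apply] at h2
    exact congrArg Prod.fst h2
  have h1 := key hB φ
  have h2 := key hB' φ.symm
  have hz : ∀ {B B' : Type} [Ring B] [Ring B'] (φ : A × B ≃+* A × B'), (φ (0, 1)).1 = 0 →
      ∀ b : B, (φ (0, b)).1 = 0 := by
    intro B B' _ _ φ h b
    have h3 : ((0, b) : A × B) = (0, 1) * (0, b) := by rw [Prod.mk_mul_mk, zero_mul, one_mul]
    rw [h3, map_mul]
    show (φ (0, 1)).1 * (φ (0, b)).1 = 0
    rw [h, zero_mul]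
  have z1 := hz φ h1
  have z2 := hz φ.symm h2
  refine ⟨{
    toFun := fun b => (φ (0, b)).2
    invFun := fun b => (φ.symm (0, b)).2
    left_inv := fun b => ?_
    right_inv := fun b => ?_
    map_mul' := fun x y => ?_
    map_add' := fun x y => ?_ }⟩
  · show (φ.symm (0, (φ (0, b)).2)).2 = b
    have h3 : ((0, (φ (0, b)).2) : A × B') = φ (0, b) := Prod.ext (z1 b).symm rfl
    rw [h3, RingEquiv.symm_apply_apply]
  · show (φ (0, (φ.symm (0, b)).2)).2 = b
    have h3 : ((0, (φ.symm (0, b)).2) : A × B) = φ.symm (0, b) := Prod.ext (z2 b).symm rfl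
    rw [h3, RingEquiv.apply_symm_apply]
  · have h3 : ((0, x * y) : A × B) = (0, x) * (0, y) := by rw [Prod.mk_mul_mk, zero_mul]
    rw [h3, map_mul, Prod.snd_mul]
  · have h3 : ((0, x + y) : A × B) = (0, x) + (0, y) := by rw [Prod.mk_add_mk, zero_add]
    rw [h3, map_add, Prod.snd_add]

theorem ringEquiv_of_iso {s t : Str FirstOrder.Language.ring} {R R' : Type} [Ring R] [Ring R']
    (hs : IsRingStr s R) (ht : IsRingStr t R') (h : Iso s t) : Nonempty (R ≃+* R') := by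
  obtain ⟨e⟩ := isRingStr_iff.1 hs
  obtain ⟨e'⟩ := isRingStr_iff.1 ht
  obtain ⟨g⟩ := h
  have e₁ := @FirstOrder.Language.Equiv.symm _ ℕ R (toStructure s) (rstr R) e
  have e₂ := @FirstOrder.Language.Equiv.comp _ R ℕ (rstr R) (toStructure s) ℕ (toStructure t) g e₁
  have e₃ := @FirstOrder.Language.Equiv.comp _ R ℕ (rstr R) (toStructure t) R' (rstr R') e' e₂
  exact ringEquiv_of_leq e₃

theorem isRingStr_iso {s t : Str FirstOrder.Language.ring} {R : Type} [Ring R]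
    (hs : IsRingStr s R) (h : Iso t s) : IsRingStr t R := by
  rw [isRingStr_iff] at hs ⊢
  obtain ⟨e⟩ := hs
  obtain ⟨g⟩ := h
  exact ⟨@FirstOrder.Language.Equiv.comp _ ℕ ℕ (toStructure t) (toStructure s) R (rstr R) e g⟩

theorem pc_ring {A B : Type} [Ring A] [Ring B] (e : A × ℕ ≃ ℕ) {s : Str FirstOrder.Language.ring}
    (hs : IsRingStr s B) : IsRingStr (@pc _ A (rstr A) e s) (A × B) := by
  rw [isRingStr_iff] at hs ⊢
  obtain ⟨g⟩ := hs
  obtain ⟨φ⟩ := @pc_equiv _ A (rstr A) e s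
  obtain ⟨ψ⟩ := @prod_equiv _ A A ℕ B (rstr A) (rstr A) (toStructure s) (rstr B)
    (@FirstOrder.Language.Equiv.refl _ A (rstr A)) g
  rw [prodStr_rstr] at ψ
  exact ⟨@FirstOrder.Language.Equiv.comp FirstOrder.Language.ring ℕ (A × ℕ)
    (toStructure (@pc _ A (rstr A) e s)) (@prodStr _ A ℕ (rstr A) (toStructure s)) (A × B) (rstr (A × B)) ψ
    (@FirstOrder.Language.Equiv.symm _ (A × ℕ) ℕ (@prodStr _ A ℕ (rstr A) (toStructure s))
      (toStructure (@pc _ A (rstr A) e s)) φ)⟩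

theorem mod_iso {T : FirstOrder.Language.ring.Theory} {s t : Str FirstOrder.Language.ring} (h : Iso s t)
    (hs : s ∈ VCR.Mod T) : t ∈ VCR.Mod T := by
  obtain ⟨g⟩ := h
  exact model_of_equiv (toStructure s) (toStructure t) g T hs

theorem ids_of_ringStr {N : ℕ} (hN : 2 ≤ N) {s : Str FirstOrder.Language.ring} {B : Type} [Ring B]
    (hs : IsRingStr s B) (hB : ∀ x : B, x ^ N = x) : @VCD.Ids _ (FI N) FK _ ℕ (toStructure s) := by
  obtain ⟨g⟩ := isRingStr_iff.1 hs
  exact ids_congr (rstr B) (toStructure s) (@FirstOrder.Language.Equiv.symm _ ℕ B (toStructure s) (rstr B) g)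
    (ids_of_pow hN hB)

theorem exists_ring_of_ids {N : ℕ} {s : Str FirstOrder.Language.ring}
    (h : @VCD.Ids _ (FI N) FK _ ℕ (toStructure s)) :
    ∃ (B : Type) (_ : Ring B), IsRingStr s B ∧ ∀ x : B, x ^ N = x := by
  obtain ⟨r, hr, hN⟩ := ring_of_ids (toStructure s) h
  refine ⟨ℕ, r, (@isRingStr_iff s ℕ r).2 ?_, hN⟩
  rw [hr]
  exact ⟨@FirstOrder.Language.Equiv.refl _ ℕ (toStructure s)⟩

end VRR
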