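import Pool.Agent.VRR.Asm

/-!
# VRR-AsmB: coded decompositions of the models of a theory without perfectly many models
-/

open Set FirstOrder VCR

namespace VRR

theorem exists_coded (T : FirstOrder.Language.ring.Theory) (hP : ¬ PerfectMany T)
    {s : Str FirstOrder.Language.ring} (hs : s ∈ VCR.Mod T) {R : Type} [Ring R] (hR : IsRingStr s R)
    (hsp : ∀ x : R, (∀ y, x * y * x = 0) → x = 0)
    (hnil : ∀ (n : ℕ) (x : R), n ≠ 0 → n • x = 0 → x * x = 0 → x = 0) :
    ∃ (l : List (ℕ × ℕ × ℕ∞)) (N : ℕ) (A : Type) (rA : Ring A) (B : Type) (rB : Ring B),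
      IsCode l A rA ∧ 2 ≤ N ∧ (∀ x : B, x ^ N = x) ∧ IsRingStr s (A × B) := by
  classical
  letI := toStructure s
  haveI := countable_ring_symbols
  obtain ⟨g, _⟩ := id hR
  haveI : Countable R := g.symm.injective.countable
  haveI : Infinite R := Infinite.of_injective g g.injective
  obtain ⟨𝓓, h𝓓⟩ := exists_calc_of_interp T (M := ℕ) hs hP (interpretable_self hR)
  obtain ⟨n, k, N, a, K, hK, F, hF, B, hB, hN, h1, h2, h3, ⟨e⟩⟩ := exists_decomp_all 𝓓 hsp hnil
  have hc : ∀ i, Countable (K i) := fun i => by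
    have hpos := (h1 i).1
    refine Function.Surjective.countable
      (f := fun x : R => (e x).1 i ⟨0, hpos⟩ ⟨0, hpos⟩)
      (fun x => ⟨e.symm (Pi.single i (Matrix.diagonal fun _ => x), 0), by simp⟩)
  have hcF : ∀ i, Countable (F i) := fun i => by
    refine Function.Surjective.countable (f := fun x : R => (e x).2.1 i)
      (fun x => ⟨e.symm (0, (Pi.single i x, 0)), by simp⟩)
  obtain ⟨l₁, hl₁⟩ := exists_code_pi a K fun i => ⟨(h1 i).2, hc i⟩
  obtain ⟨l₂, hl₂⟩ := exists_code_fields F fun i => ⟨h2 i, hcF i⟩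
  refine ⟨l₁ ++ l₂, N, _, _, B, hB, IsCode.prod hl₁ hl₂, hN, h3, ?_⟩
  refine isRingStr_congr (e.trans ?_) hR
  exact
    { toFun := fun x => ((x.1, x.2.1), x.2.2)
      invFun := fun x => (x.1.1, (x.1.2, x.2))
      left_inv := fun x => rfl
      right_inv := fun x => rfl
      map_mul' := fun x y => rfl
      map_add' := fun x y => rfl }

end VRR
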