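import Pool.Agent.VRR.AsmB
import Pool.Agent.VCD.Main

/-!
# VRR-AsmC: models with a factor of bounded exponent which is infinite
-/

open Set FirstOrder VCR

namespace VRR

theorem iso_symm {L : FirstOrder.Language.{0, 0}} {s t : Str L} (h : Iso s t) : Iso t s := by
  obtain ⟨g⟩ := h
  exact ⟨@FirstOrder.Language.Equiv.symm _ ℕ ℕ (toStructure s) (toStructure t) g⟩

theorem countable_funcs (n : ℕ) : Countable (FirstOrder.Language.ring.Functions n) := by
  change Countable (FirstOrder.ringFunc n)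
  refine Function.Injective.countable (f := fun x : FirstOrder.ringFunc n =>
    (match x with
      | .add => 0
      | .mul => 1
      | .neg => 2
      | .zero => 3
      | .one => 4 : ℕ)) ?_
  intro a b h
  cases a <;> cases b <;> simp_all

theorem no_rels (n : ℕ) : IsEmpty (FirstOrder.Language.ring.Relations n) :=
  inferInstanceAs (IsEmpty Empty)

theorem mem_union {T T' : FirstOrder.Language.ring.Theory} {s : Str FirstOrder.Language.ring} :
    s ∈ VCR.Mod (T ∪ T') ↔ s ∈ VCR.Mod T ∧ s ∈ VCR.Mod T' :=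
  @FirstOrder.Language.Theory.model_union_iff _ ℕ (toStructure s) T T'

theorem mem_idT {N : ℕ} {s : Str FirstOrder.Language.ring} :
    s ∈ VCR.Mod (idT (FK (N := N))) ↔ @VCD.Ids _ (FI N) FK _ ℕ (toStructure s) :=
  @model_idT _ (FI N) FK _ ℕ (toStructure s) _

theorem countable_inf (T : FirstOrder.Language.ring.Theory) (hP : ¬ PerfectMany T)
    (l : List (ℕ × ℕ × ℕ∞)) {N : ℕ} (hN : 2 ≤ N) :
    ∃ C : Set (Str FirstOrder.Language.ring), C.Countable ∧ ∀ s ∈ VCR.Mod T,
      ∀ (A : Type) (rA : Ring A) (B : Type) (rB : Ring B), Infinite B → IsCode l A rA →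
        (∀ x : B, x ^ N = x) → IsRingStr s (A × B) → ∃ t ∈ C, Iso s t := by
  classical
  by_cases hA : ∃ (A : Type) (rA : Ring A), IsCode l A rA
  swap
  · exact ⟨∅, countable_empty, fun s hs A rA B rB _ h => absurd ⟨A, rA, h⟩ hA⟩
  obtain ⟨A, rA, hA⟩ := hA
  haveI := hA.countable
  haveI : ∀ n, Countable (FirstOrder.Language.ring.Functions n) := countable_funcs
  haveI : ∀ n, IsEmpty (FirstOrder.Language.ring.Relations n) := no_rels
  haveI : ∀ n, Countable (FirstOrder.Language.ring.Relations n) := fun n => inferInstance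
  obtain ⟨e⟩ : Nonempty (A × ℕ ≃ ℕ) := nonempty_equiv_of_countable
  letI := rstr A
  have hring : ∀ s ∈ VCR.Mod (thA A T ∪ idT (FK (N := N))), ∃ (B : Type) (_ : Ring B),
      IsRingStr s B ∧ ∀ x : B, x ^ N = x := fun s hs =>
    exists_ring_of_ids (mem_idT.1 (mem_union.1 hs).2)
  have hP' : ¬ PerfectMany (thA A T ∪ idT (FK (N := N))) := by
    intro h
    refine hP (perfect_of_prod e T _ (fun s hs => (mem_union.1 hs).1) ?_ h)
    intro s hs s' hs' hss
    obtain ⟨B, _, h1, h2⟩ := hring s hs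
    obtain ⟨B', _, h1', h2'⟩ := hring s' hs'
    obtain ⟨φ⟩ := ringEquiv_of_iso (pc_ring e h1) (pc_ring e h1') hss
    obtain ⟨ψ⟩ := cancel hA hN h2 h2' φ
    exact iso_of_ringEquiv h1 h1' ψ
  obtain ⟨sw, D⟩ := VCD.SwO_of_disc (S := FK (N := N)) (isDisc_dterm hN)
  have hV : VC2 (thA A T ∪ idT (FK (N := N))) :=
    VCD.vc_main D no_rels _ fun s hs => mem_idT.1 (mem_union.1 hs).2
  obtain ⟨C', hC', hC'2⟩ := hV.resolve_right hP'
  refine ⟨pc e '' C', hC'.image _, ?_⟩
  intro s hs A₁ rA₁ B rB hBi hA₁ hB hsr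
  obtain ⟨φ⟩ := hA₁.iso hA
  haveI : Countable B := by
    obtain ⟨g, _⟩ := id hsr
    exact Function.Surjective.countable (f := fun n => (g n).2)
      (fun b => ⟨g.symm (0, b), by simp⟩)
  obtain ⟨t, ht⟩ := exists_isRingStr B
  have h1 : IsRingStr (pc e t) (A × B) := pc_ring e ht
  have h2 : IsRingStr s (A × B) := isRingStr_congr (RingEquiv.prodCongr φ (RingEquiv.refl B)) hsr
  have h3 : Iso s (pc e t) := iso_of_ringEquiv h2 h1 (RingEquiv.refl _)
  have h4 : pc e t ∈ VCR.Mod T := mod_iso h3 hs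
  have h5 : t ∈ VCR.Mod (thA A T ∪ idT (FK (N := N))) :=
    mem_union.2 ⟨(model_pc e T t).1 h4, mem_idT.2 (ids_of_ringStr hN ht hB)⟩
  obtain ⟨t', ht', h6⟩ := hC'2 t h5
  refine ⟨pc e t', ⟨t', ht', rfl⟩, ?_⟩
  have h7 : IsRingStr t' B := isRingStr_iso ht (iso_symm h6)
  exact iso_of_ringEquiv h2 (pc_ring e h7) (RingEquiv.refl _)

end VRR
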