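import Mathlib

/-!
# VRR-Code: codes of finite products of matrix rings over countable algebraically closed fields
-/

open Cardinal

namespace VRR

/-- `K` is a countable algebraically closed field with a transcendence basis of size `d` over `ZMod p`. -/
def FC (p : ℕ) (d : ℕ∞) (K : Type) [Field K] : Prop :=
  IsAlgClosed K ∧ Countable K ∧ ∃ (_ : Algebra (ZMod p) K) (s : Set K),
    IsTranscendenceBasis (ZMod p) ((↑) : s → K) ∧ Cardinal.toENat (Cardinal.mk s) = d

theorem FC_exists (K : Type) [Field K] [IsAlgClosed K] [Countable K] : ∃ p d, FC p d K := by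
  obtain ⟨p, hp⟩ := CharP.exists K
  letI : Algebra (ZMod p) K := ZMod.algebra K p
  haveI : FaithfulSMul (ZMod p) K := by
    rw [faithfulSMul_iff_algebraMap_injective]
    exact ZMod.castHom_injective K
  obtain ⟨s, hs⟩ := exists_isTranscendenceBasis (ZMod p) K
  exact ⟨p, _, inferInstance, inferInstance, inferInstance, s, hs, rfl⟩

theorem FC_iso {p : ℕ} {d : ℕ∞} {K K' : Type} [Field K] [Field K'] (h : FC p d K) (h' : FC p d K') :
    Nonempty (K ≃+* K') := by
  obtain ⟨_, _, _, s, hs, hd⟩ := h
  obtain ⟨_, _, _, t, ht, hd'⟩ := h'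
  have h3 : Cardinal.mk s ≤ Cardinal.aleph0 := Cardinal.mk_le_aleph0
  have h4 : Cardinal.mk t ≤ Cardinal.aleph0 := Cardinal.mk_le_aleph0
  have h5 : Cardinal.mk s = Cardinal.mk t := Cardinal.toENat_injOn h3 h4 (hd.trans hd'.symm)
  obtain ⟨e⟩ := Cardinal.eq.1 h5
  exact ⟨IsAlgClosed.equivOfTranscendenceBasis _ _ e hs ht⟩

theorem FC_infinite {p : ℕ} {d : ℕ∞} {K : Type} [Field K] (h : FC p d K) : Infinite K := by
  have := h.1
  exact IsAlgClosed.instInfinite

/-- the ring `A` is a finite product of matrix rings as described by the list -/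
def IsCode : List (ℕ × ℕ × ℕ∞) → (A : Type) → Ring A → Prop
  | [], A, _ => Subsingleton A
  | c :: l, A, _ => ∃ (K A' : Type) (_ : Field K) (r : Ring A'), FC c.2.1 c.2.2 K ∧ IsCode l A' r ∧
      Nonempty (A ≃+* Matrix (Fin c.1) (Fin c.1) K × A')

theorem IsCode.iso {l : List (ℕ × ℕ × ℕ∞)} : ∀ {A B : Type} [rA : Ring A] [rB : Ring B],
    IsCode l A rA → IsCode l B rB → Nonempty (A ≃+* B) := by
  induction l with
  | nil =>
    intro A B _ _ h h'
    have h1 : Subsingleton A := h
    have h2 : Subsingleton B := h'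
    exact ⟨{ toFun := fun _ => 0, invFun := fun _ => 0, left_inv := fun _ => Subsingleton.elim _ _,
             right_inv := fun _ => Subsingleton.elim _ _, map_mul' := fun _ _ => Subsingleton.elim _ _,
             map_add' := fun _ _ => Subsingleton.elim _ _ }⟩
  | cons c l ih =>
    rintro A B _ _ ⟨K, A', _, _, hK, hA', ⟨e⟩⟩ ⟨K₁, B', _, _, hK₁, hB', ⟨e'⟩⟩
    obtain ⟨f⟩ := FC_iso hK hK₁
    obtain ⟨g⟩ := ih hA' hB'
    exact ⟨e.trans ((RingEquiv.prodCongr f.mapMatrix g).trans e'.symm)⟩

theorem IsCode.congr {l : List (ℕ × ℕ × ℕ∞)} {A B : Type} [rA : Ring A] [rB : Ring B] (e : B ≃+* A)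
    (h : IsCode l A rA) : IsCode l B rB := by
  cases l with
  | nil =>
    have h1 : Subsingleton A := h
    exact e.toEquiv.subsingleton
  | cons c l =>
    obtain ⟨K, A', _, _, hK, hA', ⟨f⟩⟩ := h
    exact ⟨K, A', _, _, hK, hA', ⟨e.trans f⟩⟩

private def prodNil (A B : Type) [Ring A] [Ring B] [Subsingleton A] : A × B ≃+* B where
  toFun x := x.2
  invFun y := (0, y)
  left_inv x := Prod.ext (Subsingleton.elim _ _) rfl
  right_inv _ := rfl
  map_mul' _ _ := rfl
  map_add' _ _ := rfl

private def prodAs (A B C : Type) [Ring A] [Ring B] [Ring C] : (A × B) × C ≃+* A × (B × C) where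
  toFun x := (x.1.1, x.1.2, x.2)
  invFun y := ((y.1, y.2.1), y.2.2)
  left_inv _ := rfl
  right_inv _ := rfl
  map_mul' _ _ := rfl
  map_add' _ _ := rfl

theorem IsCode.prod {l l' : List (ℕ × ℕ × ℕ∞)} : ∀ {A B : Type} [rA : Ring A] [rB : Ring B],
    IsCode l A rA → IsCode l' B rB → IsCode (l ++ l') (A × B) inferInstance := by
  induction l with
  | nil =>
    intro A B _ _ h h'
    have h1 : Subsingleton A := h
    exact IsCode.congr (prodNil A B) h'
  | cons c l ih =>
    rintro A B _ _ ⟨K, A', _, _, hK, hA', ⟨e⟩⟩ h'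
    exact ⟨K, A' × B, _, _, hK, ih hA' h', ⟨(RingEquiv.prodCongr e (RingEquiv.refl B)).trans
      (prodAs _ _ _)⟩⟩

private def consEq {n : ℕ} (X : Fin (n + 1) → Type) [∀ i, Ring (X i)] :
    (∀ i, X i) ≃+* X 0 × (∀ i : Fin n, X i.succ) where
  toFun f := (f 0, fun i => f i.succ)
  invFun p := Fin.cons p.1 p.2
  left_inv f := by
    funext i
    refine Fin.cases ?_ (fun j => ?_) i
    · rfl
    · rfl
  right_inv p := rfl
  map_mul' _ _ := rfl
  map_add' _ _ := rfl

theorem exists_code_pi {n : ℕ} (a : Fin n → ℕ) (K : Fin n → Type) [∀ i, Field (K i)]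
    (hK : ∀ i, IsAlgClosed (K i) ∧ Countable (K i)) :
    ∃ l, IsCode l (∀ i, Matrix (Fin (a i)) (Fin (a i)) (K i)) inferInstance := by
  induction n with
  | zero => exact ⟨[], (inferInstance : Subsingleton (∀ i : Fin 0, Matrix (Fin (a i)) (Fin (a i)) (K i)))⟩
  | succ n ih =>
    obtain ⟨l, hl⟩ := ih (fun i => a i.succ) (fun i => K i.succ) (fun i => hK i.succ)
    have := (hK 0).1
    have := (hK 0).2
    obtain ⟨p, d, hpd⟩ := FC_exists (K 0)
    exact ⟨(a 0, p, d) :: l, K 0, _, _, _, hpd, hl, ⟨consEq _⟩⟩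

private def oneMat (K : Type) [Field K] : K ≃+* Matrix (Fin 1) (Fin 1) K where
  toFun x := fun _ _ => x
  invFun m := m 0 0
  left_inv _ := rfl
  right_inv m := by
    ext i j
    rw [Subsingleton.elim i 0, Subsingleton.elim j 0]
  map_mul' x y := by
    ext i j
    rw [Matrix.mul_apply]
    simp
  map_add' _ _ := rfl

theorem exists_code_fields {n : ℕ} (K : Fin n → Type) [∀ i, Field (K i)]
    (hK : ∀ i, IsAlgClosed (K i) ∧ Countable (K i)) : ∃ l, IsCode l (∀ i, K i) inferInstance := by
  obtain ⟨l, hl⟩ := exists_code_pi (fun _ => 1) K hK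
  exact ⟨l, IsCode.congr (RingEquiv.piCongrRight fun i => oneMat (K i)) hl⟩

theorem IsCode.countable {l : List (ℕ × ℕ × ℕ∞)} : ∀ {A : Type} [rA : Ring A],
    IsCode l A rA → Countable A := by
  induction l with
  | nil =>
    intro A _ h
    have h1 : Subsingleton A := h
    infer_instance
  | cons c l ih =>
    rintro A _ ⟨K, A', _, _, hK, hA', ⟨e⟩⟩
    have := hK.2.1
    have := ih hA'
    have : Countable (Matrix (Fin c.1) (Fin c.1) K) := inferInstanceAs (Countable (Fin c.1 → Fin c.1 → K))
    exact e.injective.countable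

/-- no nonzero element `e` satisfies `e * x ^ N = e * x` for all `x` -/
theorem IsCode.noB {l : List (ℕ × ℕ × ℕ∞)} {N : ℕ} (hN : 2 ≤ N) : ∀ {A : Type} [rA : Ring A],
    IsCode l A rA → ∀ e : A, (∀ x, e * x ^ N = e * x) → e = 0 := by
  induction l with
  | nil =>
    intro A _ h e _
    have h1 : Subsingleton A := h
    exact Subsingleton.elim _ _
  | cons c l ih =>
    rintro A _ ⟨K, A', _, _, hK, hA', ⟨f⟩⟩ e he
    have hf : ∀ x : Matrix (Fin c.1) (Fin c.1) K × A', f e * x ^ N = f e * x := by
      intro x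
      have h1 := congrArg f (he (f.symm x))
      simpa using h1
    have h2 : (f e).2 = 0 := by
      refine ih hA' _ fun x => ?_
      have h1 := congrArg Prod.snd (hf (0, x))
      simpa using h1
    have h3 : (f e).1 = 0 := by
      have hinf := FC_infinite hK
      obtain ⟨t, ht⟩ : ∃ t : K, t ^ N ≠ t := by
        by_contra hcon
        push Not at hcon
        have h4 : (Polynomial.X ^ N - Polynomial.X : Polynomial K) = 0 := by
          apply Polynomial.eq_zero_of_infinite_isRoot
          refine Set.infinite_of_injective_forall_mem (f := fun x : K => x) (fun _ _ h => h) fun x => ?_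
          show Polynomial.IsRoot _ _
          rw [Polynomial.IsRoot.def, Polynomial.eval_sub, Polynomial.eval_pow, Polynomial.eval_X, hcon,
            sub_self]
        have h5 := congrArg (fun q => Polynomial.coeff q N) h4
        simp only [Polynomial.coeff_sub, Polynomial.coeff_X_pow, Polynomial.coeff_X, if_true,
          Polynomial.coeff_zero] at h5
        rw [if_neg (by omega), sub_zero] at h5
        exact one_ne_zero h5
      ext i j
      have h1 := congrFun (congrFun (congrArg Prod.fst (hf (Matrix.scalar (Fin c.1) t, 0))) i) j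
      rw [Prod.fst_mul, Prod.fst_mul, Prod.pow_fst, ← map_pow] at h1
      simp only [Matrix.scalar_apply, Matrix.mul_diagonal] at h1
      have h6 : (f e).1 i j * (t ^ N - t) = 0 := by rw [mul_sub, h1, sub_self]
      exact (mul_eq_zero.1 h6).resolve_right (sub_ne_zero.2 ht)
    apply f.injective
    rw [map_zero]
    exact Prod.ext h3 h2

end VRR
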