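import Pool.Agent.VRR.DivB
import Pool.Agent.VCR.DivB

/-!
# VRR-DivC: a division ring of characteristic `p` with a calculus is commutative

Elements of finite order are central (`fin_central`), there are no `a`, `t` with `a * t - t * a = 1` (`no_weyl`), and a
noncentral `y` would give a decomposition `D = C(y) ⊕ ad y (D)`, hence a polynomial relation of `y`.
-/

open Set VCR

namespace VRR

universe v

/-- the centre of the centralizer is algebraically closed or finite -/
theorem acf_or_finite {D : Type v} [DivisionRing D] (p : ℕ) [hp : Fact p.Prime] [CharP D p]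
    (𝓓 : Calc D) [RC 𝓓] (x y : D) : Finite (Subring.center (cen ({x, y} : Set D))) ∨
      IsAlgClosed (Subring.center (cen ({x, y} : Set D))) := by
  rcases finite_or_infinite (Subring.center (cen ({x, y} : Set D))) with h | h
  · exact Or.inl h
  · right
    obtain ⟨𝓔, h𝓔⟩ := exists_calc_cen 𝓓 x y
    have : CharP (Subring.center (cen ({x, y} : Set D))) p :=
      RingHom.charP (iot x y) (iot x y).injective p
    exact isAlgClosed_of_calc p 𝓔

theorem fin_central {D : Type v} [DivisionRing D] (p : ℕ) [hp : Fact p.Prime] [CharP D p]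
    (𝓓 : Calc D) [RC 𝓓] (y : D) (n : ℕ) (hn : 0 < n) (hy : y ^ n = 1) (x : D) : y * x = x * y := by
  by_contra hx
  obtain ⟨hfin, a, ha, ha0, b, hb0, hab⟩ := exists_eigen p y n hn hy ⟨x, hx⟩
  have hby : b * y = (y - a) * b := by
    rw [sub_mul, ← hab]
    abel
  have hcom : b * y ≠ y * b := by
    intro h
    rw [h, sub_mul, eq_comm, sub_eq_self] at hby
    exact mul_ne_zero ha0 hb0 hby
  have hyS : y ∈ Subring.closure ({y} : Set D) := Subring.subset_closure rfl
  have hσ : ∀ z ∈ Subring.closure ({y} : Set D), ∃ z' ∈ Subring.closure ({y} : Set D),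
      b * z = z' * b := by
    intro z hz
    induction hz using Subring.closure_induction with
    | mem z hz =>
      rcases hz with rfl
      exact ⟨z - a, Subring.sub_mem _ hyS ha, hby⟩
    | zero => exact ⟨0, Subring.zero_mem _, by simp⟩
    | one => exact ⟨1, Subring.one_mem _, by simp⟩
    | add z w _ _ h1 h2 =>
      obtain ⟨z', hz', e1⟩ := h1
      obtain ⟨w', hw', e2⟩ := h2
      exact ⟨z' + w', Subring.add_mem _ hz' hw', by rw [mul_add, add_mul, e1, e2]⟩
    | neg z _ h1 =>
      obtain ⟨z', hz', e1⟩ := h1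
      exact ⟨-z', Subring.neg_mem _ hz', by rw [mul_neg, neg_mul, e1]⟩
    | mul z w _ _ h1 h2 =>
      obtain ⟨z', hz', e1⟩ := h1
      obtain ⟨w', hw', e2⟩ := h2
      exact ⟨z' * w', Subring.mul_mem _ hz' hw', by rw [← mul_assoc, e1, mul_assoc, e2, mul_assoc]⟩
  have hσn : ∀ (i : ℕ), ∀ z ∈ Subring.closure ({y} : Set D),
      ∃ z' ∈ Subring.closure ({y} : Set D), b ^ i * z = z' * b ^ i := by
    intro i
    induction i with
    | zero => exact fun z hz => ⟨z, hz, by simp⟩
    | succ i ih =>
      intro z hz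
      obtain ⟨z', hz', e1⟩ := hσ z hz
      obtain ⟨z'', hz'', e2⟩ := ih z' hz'
      exact ⟨z'', hz'', by rw [pow_succ, mul_assoc, e1, ← mul_assoc, e2, mul_assoc]⟩
  by_cases hbN : ∃ N, 0 < N ∧ b ^ N = 1
  · obtain ⟨N, hN, hbN⟩ := hbN
    obtain ⟨s, hs⟩ : ∃ s : Set D, ∀ w, w ∈ s ↔ ∃ z ∈ Subring.closure ({y} : Set D), ∃ i < N,
        w = z * b ^ i := ⟨{w | ∃ z ∈ Subring.closure ({y} : Set D), ∃ i < N, w = z * b ^ i},
          fun w => Iff.rfl⟩
    have hmod : ∀ i : ℕ, b ^ i = b ^ (i % N) := by
      intro i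
      conv_lhs => rw [← Nat.mod_add_div i N, pow_add, pow_mul, hbN, one_pow, mul_one]
    have hsf : s.Finite := by
      have h1 : s ⊆ (fun q : D × ℕ => q.1 * b ^ q.2) ''
          ((Subring.closure ({y} : Set D) : Set D) ×ˢ (Finset.range N : Set ℕ)) := by
        intro w hw
        obtain ⟨z, hz, i, hi, rfl⟩ := (hs w).1 hw
        exact ⟨(z, i), ⟨hz, by simpa using hi⟩, rfl⟩
      exact ((hfin.prod (Finset.finite_toSet _)).image _).subset h1
    have hfc : (Subring.closure s : Set D).Finite := by
      refine finite_closure p s hsf ?_ ?_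
      · exact (hs 1).2 ⟨1, Subring.one_mem _, 0, hN, by simp⟩
      · intro u hu w hw
        obtain ⟨z, hz, i, hi, rfl⟩ := (hs u).1 hu
        obtain ⟨z', hz', j, hj, rfl⟩ := (hs w).1 hw
        obtain ⟨z'', hz'', e⟩ := hσn i z' hz'
        refine (hs _).2 ⟨z * z'', Subring.mul_mem _ hz hz'', (i + j) % N, Nat.mod_lt _ hN, ?_⟩
        rw [← hmod, pow_add]
        calc z * b ^ i * (z' * b ^ j) = z * (b ^ i * z') * b ^ j := by simp only [mul_assoc]
          _ = z * z'' * (b ^ i * b ^ j) := by rw [e]; simp only [mul_assoc]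
    have hys : y ∈ Subring.closure s :=
      Subring.subset_closure ((hs y).2 ⟨y, hyS, 0, hN, by simp⟩)
    have hbs : b ∈ Subring.closure s := by
      refine Subring.subset_closure ((hs b).2 ⟨1, Subring.one_mem _, 1 % N, Nat.mod_lt _ hN, ?_⟩)
      rw [← hmod, pow_one, one_mul]
    exact hcom (finSub_comm _ hfc b y hbs hys)
  · push Not at hbN
    -- some power of `b` commutes with `y`
    have hm : ∃ m, 0 < m ∧ b ^ m * y = y * b ^ m := by
      have h1 : ∀ i : ℕ, ∃ z : Subring.closure ({y} : Set D), b ^ i * y = (z : D) * b ^ i := by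
        intro i
        obtain ⟨z, hz, h⟩ := hσn i y hyS
        exact ⟨⟨z, hz⟩, h⟩
      choose z hz using h1
      have : Finite (Subring.closure ({y} : Set D)) := hfin.to_subtype
      have key : ∀ i j : ℕ, i < j → z i = z j → ∃ m, 0 < m ∧ b ^ m * y = y * b ^ m := by
        intro i j hij hzij
        refine ⟨j - i, by omega, ?_⟩
        have hj : b ^ j = b ^ i * b ^ (j - i) := by
          rw [← pow_add]
          congr 1
          omega
        have e1 := hz j
        rw [← hzij, hj, ← mul_assoc (z i : D), ← hz i, mul_assoc, mul_assoc] at e1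
        exact mul_left_cancel₀ (pow_ne_zero i hb0) e1
      obtain ⟨i, j, hij, hzij⟩ := Finite.exists_ne_map_eq_of_infinite z
      rcases lt_or_gt_of_ne hij with h1 | h1
      · exact key i j h1 hzij
      · exact key j i h1 hzij.symm
    obtain ⟨m, hm0, hm⟩ := hm
    have hcmem : b ^ m ∈ cen ({b, y} : Set D) := by
      intro c hc
      rcases hc with rfl | rfl
      · rw [← pow_succ, ← pow_succ']
      · exact hm.symm
    obtain ⟨c, hc⟩ := exists_iot b y (b ^ m) hcmem (fun z hz => by
      have h1 : Commute b z := hz b (by simp)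
      exact (h1.pow_left m).eq.symm)
    have hinf : ¬ Finite (Subring.center (cen ({b, y} : Set D))) := by
      intro hf
      obtain ⟨i, j, hij, hcij⟩ := Finite.exists_ne_map_eq_of_infinite (fun i : ℕ => c ^ i)
      have hcij' : (b ^ m) ^ i = (b ^ m) ^ j := by
        rw [← hc, ← map_pow, ← map_pow]
        exact congrArg _ hcij
      have hbm : b ^ m ≠ 0 := pow_ne_zero m hb0
      rcases lt_or_gt_of_ne hij with h1 | h1
      · refine hbN (m * (j - i)) (Nat.mul_pos hm0 (by omega)) ?_
        have h2 : (b ^ m) ^ j = (b ^ m) ^ (j - i) * (b ^ m) ^ i := by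
          rw [← pow_add]
          congr 1
          omega
        rw [← hcij'] at h2
        rw [pow_mul]
        exact (mul_eq_right₀ (pow_ne_zero i hbm)).1 h2.symm
      · refine hbN (m * (i - j)) (Nat.mul_pos hm0 (by omega)) ?_
        have h2 : (b ^ m) ^ i = (b ^ m) ^ (i - j) * (b ^ m) ^ j := by
          rw [← pow_add]
          congr 1
          omega
        rw [hcij'] at h2
        rw [pow_mul]
        exact (mul_eq_right₀ (pow_ne_zero j hbm)).1 h2.symm
    have hacf := (acf_or_finite p 𝓓 b y).resolve_left hinf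
    obtain ⟨r, hr⟩ := mem_of_root (iot b y) y (iot_comm b y)
      (Polynomial.X ^ n - 1 : Polynomial (Subring.center (cen ({b, y} : Set D)))).natDegree
      (Polynomial.X ^ n - 1) le_rfl (Polynomial.X_pow_sub_C_ne_zero hn 1) (by
        have e1 : Polynomial.eval₂RingHom' (iot b y) y (iot_comm b y) Polynomial.X = y :=
          Polynomial.eval₂_X (iot b y) y
        rw [map_sub, map_pow, e1, map_one, hy, sub_self])
    refine hcom ?_
    have h1 := iot_mem b y r b (by simp)
    rwa [← hr] at h1

theorem no_weyl {D : Type v} [DivisionRing D] (p : ℕ) [hp : Fact p.Prime] [CharP D p]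
    (𝓓 : Calc D) [RC 𝓓] (a t : D) : a * t - t * a ≠ 1 := by
  intro h
  obtain ⟨w, hw⟩ : ∃ w, w = t * a := ⟨_, rfl⟩
  have hat : a * t = t * a + 1 := by
    rw [← h]
    abel
  have haw : a * w = (w + 1) * a := by
    rw [hw, ← mul_assoc, hat]
  have ha0 : a ≠ 0 := by
    rintro rfl
    rw [zero_mul, mul_zero, sub_self] at h
    exact zero_ne_one h
  have hcom : a * w ≠ w * a := by
    intro h1
    rw [haw, add_mul, one_mul, add_eq_left] at h1
    exact ha0 h1
  have hw0 : w ≠ 0 := by
    intro h1
    rw [h1, mul_zero, zero_mul] at hcom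
    exact hcom rfl
  have hawn : ∀ n : ℕ, a * w ^ n = (w + 1) ^ n * a := by
    intro n
    induction n with
    | zero => rw [pow_zero, pow_zero, mul_one, one_mul]
    | succ n ih => rw [pow_succ, ← mul_assoc, ih, mul_assoc, haw, pow_succ, mul_assoc]
  obtain ⟨c, hc⟩ : ∃ c, c = w ^ p - w := ⟨_, rfl⟩
  have hac : a * c = c * a := by
    rw [hc, mul_sub, hawn, haw, add_pow_char_of_commute _ (Commute.one_right w), one_pow]
    noncomm_ring
  have hwc : w * c = c * w := by
    rw [hc, mul_sub, sub_mul, ← pow_succ, ← pow_succ']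
  have hain : a ∈ cen ({c, c} : Set D) := by
    intro b hb
    rcases hb with rfl | rfl <;> exact hac.symm
  have hwin : w ∈ cen ({c, c} : Set D) := by
    intro b hb
    rcases hb with rfl | rfl <;> exact hwc.symm
  have hcin : c ∈ cen ({c, c} : Set D) := by
    intro b hb
    rcases hb with rfl | rfl <;> rfl
  obtain ⟨d, hd⟩ := exists_iot c c c hcin (fun z hz => (hz c (by simp)).symm)
  have hcw : ∀ e, Commute (iot c c e) w := fun e => (iot_comm' c c e w hwin).symm
  rcases acf_or_finite p 𝓓 c c with hf | hacf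
  · -- `w` has finite order
    have hwp : w ^ p = w + c := by
      rw [hc]
      abel
    have h1 : ∀ i : ℕ, ∃ f, w ^ p ^ i = w + iot c c f := by
      intro i
      induction i with
      | zero => exact ⟨0, by rw [pow_zero, pow_one, map_zero, add_zero]⟩
      | succ i ih =>
        obtain ⟨f, hf⟩ := ih
        refine ⟨d + f ^ p, ?_⟩
        rw [pow_succ, pow_mul, hf, add_pow_char_of_commute _ (hcw f).symm, map_add, map_pow, hd, hwp, add_assoc]
    choose f hf' using h1
    obtain ⟨i, j, hij, hfij⟩ := Finite.exists_ne_map_eq_of_infinite f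
    have key : ∀ i j : ℕ, i < j → f i = f j → False := by
      intro i j hij hfij
      have h2 : w ^ p ^ i = w ^ p ^ j := by rw [hf' i, hf' j, hfij]
      have h3 : p ^ i < p ^ j := Nat.pow_lt_pow_right hp.out.one_lt hij
      have h4 : w ^ p ^ j = w ^ (p ^ j - p ^ i) * w ^ p ^ i := by
        rw [← pow_add]
        congr 1
        omega
      rw [← h2] at h4
      have h5 := (mul_eq_right₀ (pow_ne_zero _ hw0)).1 h4.symm
      exact hcom (fin_central p 𝓓 w _ (by omega) h5 a).symm
    rcases lt_or_gt_of_ne hij with h2 | h2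
    · exact key i j h2 hfij
    · exact key j i h2 hfij.symm
  · have hP : (Polynomial.X ^ p - Polynomial.X - Polynomial.C d :
        Polynomial (Subring.center (cen ({c, c} : Set D)))) ≠ 0 := by
      intro h0
      have h2 := congrArg (fun P : Polynomial (Subring.center (cen ({c, c} : Set D))) => P.coeff p) h0
      simp [Polynomial.coeff_X, Polynomial.coeff_C, hp.out.one_lt.ne, hp.out.pos.ne'] at h2
    obtain ⟨r, hr⟩ := mem_of_root (iot c c) w hcw _ _ le_rfl hP (by
      have e1 : Polynomial.eval₂RingHom' (iot c c) w hcw Polynomial.X = w :=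
        Polynomial.eval₂_X (iot c c) w
      have e2 : Polynomial.eval₂RingHom' (iot c c) w hcw (Polynomial.C d) = iot c c d :=
        Polynomial.eval₂_C (iot c c) w
      rw [map_sub, map_sub, map_pow, e1, e2, hd, hc, sub_self])
    have h1 := iot_comm' c c r a hain
    rw [← hr] at h1
    exact hcom h1

/-- a division ring of characteristic `p` with a calculus is commutative -/
theorem comm_of_calc {D : Type v} [DivisionRing D] (p : ℕ) [hp : Fact p.Prime] [CharP D p]
    (𝓓 : Calc D) [RC 𝓓] (x y : D) : x * y = y * x := by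
  by_cases hy0 : y = 0
  · rw [hy0, mul_zero, zero_mul]
  obtain ⟨𝓔, hle, hx, hy⟩ := exists_adj_two 𝓓 x y
  have : RC 𝓔 := RC.mono hle
  obtain ⟨π, hπ, hC, hl, hr, h1⟩ := exists_proj 𝓔 y hy (fun z => no_weyl p 𝓓 y z)
  obtain ⟨n, e, he, hrel⟩ := exists_rel y (Subring.closure ({x, y} : Set D))
    (fun d hd hind => no_indep_of_proj 𝓔 y π hπ hC hl hr h1 d
      (fun n => DE_closure hx hy (hd n)) hind)
  obtain ⟨P, hP, hP0⟩ := poly_of_rel x y n e he hrel
  rcases acf_or_finite p 𝓓 x y with hf | hacf
  · obtain ⟨n, hn, hyn⟩ := order_of_root (iot x y) y hy0 (iot_comm x y) P hP hP0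
    exact (fin_central p 𝓓 y n hn hyn x).symm
  · obtain ⟨r, hr⟩ := mem_of_root (iot x y) y (iot_comm x y) _ P le_rfl hP hP0
    have h1 := iot_mem x y r x (by simp)
    rwa [← hr] at h1

end VRR
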