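import Pool.Agent.VRR.Trn
import Pool.Agent.VCR.TraB
import Pool.Agent.VCR.MacB

/-!
# VRR-Gal: an infinite field with a calculus is algebraically closed

Kummer and Artin-Schreier theory.
-/

open Set VCR

namespace VRR

universe v

theorem mem_prime {K : Type v} [Field K] (p : ℕ) [Fact p.Prime] [CharP K p] (x : K)
    (hx : x ^ p = x) : ∃ a : ZMod p, x = ZMod.castHom dvd_rfl K a := by
  classical
  have hp : 1 < p := (Fact.out : p.Prime).one_lt
  have h1 : x ∈ (Finset.univ.image fun a : ZMod p => ZMod.castHom dvd_rfl K a) := by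
    by_contra hcon
    have h2 : (insert x (Finset.univ.image fun a : ZMod p => ZMod.castHom dvd_rfl K a)).card = p + 1 := by
      rw [Finset.card_insert_of_notMem hcon, Finset.card_image_of_injective _
        (ZMod.castHom dvd_rfl K).injective, Finset.card_univ, ZMod.card]
    have h3 : insert x (Finset.univ.image fun a : ZMod p => ZMod.castHom dvd_rfl K a) ⊆
        (Polynomial.X ^ p - Polynomial.X : Polynomial K).roots.toFinset := by
      intro y hy
      rw [Multiset.mem_toFinset, Polynomial.mem_roots (FiniteField.X_pow_card_sub_X_ne_zero K hp),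
        Polynomial.IsRoot, Polynomial.eval_sub, Polynomial.eval_pow, Polynomial.eval_X, sub_eq_zero]
      rcases Finset.mem_insert.1 hy with rfl | hy
      · exact hx
      · obtain ⟨a, -, rfl⟩ := Finset.mem_image.1 hy
        rw [← map_pow, ZMod.pow_card]
    have h4 := Finset.card_le_card h3
    rw [h2] at h4
    have h5 := (Multiset.toFinset_card_le (Polynomial.X ^ p - Polynomial.X : Polynomial K).roots).trans
      (Polynomial.card_roots' _)
    rw [FiniteField.X_pow_card_sub_X_natDegree_eq K hp] at h5
    omega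
  obtain ⟨a, -, ha⟩ := Finset.mem_image.1 h1
  exact ⟨a, ha.symm⟩

theorem no_artin {F N : Type v} [Field F] [Field N] [Algebra F N] [FiniteDimensional F N]
    [IsGalois F N] (p : ℕ) [hp : Fact p.Prime] [CharP F p] (hfin : Module.finrank F N = p)
    (has : ∀ x : F, ∃ y, y ^ p - y = x) : False := by
  classical
  have : CharP N p := charP_of_injective_algebraMap (algebraMap F N).injective p
  have hcard : Nat.card (N ≃ₐ[F] N) = p := (IsGalois.card_aut_eq_finrank F N).trans hfin
  have hcyc : IsCyclic (N ≃ₐ[F] N) := isCyclic_of_prime_card hcard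
  obtain ⟨σ, hσ⟩ := hcyc.exists_generator
  have hord : orderOf σ = p := by
    rw [orderOf_eq_card_of_forall_mem_zpowers hσ, hcard]
  obtain ⟨θ, hθ⟩ := Algebra.trace_surjective F N 1
  have hsum : ∑ i ∈ Finset.range p, (σ ^ i) θ = 1 := by
    have h1 := trace_eq_sum_automorphisms (K := F) (L := N) θ
    rw [hθ, map_one, ← IsCyclic.image_range_orderOf hσ, Finset.sum_image, hord] at h1
    · exact h1.symm
    · intro i hi j hj hij
      rw [Finset.coe_range, mem_Iio] at hi hj
      exact pow_injOn_Iio_orderOf hi hj hij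
  obtain ⟨y, hy⟩ : ∃ y, y = ∑ i ∈ Finset.range p, (i : N) * (σ ^ i) θ := ⟨_, rfl⟩
  have hσp : σ ^ p = 1 := by
    rw [← hord]
    exact pow_orderOf_eq_one σ
  have hσy : σ y = y - 1 := by
    have h1 : σ y = ∑ i ∈ Finset.range p, (i : N) * (σ ^ (i + 1)) θ := by
      rw [hy, map_sum]
      refine Finset.sum_congr rfl fun i _ => ?_
      rw [map_mul, map_natCast, pow_succ']
      rfl
    have h2 : ∑ i ∈ Finset.range (p + 1), (i : N) * (σ ^ i) θ = y := by
      rw [Finset.sum_range_succ, ← hy, CharP.cast_eq_zero, zero_mul, add_zero]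
    have h3 : ∑ i ∈ Finset.range p, ((i : N) + 1) * (σ ^ (i + 1)) θ = y := by
      rw [Finset.sum_range_succ'] at h2
      rw [← h2]
      simp
    have h4 : ∑ i ∈ Finset.range p, (σ ^ (i + 1)) θ = 1 := by
      have h5 := Finset.sum_range_succ' (fun i => (σ ^ i) θ) p
      rw [Finset.sum_range_succ, hσp, pow_zero] at h5
      rw [← hsum]
      exact (add_right_cancel h5).symm
    have h7 : ∑ i ∈ Finset.range p, ((i : N) + 1) * (σ ^ (i + 1)) θ =
        ∑ i ∈ Finset.range p, (i : N) * (σ ^ (i + 1)) θ + ∑ i ∈ Finset.range p, (σ ^ (i + 1)) θ := by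
      rw [← Finset.sum_add_distrib]
      refine Finset.sum_congr rfl fun i _ => ?_
      ring
    have h6 : y = σ y + 1 := by
      rw [h3, ← h1, h4] at h7
      exact h7
    rw [eq_sub_iff_add_eq]
    exact h6.symm
  have hfix : σ (y ^ p - y) = y ^ p - y := by
    rw [map_sub, map_pow, hσy, sub_pow_char, one_pow]
    ring
  have hall : ∀ f : N ≃ₐ[F] N, f (y ^ p - y) = y ^ p - y := by
    intro f
    obtain ⟨n, hn⟩ := (Submonoid.mem_powers_iff _ _).1 ((mem_powers_iff_mem_zpowers).2 (hσ f))
    rw [← hn]
    clear hn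
    induction n with
    | zero => rfl
    | succ n ih =>
      rw [pow_succ]
      show (σ ^ n) (σ (y ^ p - y)) = _
      rw [hfix]
      exact ih
  obtain ⟨a, ha⟩ := (IsGalois.mem_range_algebraMap_iff_fixed (F := F) (y ^ p - y)).2 hall
  obtain ⟨b, hb⟩ := has a
  have hz : (y - algebraMap F N b) ^ p = y - algebraMap F N b := by
    rw [sub_pow_char, sub_eq_sub_iff_sub_eq_sub, ← ha, ← hb, map_sub, map_pow]
  obtain ⟨c, hc⟩ := mem_prime p _ hz
  have h1 : σ (y - algebraMap F N b) = y - algebraMap F N b := by
    rw [hc]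
    exact congrFun (congrArg DFunLike.coe (Subsingleton.elim
      ((σ : N →+* N).comp (ZMod.castHom dvd_rfl N)) (ZMod.castHom dvd_rfl N))) c
  rw [map_sub, hσy, AlgEquiv.commutes] at h1
  have h2 : (1 : N) = 0 := by
    linear_combination -h1
  exact one_ne_zero h2

/-- the cyclotomic extension of prime level `q` has degree less than `q` -/
theorem cyclotomic_lt {F C : Type v} [Field F] [Field C] [Algebra F C]
    (q : ℕ) (hq : q.Prime) [NeZero q] (hqF : (q : F) ≠ 0) [IsCyclotomicExtension {q} F C] :
    Module.finrank F C < q := by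
  have hz := IsCyclotomicExtension.zeta_spec q F C
  have : NeZero ((q : ℕ) : C) := ⟨by
    rw [← map_natCast (algebraMap F C), Ne, map_eq_zero]
    exact hqF⟩
  rw [(hz.powerBasis F).finrank, ← PowerBasis.natDegree_minpoly]
  have hdvd : minpoly F (hz.powerBasis F).gen ∣ Polynomial.cyclotomic q F := by
    apply minpoly.dvd
    rw [IsPrimitiveRoot.powerBasis_gen]
    exact IsCyclotomicExtension.aeval_zeta q F C
  have hle := Polynomial.natDegree_le_of_dvd hdvd (Polynomial.cyclotomic_ne_zero q F)
  rw [Polynomial.natDegree_cyclotomic, Nat.totient_prime hq] at hle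
  have := hq.pos
  omega

theorem not_bad {K : Type v} [Field K] (p : ℕ) [hp : Fact p.Prime] [CharP K p]
    (h : ∀ (L : Type v) [Field L] [Algebra K L] [FiniteDimensional K L] (q : ℕ), q.Prime →
      ∀ x : L, ∃ y, y ^ q = x)
    (h' : ∀ (L : Type v) [Field L] [Algebra K L] [FiniteDimensional K L], ∀ x : L, ∃ y, y ^ p - y = x)
    (q : ℕ) (hq : q.Prime) : ¬ BadPrime K q := by
  induction q using Nat.strong_induction_on with
  | _ q ih =>
    rintro ⟨F, _, _, N, _, _, hKF, hFN, hgal, hfin⟩
    have := hKF
    have := hFN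
    have := hgal
    have : CharP F p := charP_of_injective_algebraMap (algebraMap K F).injective p
    by_cases hqp : q = p
    · subst hqp
      exact no_artin q hfin (h' F)
    have hqF : ((q : ℕ) : F) ≠ 0 := by
      intro h0
      rw [CharP.cast_eq_zero_iff F p] at h0
      exact hqp ((Nat.prime_dvd_prime_iff_eq hp.out hq).1 h0).symm
    by_cases hz : ∃ z : F, IsPrimitiveRoot z q
    · obtain ⟨z, hz⟩ := hz
      exact no_kummer q hq hfin (h F q hq) z hz
    · have : NeZero q := ⟨hq.ne_zero⟩
      have : NeZero ((q : ℕ) : F) := ⟨hqF⟩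
      let C : Type v := CyclotomicField q F
      have : IsCyclotomicExtension {q} F C := CyclotomicField.isCyclotomicExtension q F
      have : FiniteDimensional F C := IsCyclotomicExtension.finiteDimensional {q} F C
      have : IsGalois F C := IsCyclotomicExtension.isGalois {q} F C
      have hlt := cyclotomic_lt (F := F) (C := C) q hq hqF
      have hne : Module.finrank F C ≠ 1 := by
        intro h1
        have hbot : (⊥ : Subalgebra F C) = ⊤ := Subalgebra.bot_eq_top_of_finrank_eq_one h1
        have hmem : IsCyclotomicExtension.zeta q F C ∈ (⊥ : Subalgebra F C) := by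
          rw [hbot]
          exact Algebra.mem_top
        obtain ⟨z, hz'⟩ := Algebra.mem_bot.mp hmem
        have hzs := IsCyclotomicExtension.zeta_spec q F C
        rw [← hz'] at hzs
        exact hz ⟨z, hzs.of_map_of_injective (algebraMap F C).injective⟩
      obtain ⟨r, hr, hrd⟩ := Nat.exists_prime_and_dvd hne
      have hpos : 0 < Module.finrank F C := Module.finrank_pos
      have hple : r ≤ Module.finrank F C := Nat.le_of_dvd hpos hrd
      exact ih r (lt_of_le_of_lt hple hlt) hr (bad_of_galois r hr hrd)

theorem isAlgClosed_of_calc {K : Type v} [Field K] [Infinite K] (p : ℕ) [hp : Fact p.Prime]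
    [CharP K p] (𝓓 : Calc K) [RC 𝓓] : IsAlgClosed K := by
  have hE1 : ∀ (L : Type v) [Field L] [Algebra K L] [FiniteDimensional K L] (q : ℕ), q.Prime →
      ∀ x : L, ∃ y, y ^ q = x := by
    intro L _ _ _ q hq x
    obtain ⟨𝓔, h𝓔⟩ := exists_calc_fin (K := K) (L := L) 𝓓
    have : Infinite L := Infinite.of_injective _ (algebraMap K L).injective
    exact root_of_calc 𝓔 q hq x
  have hE2 : ∀ (L : Type v) [Field L] [Algebra K L] [FiniteDimensional K L], ∀ x : L,
      ∃ y, y ^ p - y = x := by
    intro L _ _ _ x
    obtain ⟨𝓔, h𝓔⟩ := exists_calc_fin (K := K) (L := L) 𝓓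
    have : CharP L p := charP_of_injective_algebraMap (algebraMap K L).injective p
    have : Infinite L := Infinite.of_injective _ (algebraMap K L).injective
    exact as_of_calc 𝓔 p x
  have : PerfectRing K p := PerfectRing.ofSurjective K p fun x => by
    obtain ⟨y, hy⟩ := root_of_calc 𝓓 p hp.out x
    exact ⟨y, hy⟩
  have hperf : PerfectField K := PerfectRing.toPerfectField K p
  apply IsAlgClosed.of_exists_root
  intro P _ hirr
  by_contra hno
  have hg : IsGalois K P.SplittingField :=
    IsGalois.of_separable_splitting_field (p := P) (PerfectField.separable_of_irreducible hirr)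
  have h1 : Module.finrank K P.SplittingField ≠ 1 := by
    intro h1
    have hbt : (⊥ : Subalgebra K P.SplittingField) = ⊤ :=
      Subalgebra.bot_eq_top_of_finrank_eq_one h1
    have hdeg : (P.map (algebraMap K P.SplittingField)).degree ≠ 0 := by
      rw [Polynomial.degree_map]
      exact (Polynomial.degree_pos_of_irreducible hirr).ne'
    obtain ⟨a, ha⟩ := (Polynomial.SplittingField.splits P).exists_eval_eq_zero hdeg
    have ha2 : a ∈ (⊥ : Subalgebra K P.SplittingField) := by
      rw [hbt]
      exact Algebra.mem_top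
    obtain ⟨b, hb⟩ := Algebra.mem_bot.mp ha2
    apply hno
    refine ⟨b, ?_⟩
    rw [← hb, Polynomial.eval_map_algebraMap, Polynomial.aeval_algebraMap_apply] at ha
    have h2 := (FaithfulSMul.algebraMap_injective K P.SplittingField) (ha.trans (map_zero _).symm)
    rw [Polynomial.coe_aeval_eq_eval] at h2
    exact h2
  obtain ⟨q, hq, hdvd⟩ := Nat.exists_prime_and_dvd h1
  exact not_bad p hE1 hE2 q hq (bad_of_galois (F := K) q hq hdvd)

end VRR
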