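import Pool.Agent.VRR.Pur
import Pool.Agent.VRR.DivC
import Pool.Agent.VRR.Gal
import Pool.Agent.VCR.Fin

/-!
# VRR-Dcp: reduced rings of positive characteristic with a calculus

Such a ring is a finite product of algebraically closed fields times a ring with an identity `x ^ N = x`, `2 ≤ N`.
-/

open Set VCR

namespace VRR

universe v

private theorem spm {S : Type v} [Ring S] {h : S} (hh : h * h = h) (hc : ∀ r, h * r = r * h) (x y : S) :
    h * (x * y) * h = h * x * h * (h * y * h) := by
  symm
  calc h * x * h * (h * y * h) = h * x * (h * h) * y * h := by simp only [mul_assoc]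
    _ = h * (x * h) * y * h := by rw [hh, mul_assoc h x h]
    _ = h * h * x * y * h := by rw [← hc x, mul_assoc h h x]
    _ = h * (x * y) * h := by rw [hh]; simp only [mul_assoc]

/-- splitting a ring by a central idempotent -/
theorem split_idem {S : Type v} [Ring S] (h : S) (hh : h * h = h) (hc : ∀ r, h * r = r * h) :
    ∃ (A B : Type v) (_ : Ring A) (_ : Ring B) (e : S ≃+* A × B), e h = (1, 0) := by
  have h1 : (1 - h) * (1 - h) = 1 - h := by
    rw [mul_sub, mul_one, sub_mul, one_mul, hh, sub_self, sub_zero]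
  have hc1 : ∀ r, (1 - h) * r = r * (1 - h) := by
    intro r
    rw [sub_mul, mul_sub, one_mul, mul_one, hc r]
  have hz : h * (1 - h) = 0 := by rw [mul_sub, mul_one, hh, sub_self]
  have hz' : (1 - h) * h = 0 := by rw [hc1, hz]
  have hi : IsIdempotentElem h := hh
  have hi1 : IsIdempotentElem (1 - h) := h1
  refine ⟨hi.Corner, hi1.Corner, inferInstance, inferInstance, ?_, ?_⟩
  · refine
      { toFun := fun x => (⟨h * x * h, ⟨x, rfl⟩⟩, ⟨(1 - h) * x * (1 - h), ⟨x, rfl⟩⟩)
        invFun := fun p => p.1.1 + p.2.1
        left_inv := ?_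
        right_inv := ?_
        map_mul' := ?_
        map_add' := ?_ }
    · intro x
      show h * x * h + (1 - h) * x * (1 - h) = x
      rw [hc x, mul_assoc x h h, hh, hc1 x, mul_assoc x (1 - h) (1 - h), h1, ← mul_add,
        add_sub_cancel, mul_one]
    · rintro ⟨⟨a, ha⟩, ⟨b, hb⟩⟩
      have ha' := (Subsemigroup.mem_corner_iff hi).mp ha
      have hb' := (Subsemigroup.mem_corner_iff hi1).mp hb
      have h3 : h * b = 0 := by rw [← hb'.1, ← mul_assoc, hz, zero_mul]
      have h4 : (1 - h) * a = 0 := by rw [← ha'.1, ← mul_assoc, hz', zero_mul]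
      refine Prod.ext (Subtype.ext ?_) (Subtype.ext ?_)
      · show h * (a + b) * h = a
        rw [mul_add, h3, add_zero, ha'.1, ha'.2]
      · show (1 - h) * (a + b) * (1 - h) = b
        rw [mul_add, h4, zero_add, hb'.1, hb'.2]
    · intro x y
      refine Prod.ext (Subtype.ext ?_) (Subtype.ext ?_)
      · show h * (x * y) * h = h * x * h * (h * y * h)
        exact spm hh hc x y
      · show (1 - h) * (x * y) * (1 - h) = (1 - h) * x * (1 - h) * ((1 - h) * y * (1 - h))
        exact spm h1 hc1 x y
    · intro x y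
      refine Prod.ext (Subtype.ext ?_) (Subtype.ext ?_)
      · show h * (x + y) * h = h * x * h + h * y * h
        rw [mul_add, add_mul]
      · show (1 - h) * (x + y) * (1 - h) = (1 - h) * x * (1 - h) + (1 - h) * y * (1 - h)
        rw [mul_add, add_mul]
  · refine Prod.ext (Subtype.ext ?_) (Subtype.ext ?_)
    · show h * h * h = h
      rw [hh, hh]
    · show (1 - h) * h * (1 - h) = 0
      rw [hz', zero_mul]

/-- one factor of a finite product of division rings, inside a reduced ring with a calculus -/
private theorem factor {S : Type v} [Ring S] (𝓓 : Calc S) [RC 𝓓] (M : ℕ) (hM0 : M ≠ 0)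
    (hM : (M : S) = 0) (D : Type v) [DivisionRing D] (f : S →+* D) (hf : Function.Surjective f) (c : S)
    (hc : ∀ x, f x = 0 ↔ x * c = 0) (hcn : ∀ x, c * x = x * c)
    (hP : ∀ k, ¬ Pm k c) :
    ∃ h : ∀ a b : D, a * b = b * a,
      @IsAlgClosed D { (inferInstance : DivisionRing D) with mul_comm := h } := by
  obtain ⟨𝓔, h𝓔⟩ := exists_calc_factor 𝓓 f hf c hc
  have hMD : (M : D) = 0 := by rw [← map_natCast f, hM, map_zero]
  obtain ⟨p, hp⟩ := CharP.exists D
  have hp' : p.Prime := by
    rcases CharP.char_is_prime_or_zero D p with h | h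
    · exact h
    · exfalso
      subst h
      have := CharP.charP_to_charZero D
      exact hM0 (by exact_mod_cast hMD)
  haveI : Fact p.Prime := ⟨hp'⟩
  have hcomm : ∀ a b : D, a * b = b * a := comm_of_calc p 𝓔
  letI F : Field D := { (inferInstance : DivisionRing D) with mul_comm := hcomm }
  have hinf : Infinite D := by
    by_contra hfin
    rw [not_infinite_iff_finite] at hfin
    haveI := Fintype.ofFinite D
    apply hP (Fintype.card D - 1)
    intro x
    have h1 : f (x ^ ((Fintype.card D - 1).factorial + 1) - x) = 0 := by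
      have h2 : ∀ z : D, z ^ ((Fintype.card D - 1).factorial + 1) = z := by
        intro z
        by_cases hz : z = 0
        · rw [hz, zero_pow (by omega)]
        · have h3 := FiniteField.pow_card_sub_one_eq_one z hz
          have h4 : Fintype.card D - 1 ∣ (Fintype.card D - 1).factorial :=
            Nat.dvd_factorial (by have := Fintype.one_lt_card (α := D); omega) le_rfl
          obtain ⟨k, hk⟩ := h4
          rw [hk, pow_succ, pow_mul, h3, one_pow, one_mul]
      rw [map_sub, map_pow, h2, sub_self]
    rw [hc, sub_mul, sub_eq_zero] at h1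
    rw [hcn, h1, hcn]
  refine ⟨hcomm, ?_⟩
  exact isAlgClosed_of_calc (K := D) p 𝓔

theorem exists_dcp {S : Type v} [Ring S] (𝓓 : Calc S) [RC 𝓓] (hred : ∀ x : S, x * x = 0 → x = 0)
    (M : ℕ) (hM0 : M ≠ 0) (hM : (M : S) = 0) :
    ∃ (n N : ℕ) (K : Fin n → Type v) (_ : ∀ i, Field (K i)) (B : Type v) (_ : Ring B), 2 ≤ N ∧
      (∀ i, IsAlgClosed (K i)) ∧ (∀ x : B, x ^ N = x) ∧ Nonempty (S ≃+* (∀ i, K i) × B) := by
  have hreg0 := exists_reg 𝓓 hred
  have hreg := reg_comm hred hreg0
  have hcen := idem_central hred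
  obtain ⟨h, m, n, hh, hPm, hpure, hbd⟩ := exists_pure 𝓓 hcen hreg
  obtain ⟨A, B, _, _, e, he⟩ := split_idem h hh (hcen h hh)
  have e1 : ∀ a : A, e (e.symm (a, 0) * h) = (a, 0) := by
    intro a
    rw [map_mul, RingEquiv.apply_symm_apply, he, Prod.mk_mul_mk, mul_one, mul_zero]
  have hA1 : ∀ a b : A, e.symm (a, 0) * e.symm (b, 0) = e.symm (a * b, 0) := by
    intro a b
    rw [← map_mul, Prod.mk_mul_mk, mul_zero]
  have hAh : ∀ a : A, e.symm (a, 0) * h = e.symm (a, 0) := by
    intro a
    apply e.injective
    rw [e1, RingEquiv.apply_symm_apply]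
  have hA0 : ∀ a : A, e.symm (a, 0) = 0 → a = 0 := by
    intro a ha
    have h1 := congrArg e ha
    rw [RingEquiv.apply_symm_apply, map_zero] at h1
    exact congrArg Prod.fst h1
  have hredA : ∀ x : A, x * x = 0 → x = 0 := by
    intro x hx
    apply hA0
    apply hred
    rw [hA1, hx]
    exact map_zero e.symm
  have hcenA := idem_central hredA
  have hregA : ∀ r : A, ∃ x, r * x * r = r ∧ r * x = x * r := by
    intro r
    obtain ⟨x, hx1, hx2⟩ := hreg (e.symm (r, 0))
    refine ⟨(e x).1, ?_, ?_⟩
    · have h1 := congrArg (fun z => (e z).1) hx1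
      simpa using h1
    · have h1 := congrArg (fun z => (e z).1) hx2
      simpa using h1
  obtain ⟨k, D, _, ⟨e₀⟩⟩ := exists_decomp hcenA hregA n (fun k c hc hne =>
    hbd k (fun i => e.symm (c i, 0)) (fun i => ⟨by rw [hA1, (hc.idem i).eq], fun h0 => hne i (hA0 _ h0),
      hAh _⟩) (fun i j hij => by rw [hA1, hc.ortho hij]; exact map_zero e.symm))
  have key : ∀ i, ∃ h : ∀ a b : D i, a * b = b * a,
      @IsAlgClosed (D i) { (inferInstance : DivisionRing (D i)) with mul_comm := h } := by
    intro i
    refine factor 𝓓 M hM0 hM (D i)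
      (((Pi.evalRingHom D i).comp e₀.toRingHom).comp ((RingHom.fst A B).comp e.toRingHom))
      (fun x => ⟨e.symm (e₀.symm (Pi.single i x), 0), by simp⟩) (e.symm (e₀.symm (Pi.single i 1), 0))
      (fun x => ?_) (fun x => ?_) (hpure _ ?_ (hAh _) (fun h0 => ?_))
    · constructor
      · intro hx
        have hx' : e₀ (e x).1 i = 0 := hx
        apply e.injective
        rw [map_mul, RingEquiv.apply_symm_apply, map_zero]
        refine Prod.ext ?_ (by simp)
        apply e₀.injective
        rw [Prod.fst_mul, map_mul, RingEquiv.apply_symm_apply, Prod.fst_zero, map_zero]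
        ext l
        by_cases hl : l = i
        · subst hl; simp [hx']
        · simp [Pi.single_eq_of_ne hl]
      · intro hx
        have h1 := congrArg (fun z => e₀ (e z).1 i) hx
        simpa using h1
    · apply e.injective
      rw [map_mul, map_mul, RingEquiv.apply_symm_apply]
      refine Prod.ext ?_ (by simp)
      apply e₀.injective
      rw [Prod.fst_mul, Prod.fst_mul, map_mul, map_mul, RingEquiv.apply_symm_apply]
      ext l
      by_cases hl : l = i
      · subst hl; simp
      · simp [Pi.single_eq_of_ne hl]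
    · rw [hA1, ← map_mul, ← Pi.single_mul, mul_one]
    · have h1 := hA0 _ h0
      rw [map_eq_zero_iff _ e₀.symm.injective] at h1
      have h2 := congrFun h1 i
      simp at h2
  choose hcm hac using key
  refine ⟨k, m.factorial + 1, D, fun i => { (inferInstance : DivisionRing (D i)) with mul_comm := hcm i },
    B, inferInstance, ?_, hac, fun y => ?_, ?_⟩
  · have := m.factorial_pos
    omega
  · have h1 := congrArg (fun z => (e z).2) (hPm (e.symm (0, y)))
    have h2 : e (1 - h) = (0, 1) := by
      rw [map_sub, map_one, he]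
      ext <;> simp
    simp only [map_mul, map_pow, h2, RingEquiv.apply_symm_apply, Prod.snd_mul, Prod.pow_snd,
      one_mul] at h1
    exact h1
  · exact ⟨e.trans (RingEquiv.prodCongr e₀ (RingEquiv.refl B))⟩

end VRR
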