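import Mathlib

/-!
# VRR-DivA: finite subrings of division rings; eigenvectors of inner derivations (Herstein)
-/

open Set Polynomial

namespace VRR

universe v

/-- the subring generated by a finite multiplicatively closed set is finite in characteristic `p` -/
theorem finite_closure {D : Type v} [Ring D] (p : ℕ) [Fact p.Prime] [CharP D p] (s : Set D)
    (hs : s.Finite) (h1 : 1 ∈ s) (hmul : ∀ a ∈ s, ∀ b ∈ s, a * b ∈ s) :
    (Subring.closure s : Set D).Finite := by
  letI := ZMod.algebra D p
  have hW : (Submodule.span (ZMod p) s : Set D).Finite := by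
    have : Module.Finite (ZMod p) (Submodule.span (ZMod p) s) := Module.Finite.span_of_finite _ hs
    have : Finite (Submodule.span (ZMod p) s) := Module.finite_of_finite (ZMod p)
    exact Set.toFinite _
  refine hW.subset ?_
  have hmulW : ∀ a ∈ Submodule.span (ZMod p) s, ∀ b ∈ Submodule.span (ZMod p) s,
      a * b ∈ Submodule.span (ZMod p) s := by
    intro a ha b hb
    have h2 : a * b ∈ Submodule.span (ZMod p) s * Submodule.span (ZMod p) s :=
      Submodule.mul_mem_mul ha hb
    rw [Submodule.span_mul_span] at h2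
    refine Submodule.span_mono ?_ h2
    rintro _ ⟨x, hx, y, hy, rfl⟩
    exact hmul x hx y hy
  let R : Subring D :=
    { carrier := Submodule.span (ZMod p) s
      mul_mem' := fun {a b} ha hb => hmulW a ha b hb
      one_mem' := Submodule.subset_span h1
      add_mem' := fun {a b} ha hb => Submodule.add_mem _ ha hb
      zero_mem' := Submodule.zero_mem _
      neg_mem' := fun {a} ha => Submodule.neg_mem _ ha }
  have h3 : Subring.closure s ≤ R := by
    rw [Subring.closure_le]
    exact Submodule.subset_span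
  exact h3

theorem inv_mem_of_finite {D : Type v} [DivisionRing D] (S : Subring D) (hS : (S : Set D).Finite)
    (a : D) (ha : a ∈ S) : a⁻¹ ∈ S := by
  by_cases h0 : a = 0
  · rw [h0, inv_zero]
    exact S.zero_mem
  have : Finite S := hS.to_subtype
  have hinj : Function.Injective fun x : S => (⟨a * x, S.mul_mem ha x.2⟩ : S) := by
    intro x y hxy
    have h1 : a * (x : D) = a * y := congrArg Subtype.val hxy
    exact Subtype.ext (mul_left_cancel₀ h0 h1)
  obtain ⟨x, hx⟩ := (Finite.injective_iff_surjective.1 hinj) 1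
  have h1 : a * (x : D) = 1 := congrArg Subtype.val hx
  rw [← eq_inv_of_mul_eq_one_right h1]
  exact x.2

/-- a finite subring of a division ring is a division ring -/
def finSub {D : Type v} [DivisionRing D] (S : Subring D) (hS : (S : Set D).Finite) : Subfield D :=
  { S with inv_mem' := inv_mem_of_finite S hS }

theorem finSub_comm {D : Type v} [DivisionRing D] (S : Subring D) (hS : (S : Set D).Finite)
    (a b : D) (ha : a ∈ S) (hb : b ∈ S) : a * b = b * a := by
  have : Finite (finSub S hS) := hS.to_subtype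
  have h : (⟨a, ha⟩ : finSub S hS) * ⟨b, hb⟩ = ⟨b, hb⟩ * ⟨a, ha⟩ := by
    exact @mul_comm _ (littleWedderburn (finSub S hS)).toCommRing.toCommMagma _ _
  exact congrArg Subtype.val h

private theorem eig_list {D : Type v} [DivisionRing D] {k : Type v} [Field k]
    (L : k →+* AddMonoid.End D) (T : AddMonoid.End D) (hc : ∀ a, Commute (L a) T) (s : Multiset k) :
    ∀ u : D, u ≠ 0 → (eval₂RingHom' L T hc (s.map fun a => X - C a).prod) u = 0 →
      ∃ a ∈ s, ∃ w, w ≠ 0 ∧ T w = L a w := by
  induction s using Multiset.induction_on with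
  | empty =>
    intro u hu h
    rw [Multiset.map_zero, Multiset.prod_zero, map_one] at h
    exact absurd h hu
  | cons a s ih =>
    intro u hu h
    rw [Multiset.map_cons, Multiset.prod_cons, mul_comm, map_mul] at h
    have h' : (eval₂RingHom' L T hc (s.map fun a => X - C a).prod)
      ((eval₂RingHom' L T hc (X - C a)) u) = 0 := h
    have hv : (eval₂RingHom' L T hc (X - C a)) u = T u - L a u := by
      rw [map_sub]
      have e1 : eval₂RingHom' L T hc X = T := eval₂_X L T
      have e2 : eval₂RingHom' L T hc (C a) = L a := eval₂_C L T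
      rw [e1, e2]
      rfl
    rw [hv] at h'
    by_cases h0 : T u - L a u = 0
    · exact ⟨a, Multiset.mem_cons_self a s, u, hu, sub_eq_zero.1 h0⟩
    · obtain ⟨b, hb, w, hw, hw'⟩ := ih _ h0 h'
      exact ⟨b, Multiset.mem_cons_of_mem hb, w, hw, hw'⟩

/-- Herstein: an element `y` of finite order which is not central has an eigenvector -/
theorem exists_eigen {D : Type v} [DivisionRing D] (p : ℕ) [hp : Fact p.Prime] [CharP D p] (y : D)
    (n : ℕ) (hn : 0 < n) (hy : y ^ n = 1) (hnc : ∃ x, y * x ≠ x * y) :
    (Subring.closure {y} : Set D).Finite ∧ ∃ a ∈ Subring.closure ({y} : Set D), a ≠ 0 ∧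
      ∃ b, b ≠ 0 ∧ y * b - b * y = a * b := by
  classical
  have hfin : (Subring.closure {y} : Set D).Finite := by
    have h1 : (Subring.closure (Set.range fun i : Fin n => y ^ (i : ℕ)) : Set D).Finite := by
      refine finite_closure p _ (Set.finite_range _) ⟨⟨0, hn⟩, pow_zero y⟩ ?_
      rintro _ ⟨i, rfl⟩ _ ⟨j, rfl⟩
      refine ⟨⟨((i : ℕ) + j) % n, Nat.mod_lt _ hn⟩, ?_⟩
      show y ^ (((i : ℕ) + j) % n) = y ^ (i : ℕ) * y ^ (j : ℕ)
      rw [← pow_add]
      conv_rhs => rw [← Nat.mod_add_div ((i : ℕ) + j) n, pow_add, pow_mul, hy, one_pow, mul_one]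
    refine h1.subset ?_
    rw [SetLike.coe_subset_coe, Subring.closure_le]
    refine Set.singleton_subset_iff.2 ?_
    have h2 : y ^ (((1 : ℕ) % n)) = y := by
      conv_rhs => rw [← pow_one y, ← Nat.mod_add_div 1 n, pow_add, pow_mul, hy, one_pow, mul_one]
    have h3 : y ^ (1 % n) ∈ Subring.closure (Set.range fun i : Fin n => y ^ (i : ℕ)) :=
      Subring.subset_closure ⟨⟨1 % n, Nat.mod_lt _ hn⟩, rfl⟩
    rw [h2] at h3
    exact h3
  refine ⟨hfin, ?_⟩
  obtain ⟨k, hk⟩ : ∃ k, k = finSub (Subring.closure {y}) hfin := ⟨_, rfl⟩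
  have hmem : ∀ z, z ∈ k ↔ z ∈ Subring.closure ({y} : Set D) := fun z => by rw [hk]; rfl
  have hyk : y ∈ k := (hmem y).2 (Subring.subset_closure rfl)
  have : Finite k := by
    have h1 : (k : Set D).Finite := by
      refine hfin.subset fun z hz => (hmem z).1 hz
    exact h1.to_subtype
  have : Fintype k := Fintype.ofFinite k
  have hchar : CharP k p := RingHom.charP k.subtype k.subtype.injective p
  letI : Field k := littleWedderburn k
  obtain ⟨L, hL⟩ : ∃ L : k →+* AddMonoid.End D, ∀ (a : k) (x : D), L a x = (a : D) * x :=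
    ⟨(Module.toAddMonoidEnd D D).comp k.subtype, fun a x => rfl⟩
  obtain ⟨A, hA⟩ : ∃ A : AddMonoid.End D, ∀ x, A x = y * x := ⟨AddMonoidHom.mulLeft y, fun x => rfl⟩
  obtain ⟨B, hB⟩ : ∃ B : AddMonoid.End D, ∀ x, B x = x * y := ⟨AddMonoidHom.mulRight y, fun x => rfl⟩
  have hAB : Commute A B := by
    refine AddMonoidHom.ext fun x => ?_
    show A (B x) = B (A x)
    rw [hA, hB, hB, hA, mul_assoc]
  have hTv : ∀ x, (A - B) x = y * x - x * y := fun x => by
    show A x - B x = _
    rw [hA, hB]
  have hc : ∀ a, Commute (L a) (A - B) := by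
    intro a
    refine AddMonoidHom.ext fun x => ?_
    show L a ((A - B) x) = (A - B) (L a x)
    rw [hTv, hTv, hL, hL, mul_sub]
    have h1 : (a : D) * y = y * (a : D) :=
      finSub_comm _ hfin _ _ ((hmem _).1 a.2) ((hmem _).1 hyk)
    rw [← mul_assoc, h1, mul_assoc, mul_assoc]
  have hAn : ∀ (m : ℕ) x, (A ^ m) x = y ^ m * x := by
    intro m
    induction m with
    | zero =>
      intro x
      rw [pow_zero, pow_zero, one_mul]
      rfl
    | succ m ih =>
      intro x
      rw [pow_succ, pow_succ]
      show (A ^ m) (A x) = _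
      rw [ih, hA, mul_assoc]
  have hBn : ∀ (m : ℕ) x, (B ^ m) x = x * y ^ m := by
    intro m
    induction m with
    | zero =>
      intro x
      rw [pow_zero, pow_zero, mul_one]
      rfl
    | succ m ih =>
      intro x
      rw [pow_succ, pow_succ']
      show (B ^ m) (B x) = _
      rw [ih, hB, mul_assoc]
  obtain ⟨m, -, hm⟩ := FiniteField.card k p
  have hyq : y ^ Fintype.card k = y := by
    have h1 : (⟨y, hyk⟩ : k) ^ Fintype.card k = ⟨y, hyk⟩ := FiniteField.pow_card _
    exact congrArg Subtype.val h1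
  have hcE : CharP (AddMonoid.End D) p :=
    charP_of_injective_ringHom (f := Module.toAddMonoidEnd D D) (fun a b hab => by
      have h1 := congrArg (fun f : AddMonoid.End D => f 1) hab
      have h2 : a * 1 = b * 1 := h1
      rwa [mul_one, mul_one] at h2) p
  have hTq : (A - B) ^ Fintype.card k = A - B := by
    have h1 : (A - B) ^ Fintype.card k = A ^ Fintype.card k - B ^ Fintype.card k := by
      rw [hm]
      exact sub_pow_char_pow_of_commute _ _ hAB
    rw [h1]
    refine AddMonoidHom.ext fun x => ?_
    show (A ^ Fintype.card k) x - (B ^ Fintype.card k) x = A x - B x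
    rw [hAn, hBn, hyq, hA, hB]
  have hpoly : (Multiset.map (fun a : k => X - C a) Finset.univ.val).prod =
      (X ^ Fintype.card k - X : k[X]) := by
    rw [← FiniteField.roots_X_pow_card_sub_X k]
    refine prod_multiset_X_sub_C_of_monic_of_roots_card_eq ?_ ?_
    · exact monic_X_pow_sub (by rw [degree_X]; exact_mod_cast Fintype.one_lt_card)
    · rw [FiniteField.roots_X_pow_card_sub_X, FiniteField.X_pow_card_sub_X_natDegree_eq k
        Fintype.one_lt_card]
      rfl
  have hzero : eval₂RingHom' L (A - B) hc (X ^ Fintype.card k - X) = 0 := by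
    have e1 : eval₂RingHom' L (A - B) hc X = A - B := eval₂_X L (A - B)
    rw [map_sub, map_pow, e1, hTq, sub_self]
  obtain ⟨x, hx⟩ := hnc
  have huniv : (Finset.univ : Finset k).val = 0 ::ₘ (Finset.univ.erase (0 : k)).val := by
    rw [← Finset.insert_val_of_notMem (Finset.notMem_erase _ _), Finset.insert_erase (Finset.mem_univ _)]
  have h1 : (eval₂RingHom' L (A - B) hc
      (((Finset.univ.erase (0 : k)).val.map fun a => X - C a).prod)) ((A - B) x) = 0 := by
    rw [← hpoly, huniv, Multiset.map_cons, Multiset.prod_cons, mul_comm, map_mul, C_0, sub_zero] at hzero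
    have e1 : eval₂RingHom' L (A - B) hc X = A - B := eval₂_X L (A - B)
    rw [e1] at hzero
    exact congrArg (fun f : AddMonoid.End D => f x) hzero
  obtain ⟨a, ha, w, hw, hw'⟩ := eig_list L (A - B) hc _ _ (by
    rw [hTv]
    exact sub_ne_zero.2 hx) h1
  refine ⟨a, (hmem _).1 a.2, fun h0 => ?_, w, hw, ?_⟩
  · have h2 : a = 0 := Subtype.ext h0
    rw [h2] at ha
    exact Finset.notMem_erase _ _ ha
  · rw [← hTv, hw', hL]

end VRR
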