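import Pool.Agent.VCR.Proj
import Pool.Agent.VCR.Ind
import Pool.Agent.VCR.Rel
import Pool.Agent.VCR.AlgY
import Pool.Agent.VRR.DivA
import Pool.Agent.VRR.Gal

/-!
# VRR-DivB: a division ring of characteristic `p` with a calculus is commutative
-/

open Set VCR

namespace VRR

universe v

theorem exists_calc_cen {D : Type v} [DivisionRing D] (𝓓 : Calc D) [RC 𝓓]
    (x y : D) : ∃ 𝓔 : Calc (Subring.center (cen ({x, y} : Set D))), RC 𝓔 := by
  obtain ⟨𝓔, hle, hx, hy⟩ := exists_adj_two 𝓓 x y
  have : RC 𝓔 := RC.mono hle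
  obtain ⟨𝓔₁, hRC₁, -, -⟩ := exists_calc_inj 𝓔 (cen ({x, y} : Set D)).subtype
    Subtype.val_injective (by
      have : Set.range (cen ({x, y} : Set D)).subtype = {z | x * z = z * x ∧ y * z = z * y} := by
        ext z
        constructor
        · rintro ⟨w, rfl⟩
          exact ⟨w.2 x (by simp), w.2 y (by simp)⟩
        · rintro ⟨h1, h2⟩
          refine ⟨⟨z, fun a ha => ?_⟩, rfl⟩
          rcases ha with rfl | rfl
          · exact h1
          · exact h2
      rw [this]
      ((try unfold DS); (try unfold DF₁); (try unfold DF₂); (try unfold DR₂); repeat' first | assumption | exact Df.var _ | exact Df.zero | exact Df.one | exact Df.natCast _ | (refine DE.app ?_; first | assumption | exact DE.natCast _) | refine Df.add ?_ ?_ | refine Df.mul ?_ ?_ | refine Df.subt ?_ ?_ | refine Df.neg ?_ | refine Df.pow ?_ _ | refine Df.sum _ (fun _ _ => ?_) | (refine DF₁.app (by assumption) ?_) | (refine DF₂.app (by assumption) ?_ ?_) | refine Dp.const _ | refine Dp.not ?_ | refine Dp.eq ?_ ?_ | refine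 Dp.ne ?_ ?_ | refine Dp.and ?_ ?_ | refine Dp.or ?_ ?_ | refine Dp.iff ?_ ?_ | refine Dp.imp ?_ ?_ | (refine DS.app (by assumption) ?_) | (refine DR₂.app (by assumption) ?_ ?_) | refine Dp.isUnit ?_ | refine Dp.ball _ (fun _ _ => ?_) | refine Dp.ex ?_ | refine Dp.all ?_ | refine Dp.allfin (fun _ => ?_) | refine Dp.exfin (fun _ => ?_)))
  have := hRC₁
  obtain ⟨𝓔₂, hRC₂, -, -⟩ := exists_calc_inj 𝓔₁ (Subring.center (cen ({x, y} : Set D))).subtype
    Subtype.val_injective (by
      have : Set.range (Subring.center (cen ({x, y} : Set D))).subtype =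
          {z | ∀ w, w * z = z * w} := by
        ext z
        constructor
        · rintro ⟨w, rfl⟩
          exact Subring.mem_center_iff.1 w.2
        · intro h
          exact ⟨⟨z, Subring.mem_center_iff.2 h⟩, rfl⟩
      rw [this]
      ((try unfold DS); (try unfold DF₁); (try unfold DF₂); (try unfold DR₂); repeat' first | assumption | exact Df.var _ | exact Df.zero | exact Df.one | exact Df.natCast _ | (refine DE.app ?_; first | assumption | exact DE.natCast _) | refine Df.add ?_ ?_ | refine Df.mul ?_ ?_ | refine Df.subt ?_ ?_ | refine Df.neg ?_ | refine Df.pow ?_ _ | refine Df.sum _ (fun _ _ => ?_) | (refine DF₁.app (by assumption) ?_) | (refine DF₂.app (by assumption) ?_ ?_) | refine Dp.const _ | refine Dp.not ?_ | refine Dp.eq ?_ ?_ | refine Dp.ne ?_ ?_ | refine Dp.and ?_ ?_ | refine Dp.or ?_ ?_ | refine Dp.iff ?_ ?_ | refine Dp.imp ?_ ?_ | (refine DS.app (by assumption) ?_) | (refine DR₂.app (by assumption) ?_ ?_) | refine Dp.isUnit ?_ | refine Dp.ball _ (fun _ _ => ?_) | refine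 Dp.ex ?_ | refine Dp.all ?_ | refine Dp.allfin (fun _ => ?_) | refine Dp.exfin (fun _ => ?_)))
  exact ⟨𝓔₂, hRC₂⟩

/-- the inclusion of the centre of the centralizer -/
def iot {D : Type v} [DivisionRing D] (x y : D) : Subring.center (cen ({x, y} : Set D)) →+* D :=
  ((cen ({x, y} : Set D)).subtype).comp (Subring.center (cen ({x, y} : Set D))).subtype

theorem iot_mem {D : Type v} [DivisionRing D] (x y : D) (a) : iot x y a ∈ cen ({x, y} : Set D) :=
  (a : cen ({x, y} : Set D)).2

theorem iot_comm {D : Type v} [DivisionRing D] (x y : D) (a) : Commute (iot x y a) y :=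
  (iot_mem x y a y (by simp)).symm

theorem iot_comm' {D : Type v} [DivisionRing D] (x y : D) (a) (z : D)
    (hz : z ∈ cen ({x, y} : Set D)) : z * iot x y a = iot x y a * z := by
  have h1 := Subring.mem_center_iff.1 a.2 ⟨z, hz⟩
  exact congrArg Subtype.val h1

theorem exists_iot {D : Type v} [DivisionRing D] (x y c : D) (hc : c ∈ cen ({x, y} : Set D))
    (h : ∀ z ∈ cen ({x, y} : Set D), z * c = c * z) : ∃ a, iot x y a = c :=
  ⟨⟨⟨c, hc⟩, Subring.mem_center_iff.2 fun g => Subtype.ext (h g g.2)⟩, rfl⟩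

theorem poly_of_rel {D : Type v} [DivisionRing D] (x y : D) (n : ℕ) (e : Fin n → D) (he : e ≠ 0)
    (hrel : ∀ v ∈ Subring.closure ({x, y} : Set D), ∑ i : Fin n, y ^ (i : ℕ) * v * e i = 0) :
    ∃ P : Polynomial (Subring.center (cen ({x, y} : Set D))), P ≠ 0 ∧
      Polynomial.eval₂RingHom' (iot x y) y (iot_comm x y) P = 0 := by
  classical
  have hxS : x ∈ Subring.closure ({x, y} : Set D) := Subring.subset_closure (by simp)
  have hyS : y ∈ Subring.closure ({x, y} : Set D) := Subring.subset_closure (by simp)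
  obtain ⟨e₁, he₁W, he₁0, he₁c⟩ := min_support (⊤ : Subfield D)
    (Subring.closure ({x, y} : Set D) : Set D)
    {e | ∀ v ∈ Subring.closure ({x, y} : Set D), ∑ i : Fin n, y ^ (i : ℕ) * v * e i = 0}
    (fun e _ i => Subfield.mem_top _)
    (fun e he c _ v hv => by
      have := congrArg (· * c) (he v hv)
      simp only [Finset.sum_mul, zero_mul, mul_assoc] at this
      simpa only [mul_assoc] using this)
    (fun e he a ha v hv => by
      have h1 := he (v * a) (Subring.mul_mem _ hv ha)
      have h2 := congrArg (· * a) (he v hv)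
      simp only [Finset.sum_mul, zero_mul] at h2
      have h3 : ∀ i : Fin n, y ^ (i : ℕ) * v * (a * e i - e i * a) =
          y ^ (i : ℕ) * (v * a) * e i - y ^ (i : ℕ) * v * e i * a := fun i => by
        simp only [mul_sub, mul_assoc]
      rw [Finset.sum_congr rfl fun i _ => h3 i, Finset.sum_sub_distrib, h1, h2, sub_zero])
    e hrel he
  have he₁E : ∀ i, e₁ i ∈ cen ({x, y} : Set D) := by
    intro i a ha
    rcases ha with rfl | rfl
    · exact he₁c i _ hxS
    · exact he₁c i _ hyS
  have he₁s : ∑ i : Fin n, y ^ (i : ℕ) * e₁ i = 0 := by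
    have := he₁W 1 (Subring.one_mem _)
    simpa using this
  have hyE : ∀ a ∈ cen ({x, y} : Set D), Commute a y := fun a ha => (ha y (by simp)).symm
  obtain ⟨e₂, he₂W, he₂0, he₂c⟩ := min_support (cen ({x, y} : Set D))
    (cen ({x, y} : Set D) : Set D)
    {e | (∀ i, e i ∈ cen ({x, y} : Set D)) ∧ ∑ i : Fin n, y ^ (i : ℕ) * e i = 0}
    (fun e he i => he.1 i)
    (fun e he c hc => ⟨fun i => mul_mem (he.1 i) hc, by
      have := congrArg (· * c) he.2
      simp only [Finset.sum_mul, zero_mul, mul_assoc] at this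
      exact this⟩)
    (fun e he a ha => ⟨fun i => sub_mem (mul_mem ha (he.1 i)) (mul_mem (he.1 i) ha), by
      have h1 := congrArg (a * ·) he.2
      simp only [Finset.mul_sum, mul_zero] at h1
      have h2 := congrArg (· * a) he.2
      simp only [Finset.sum_mul, zero_mul] at h2
      have h3 : ∀ i : Fin n, y ^ (i : ℕ) * (a * e i - e i * a) =
          a * (y ^ (i : ℕ) * e i) - y ^ (i : ℕ) * e i * a := fun i => by
        have hay : a * y ^ (i : ℕ) = y ^ (i : ℕ) * a := ((hyE a ha).pow_right _).eq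
        rw [mul_sub, ← mul_assoc, ← mul_assoc, ← mul_assoc, hay]
      rw [Finset.sum_congr rfl fun i _ => h3 i, Finset.sum_sub_distrib, h1, h2, sub_zero]⟩)
    e₁ ⟨he₁E, he₁s⟩ he₁0
  let F := Subring.center (cen ({x, y} : Set D))
  let ι : F →+* D := iot x y
  have hιmem : ∀ a : F, ι a ∈ cen ({x, y} : Set D) := fun a => (a : cen ({x, y} : Set D)).2
  have hc : ∀ a, Commute (ι a) y := fun a => hyE _ (hιmem a)
  have hcen : ∀ i, (⟨e₂ i, he₂W.1 i⟩ : cen ({x, y} : Set D)) ∈ F := by
    intro i
    rw [Subring.mem_center_iff]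
    intro g
    exact Subtype.ext (he₂c i g g.2)
  let c : Fin n → F := fun i => ⟨⟨e₂ i, he₂W.1 i⟩, hcen i⟩
  have hιc : ∀ i, ι (c i) = e₂ i := fun i => rfl
  let p : Polynomial F := ∑ i : Fin n, Polynomial.monomial (i : ℕ) (c i)
  have hp0 : p ≠ 0 := by
    intro hp
    obtain ⟨m, hm⟩ : ∃ m, e₂ m ≠ 0 := by
      by_contra hcon
      push Not at hcon
      exact he₂0 (funext hcon)
    have h1 : p.coeff (m : ℕ) = c m := by
      simp only [p, Polynomial.finset_sum_coeff, Polynomial.coeff_monomial]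
      rw [Finset.sum_eq_single m]
      · simp
      · intro b _ hb
        rw [if_neg]
        intro h
        exact hb (Fin.ext h)
      · intro h
        exact absurd (Finset.mem_univ _) h
    rw [hp, Polynomial.coeff_zero] at h1
    apply hm
    rw [← hιc m, ← h1, map_zero]
  have hφ : Polynomial.eval₂RingHom' ι y hc p = 0 := by
    have h1 : ∀ i : Fin n, Polynomial.eval₂RingHom' ι y hc (Polynomial.monomial (i : ℕ) (c i)) =
        y ^ (i : ℕ) * e₂ i := fun i => by
      have h2 : Polynomial.eval₂RingHom' ι y hc (Polynomial.monomial (i : ℕ) (c i)) =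
          ι (c i) * y ^ (i : ℕ) := Polynomial.eval₂_monomial ι y
      rw [h2, ((hc (c i)).pow_right _).eq, hιc]
    rw [map_sum, Finset.sum_congr rfl fun i _ => h1 i]
    exact he₂W.2
  exact ⟨p, hp0, hφ⟩

/-- a root of a nonzero polynomial over a finite field has finite order -/
theorem order_of_root {F D : Type v} [Field F] [Finite F] [DivisionRing D] (ι : F →+* D) (y : D)
    (hy : y ≠ 0) (hc : ∀ a, Commute (ι a) y) (P : Polynomial F) (hP : P ≠ 0)
    (h : Polynomial.eval₂RingHom' ι y hc P = 0) : ∃ n : ℕ, 0 < n ∧ y ^ n = 1 := by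
  classical
  obtain ⟨Q, hQ⟩ : ∃ Q : Polynomial F, Q = P * Polynomial.C P.leadingCoeff⁻¹ := ⟨_, rfl⟩
  have hQm : Q.Monic := by
    rw [hQ]
    exact Polynomial.monic_mul_leadingCoeff_inv hP
  have hQ0 : Polynomial.eval₂RingHom' ι y hc Q = 0 := by
    rw [hQ, map_mul, h, zero_mul]
  have hfin : Finite (Polynomial.degreeLT F Q.natDegree) :=
    Finite.of_equiv _ (Polynomial.degreeLTEquiv F Q.natDegree).toEquiv.symm
  have hX : ∀ i : ℕ, y ^ i = Polynomial.eval₂RingHom' ι y hc (Polynomial.X ^ i %ₘ Q) := by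
    intro i
    have e1 : Polynomial.eval₂RingHom' ι y hc Polynomial.X = y := Polynomial.eval₂_X ι y
    have h2 := congrArg (Polynomial.eval₂RingHom' ι y hc)
      (Polynomial.modByMonic_add_div (Polynomial.X ^ i) Q)
    rw [map_add, map_mul, hQ0, zero_mul, add_zero, map_pow, e1] at h2
    exact h2.symm
  obtain ⟨i, j, hij, hφ⟩ := Finite.exists_ne_map_eq_of_infinite
    (fun i : ℕ => (⟨Polynomial.X ^ i %ₘ Q, by
      rw [Polynomial.mem_degreeLT]
      refine lt_of_lt_of_le (Polynomial.degree_modByMonic_lt _ hQm) ?_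
      exact Polynomial.degree_le_natDegree⟩ : Polynomial.degreeLT F Q.natDegree))
  have hφ' : y ^ i = y ^ j := by
    rw [hX i, hX j]
    exact congrArg (Polynomial.eval₂RingHom' ι y hc) (congrArg Subtype.val hφ)
  rcases lt_or_gt_of_ne hij with h1 | h1
  · refine ⟨j - i, by omega, ?_⟩
    have h2 : y ^ j = y ^ (j - i) * y ^ i := by
      rw [← pow_add]
      congr 1
      omega
    rw [← hφ'] at h2
    exact (mul_eq_right₀ (pow_ne_zero i hy)).1 h2.symm
  · refine ⟨i - j, by omega, ?_⟩
    have h2 : y ^ i = y ^ (i - j) * y ^ j := by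
      rw [← pow_add]
      congr 1
      omega
    rw [hφ'] at h2
    exact (mul_eq_right₀ (pow_ne_zero j hy)).1 h2.symm

end VRR
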