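import Pool.Agent.VRR.Jcb
import Pool.Agent.VCD.Main

/-!
# VRR-Dsc: rings with an identity `x ^ N = x` are in a finitely generated discriminator variety
-/

open Set FirstOrder VCR

namespace VRR

/-- the structure of the language of rings on the ring `R` -/
@[reducible] def rstr (R : Type) [Ring R] : FirstOrder.Language.ring.Structure R :=
  (FirstOrder.Ring.compatibleRingOfRing R).toStructure

/-- values of terms and homomorphisms -/
theorem term_map {A B : Type} [Ring A] [Ring B] (f : A →+* B) {α : Type}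
    (t : FirstOrder.Language.ring.Term α) (v : α → A) :
    f (@FirstOrder.Language.Term.realize _ A (rstr A) α v t) =
      @FirstOrder.Language.Term.realize _ B (rstr B) α (fun i => f (v i)) t := by
  induction t with
  | var i => rfl
  | @func n g ts ih =>
    change FirstOrder.ringFunc n at g
    cases g with
    | add => exact (map_add f _ _).trans (congrArg₂ (· + ·) (ih 0) (ih 1))
    | mul => exact (map_mul f _ _).trans (congrArg₂ (· * ·) (ih 0) (ih 1))
    | neg => exact (map_neg f _).trans (congrArg (fun x => -x) (ih 0))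
    | zero => exact map_zero f
    | one => exact map_one f

/-- a field in which `x ^ N = x` has at most `N` elements -/
theorem card_of_pow {K : Type} [Field K] {N : ℕ} (hN : 2 ≤ N) (h : ∀ x : K, x ^ N = x) :
    Finite K ∧ Nat.card K ≤ N := by
  classical
  have h0 : (Polynomial.X ^ N - Polynomial.X : Polynomial K) ≠ 0 := by
    intro h4
    have h5 := congrArg (fun q => Polynomial.coeff q N) h4
    simp only [Polynomial.coeff_sub, Polynomial.coeff_X_pow, Polynomial.coeff_X, if_true,
      Polynomial.coeff_zero] at h5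
    rw [if_neg (by omega), sub_zero] at h5
    exact one_ne_zero h5
  have hr : ∀ x : K, Polynomial.IsRoot (Polynomial.X ^ N - Polynomial.X : Polynomial K) x := by
    intro x
    rw [Polynomial.IsRoot.def, Polynomial.eval_sub, Polynomial.eval_pow, Polynomial.eval_X, h, sub_self]
  have hfin : Finite K := by
    by_contra hinf
    rw [not_finite_iff_infinite] at hinf
    exact h0 (Polynomial.eq_zero_of_infinite_isRoot _
      (Set.infinite_of_injective_forall_mem (f := fun x : K => x) (fun _ _ h => h) hr))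
  refine ⟨hfin, ?_⟩
  have := Fintype.ofFinite K
  rw [Nat.card_eq_fintype_card]
  have h1 : (Finset.univ : Finset K) ⊆ (Polynomial.X ^ N - Polynomial.X : Polynomial K).roots.toFinset := by
    intro x _
    rw [Multiset.mem_toFinset, Polynomial.mem_roots h0]
    exact hr x
  have h2 := Finset.card_le_card h1
  rw [Finset.card_univ] at h2
  refine h2.trans ((Multiset.toFinset_card_le _).trans ((Polynomial.card_roots' _).trans ?_))
  refine (Polynomial.natDegree_sub_le _ _).trans ?_
  rw [Polynomial.natDegree_X_pow, Polynomial.natDegree_X]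
  exact max_le le_rfl (by omega)

/-- the index set of the fields in which `x ^ N = x` -/
def FI (N : ℕ) : Type :=
  {q : Fin (N + 1) // ∃ (K : Type) (_ : Field K), Finite K ∧ Nat.card K = q ∧ ∀ x : K, x ^ N = x}

instance (N : ℕ) : Finite (FI N) := inferInstanceAs (Finite {q : Fin (N + 1) // _})

/-- the fields in which `x ^ N = x` -/
def FK {N : ℕ} (i : FI N) : Type := i.2.choose

noncomputable instance {N : ℕ} (i : FI N) : Field (FK i) := i.2.choose_spec.choose

theorem FK_spec {N : ℕ} (i : FI N) : Finite (FK i) ∧ Nat.card (FK i) = i.1 ∧ ∀ x : FK i, x ^ N = x :=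
  i.2.choose_spec.choose_spec

instance {N : ℕ} (i : FI N) : Finite (FK i) := (FK_spec i).1

noncomputable instance {N : ℕ} (i : FI N) : FirstOrder.Language.ring.Structure (FK i) := rstr (FK i)

theorem exists_FK {N : ℕ} (hN : 2 ≤ N) (K : Type) [Field K] (h : ∀ x : K, x ^ N = x) :
    ∃ i : FI N, Nonempty (K ≃+* FK i) := by
  obtain ⟨h1, h2⟩ := card_of_pow hN h
  obtain ⟨i, hi⟩ : ∃ i : FI N, (i.1 : ℕ) = Nat.card K :=
    ⟨⟨⟨Nat.card K, by omega⟩, K, inferInstance, h1, rfl, h⟩, rfl⟩
  refine ⟨i, ?_⟩
  have := Fintype.ofFinite K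
  have := Fintype.ofFinite (FK i)
  refine ⟨FiniteField.ringEquivOfCardEq ?_⟩
  rw [← Nat.card_eq_fintype_card, ← Nat.card_eq_fintype_card, (FK_spec i).2.1, hi]

private def tpow (t : FirstOrder.Language.ring.Term (Fin 3)) : ℕ → FirstOrder.Language.ring.Term (Fin 3)
  | 0 => 1
  | n + 1 => tpow t n * t

/-- the discriminator term -/
def dterm (N : ℕ) : FirstOrder.Language.ring.Term (Fin 3) :=
  FirstOrder.Language.Term.var 2 + (FirstOrder.Language.Term.var 0 + -FirstOrder.Language.Term.var 2) *
    tpow (FirstOrder.Language.Term.var 0 + -FirstOrder.Language.Term.var 1) (N - 1)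

theorem isDisc_dterm {N : ℕ} (hN : 2 ≤ N) (i : FI N) : VCD.IsDisc (FK i) (dterm N) := by
  letI := FirstOrder.Ring.compatibleRingOfRing (FK i)
  intro x y z
  have hp : ∀ (t : FirstOrder.Language.ring.Term (Fin 3)) (n : ℕ) (v : Fin 3 → FK i),
      (tpow t n).realize v = (t.realize v) ^ n := by
    intro t n v
    induction n with
    | zero =>
      rw [pow_zero]
      exact FirstOrder.Ring.realize_one v
    | succ n ih =>
      rw [pow_succ, ← ih]
      exact FirstOrder.Ring.realize_mul _ _ v
  have h1 : (dterm N).realize ![x, y, z] = z + (x + -z) * (x + -y) ^ (N - 1) := by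
    unfold dterm
    rw [FirstOrder.Ring.realize_add, FirstOrder.Ring.realize_mul, hp, FirstOrder.Ring.realize_add,
      FirstOrder.Ring.realize_add, FirstOrder.Ring.realize_neg, FirstOrder.Ring.realize_neg]
    rfl
  have h2 : (dterm N).realize ![x, y, z] = z + (x + -z) * (x + -y) ^ (N - 1) := h1
  constructor
  · intro h
    refine h2.trans ?_
    rw [h, add_neg_cancel, zero_pow (by omega), mul_zero, add_zero]
  · intro h
    refine h2.trans ?_
    have h3 : x + -y ≠ 0 := by
      rw [← sub_eq_add_neg]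
      exact sub_ne_zero.2 h
    have h4 : (x + -y) ^ (N - 1) = 1 := by
      have h5 : (x + -y) * (x + -y) ^ (N - 1) = x + -y := by
        rw [← pow_succ', show N - 1 + 1 = N by omega, (FK_spec i).2.2]
      exact (mul_eq_left₀ h3).1 h5
    rw [h4, mul_one]
    ring

theorem ids_of_pow {B : Type} [Ring B] {N : ℕ} (hN : 2 ≤ N) (h : ∀ x : B, x ^ N = x) :
    @VCD.Ids _ (FI N) FK _ B (rstr B) := by
  intro p q hpq v
  letI : CommRing B := { (inferInstance : Ring B) with mul_comm := comm_of_pow hN h }
  by_contra hne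
  obtain ⟨d, hd⟩ : ∃ d, d = @FirstOrder.Language.Term.realize _ B (rstr B) ℕ v p -
      @FirstOrder.Language.Term.realize _ B (rstr B) ℕ v q := ⟨_, rfl⟩
  have hd0 : d ≠ 0 := by
    rw [hd]
    exact sub_ne_zero.2 hne
  obtain ⟨h1, h2⟩ := idem_of_pow hN h d
  have he0 : d ^ (N - 1) ≠ 0 := by
    intro h3
    rw [h3, zero_mul] at h2
    exact hd0 h2.symm
  have hpr : Ideal.span {1 - d ^ (N - 1)} ≠ (⊤ : Ideal B) := by
    intro h3
    have h4 : (1 : B) ∈ Ideal.span {1 - d ^ (N - 1)} := by rw [h3]; trivial
    obtain ⟨a, ha⟩ := Ideal.mem_span_singleton'.1 h4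
    apply he0
    have h5 : a * (1 - d ^ (N - 1)) * d ^ (N - 1) = 0 := by
      rw [mul_assoc, sub_mul, one_mul, h1, sub_self, mul_zero]
    rwa [ha, one_mul] at h5
  obtain ⟨P, hP, hle⟩ := Ideal.exists_le_maximal _ hpr
  have h1P : 1 - d ^ (N - 1) ∈ P := hle (Ideal.mem_span_singleton_self _)
  letI := Ideal.Quotient.field P
  have hq : ∀ w : B ⧸ P, w ^ N = w := by
    intro w
    obtain ⟨w, rfl⟩ := Ideal.Quotient.mk_surjective w
    rw [← map_pow, h]
  obtain ⟨i, ⟨e⟩⟩ := exists_FK hN (B ⧸ P) hq
  have h3 := hpq i (fun n => (e.toRingHom.comp (Ideal.Quotient.mk P)) (v n))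
  have h4 : (e.toRingHom.comp (Ideal.Quotient.mk P)) d = 0 := by
    rw [hd, map_sub, sub_eq_zero]
    exact (term_map _ p v).trans (h3.trans (term_map _ q v).symm)
  have h5 : d ∈ P := by
    rw [← Ideal.Quotient.eq_zero_iff_mem]
    exact (map_eq_zero_iff e e.injective).1 h4
  have h6 : d ^ (N - 1) ∈ P := by
    rw [show N - 1 = N - 2 + 1 by omega, pow_succ]
    exact P.mul_mem_left _ h5
  apply hP.ne_top
  rw [Ideal.eq_top_iff_one]
  have h7 := P.add_mem h1P h6
  rwa [sub_add_cancel] at h7

end VRR
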