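import Mathlib

/-!
# VRR-Fv: the theory of a product with a fixed factor (Feferman and Vaught)
-/

open FirstOrder

namespace VRR

variable {L : FirstOrder.Language.{0, 0}}

/-- the structure on the product -/
@[reducible] def prodStr (L : FirstOrder.Language.{0, 0}) (A B : Type) [L.Structure A] [L.Structure B] :
    L.Structure (A × B) where
  funMap f x := (FirstOrder.Language.Structure.funMap f fun i => (x i).1,
    FirstOrder.Language.Structure.funMap f fun i => (x i).2)
  RelMap r x := FirstOrder.Language.Structure.RelMap r (fun i => (x i).1) ∧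
    FirstOrder.Language.Structure.RelMap r (fun i => (x i).2)

theorem term_prod {A B : Type} [L.Structure A] [L.Structure B] {α : Type} (t : L.Term α) (v : α → A × B) :
    @FirstOrder.Language.Term.realize L (A × B) (prodStr L A B) α v t =
      (t.realize fun i => (v i).1, t.realize fun i => (v i).2) := by
  induction t with
  | var i => rfl
  | func f ts ih =>
    show (FirstOrder.Language.Structure.funMap f fun i => (@FirstOrder.Language.Term.realize L (A × B) (prodStr L A B) α v (ts i)).1,
      FirstOrder.Language.Structure.funMap f fun i => (@FirstOrder.Language.Term.realize L (A × B) (prodStr L A B) α v (ts i)).2) = _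
    simp only [ih]
    rfl

private theorem snoc_pair {A B : Type} {n : ℕ} (xs : Fin n → A × B) (a : A × B) :
    (fun i => ((Fin.snoc xs a : Fin (n + 1) → A × B) i).1) = Fin.snoc (fun i => (xs i).1) a.1 ∧
    (fun i => ((Fin.snoc xs a : Fin (n + 1) → A × B) i).2) = Fin.snoc (fun i => (xs i).2) a.2 := by
  constructor <;>
  · funext i
    refine Fin.lastCases ?_ (fun j => ?_) i
    · simp only [Fin.snoc_last]
    · simp only [Fin.snoc_castSucc]

theorem fv (A : Type) [L.Structure A] {α : Type} {n : ℕ} (φ : L.BoundedFormula α n) :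
    ∃ F : Set (L.BoundedFormula α n), F.Finite ∧ ∀ (v : α → A) (xs : Fin n → A), ∃ ψ ∈ F,
      ∀ (B : Type) [L.Structure B] (w : α → A × B) (ys : Fin n → A × B), (∀ i, (w i).1 = v i) →
        (∀ i, (ys i).1 = xs i) →
        (@FirstOrder.Language.BoundedFormula.Realize L (A × B) (prodStr L A B) α n φ w ys ↔
          ψ.Realize (fun i => (w i).2) fun i => (ys i).2) := by
  classical
  induction φ with
  | falsum =>
    exact ⟨{⊥}, Set.finite_singleton _, fun v xs => ⟨⊥, rfl, fun B _ w ys _ _ => Iff.rfl⟩⟩
  | @equal n t₁ t₂ =>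
    refine ⟨{⊥, FirstOrder.Language.BoundedFormula.equal t₁ t₂}, Set.toFinite _, fun v xs => ?_⟩
    by_cases h : t₁.realize (Sum.elim v xs) = t₂.realize (Sum.elim v xs)
    · refine ⟨_, Or.inr rfl, fun B _ w ys hw hy => ?_⟩
      show @FirstOrder.Language.Term.realize L (A × B) (prodStr L A B) _ (Sum.elim w ys) t₁ =
        @FirstOrder.Language.Term.realize L (A × B) (prodStr L A B) _ (Sum.elim w ys) t₂ ↔
        t₁.realize (Sum.elim (fun i => (w i).2) fun i => (ys i).2) =
          t₂.realize (Sum.elim (fun i => (w i).2) fun i => (ys i).2)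
      have e1 : (fun i => (Sum.elim w ys i).1) = Sum.elim v xs := by
        funext i
        rcases i with i | i
        · exact hw i
        · exact hy i
      have e2 : (fun i => (Sum.elim w ys i).2) = Sum.elim (fun i => (w i).2) fun i => (ys i).2 := by
        funext i
        rcases i with i | i <;> rfl
      rw [term_prod, term_prod, e1, e2, Prod.mk.injEq]
      exact ⟨fun h1 => h1.2, fun h1 => ⟨h, h1⟩⟩
    · refine ⟨⊥, Or.inl rfl, fun B _ w ys hw hy => ?_⟩
      show @FirstOrder.Language.Term.realize L (A × B) (prodStr L A B) _ (Sum.elim w ys) t₁ =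
        @FirstOrder.Language.Term.realize L (A × B) (prodStr L A B) _ (Sum.elim w ys) t₂ ↔ False
      have e1 : (fun i => (Sum.elim w ys i).1) = Sum.elim v xs := by
        funext i
        rcases i with i | i
        · exact hw i
        · exact hy i
      rw [term_prod, term_prod, e1, Prod.mk.injEq]
      exact ⟨fun h1 => h h1.1, fun h1 => h1.elim⟩
  | @rel n l R ts =>
    refine ⟨{⊥, FirstOrder.Language.BoundedFormula.rel R ts}, Set.toFinite _, fun v xs => ?_⟩
    by_cases h : FirstOrder.Language.Structure.RelMap R fun i => (ts i).realize (Sum.elim v xs)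
    · refine ⟨_, Or.inr rfl, fun B _ w ys hw hy => ?_⟩
      show FirstOrder.Language.Structure.RelMap R (fun i =>
          (@FirstOrder.Language.Term.realize L (A × B) (prodStr L A B) _ (Sum.elim w ys) (ts i)).1) ∧
        FirstOrder.Language.Structure.RelMap R (fun i =>
          (@FirstOrder.Language.Term.realize L (A × B) (prodStr L A B) _ (Sum.elim w ys) (ts i)).2) ↔
        FirstOrder.Language.Structure.RelMap R fun i =>
          (ts i).realize (Sum.elim (fun i => (w i).2) fun i => (ys i).2)
      have e1 : (fun i => (Sum.elim w ys i).1) = Sum.elim v xs := by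
        funext i
        rcases i with i | i
        · exact hw i
        · exact hy i
      have e2 : (fun i => (Sum.elim w ys i).2) = Sum.elim (fun i => (w i).2) fun i => (ys i).2 := by
        funext i
        rcases i with i | i <;> rfl
      simp only [term_prod, e1, e2]
      exact ⟨fun h1 => h1.2, fun h1 => ⟨h, h1⟩⟩
    · refine ⟨⊥, Or.inl rfl, fun B _ w ys hw hy => ?_⟩
      show FirstOrder.Language.Structure.RelMap R (fun i =>
          (@FirstOrder.Language.Term.realize L (A × B) (prodStr L A B) _ (Sum.elim w ys) (ts i)).1) ∧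
        FirstOrder.Language.Structure.RelMap R (fun i =>
          (@FirstOrder.Language.Term.realize L (A × B) (prodStr L A B) _ (Sum.elim w ys) (ts i)).2) ↔ False
      have e1 : (fun i => (Sum.elim w ys i).1) = Sum.elim v xs := by
        funext i
        rcases i with i | i
        · exact hw i
        · exact hy i
      simp only [term_prod, e1]
      exact ⟨fun h1 => h h1.1, fun h1 => h1.elim⟩
  | @imp n φ₁ φ₂ ih₁ ih₂ =>
    obtain ⟨F₁, hF₁, h₁⟩ := ih₁
    obtain ⟨F₂, hF₂, h₂⟩ := ih₂
    refine ⟨Set.image2 FirstOrder.Language.BoundedFormula.imp F₁ F₂, hF₁.image2 _ hF₂, fun v xs => ?_⟩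
    obtain ⟨ψ₁, m₁, e₁⟩ := h₁ v xs
    obtain ⟨ψ₂, m₂, e₂⟩ := h₂ v xs
    refine ⟨ψ₁.imp ψ₂, ⟨ψ₁, m₁, ψ₂, m₂, rfl⟩, fun B _ w ys hw hy => ?_⟩
    exact imp_congr (e₁ B w ys hw hy) (e₂ B w ys hw hy)
  | @all n φ ih =>
    obtain ⟨F, hF, h⟩ := ih
    have := hF.to_subtype
    refine ⟨Set.range fun S : Set F => FirstOrder.Language.BoundedFormula.iInf fun ψ : S => ψ.1.1.all,
      Set.finite_range _, fun v xs => ?_⟩
    choose g hg hg' using fun a : A => h v (Fin.snoc xs a)
    refine ⟨_, ⟨{ψ | ∃ a, ψ.1 = g a}, rfl⟩, fun B _ w ys hw hy => ?_⟩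
    rw [FirstOrder.Language.BoundedFormula.realize_iInf]
    show (∀ a : A × B, @FirstOrder.Language.BoundedFormula.Realize L (A × B) (prodStr L A B) α (n + 1) φ w
      (Fin.snoc ys a)) ↔ _
    constructor
    · rintro h1 ⟨⟨ψ, hψ⟩, a, ha⟩
      show ∀ b : B, ψ.Realize (fun i => (w i).2) (Fin.snoc (fun i => (ys i).2) b)
      intro b
      rw [show ψ = g a from ha]
      have h2 := (hg' a B w (Fin.snoc ys (a, b)) hw (fun i => ?_)).1 (h1 (a, b))
      · rwa [(snoc_pair ys (a, b)).2] at h2
      · have h3 := congrFun (snoc_pair ys (a, b)).1 i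
        rw [h3]
        congr 1
        exact funext hy
    · rintro h1 ⟨a, b⟩
      refine (hg' a B w (Fin.snoc ys (a, b)) hw (fun i => ?_)).2 ?_
      · have h3 := congrFun (snoc_pair ys (a, b)).1 i
        rw [h3]
        congr 1
        exact funext hy
      · rw [(snoc_pair ys (a, b)).2]
        exact h1 ⟨⟨g a, hg a⟩, a, rfl⟩ b

/-- the theory of the structures `B` such that `A × B` is a model of `T` -/
def thA (A : Type) [L.Structure A] (T : L.Theory) : L.Theory :=
  {ψ | ∃ φ ∈ T, ∀ (B : Type) [L.Structure B],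
    @FirstOrder.Language.Sentence.Realize L (A × B) (prodStr L A B) φ ↔ B ⊨ ψ}

theorem model_thA (A : Type) [L.Structure A] (T : L.Theory) (B : Type) [L.Structure B] :
    @FirstOrder.Language.Theory.Model L (A × B) (prodStr L A B) T ↔ B ⊨ thA A T := by
  constructor
  · intro h
    rw [FirstOrder.Language.Theory.model_iff]
    rintro ψ ⟨φ, hφ, h1⟩
    exact (h1 B).1 ((@FirstOrder.Language.Theory.model_iff L (A × B) (prodStr L A B) T).1 h φ hφ)
  · intro h
    rw [@FirstOrder.Language.Theory.model_iff L (A × B) (prodStr L A B) T]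
    intro φ hφ
    obtain ⟨F, -, hF⟩ := fv A φ
    obtain ⟨ψ, -, hψ⟩ := hF Empty.elim Fin.elim0
    have key : ∀ (B : Type) [L.Structure B],
        @FirstOrder.Language.Sentence.Realize L (A × B) (prodStr L A B) φ ↔ B ⊨ (ψ : L.Sentence) := by
      intro B _
      have h2 := hψ B default default (fun i => i.elim) (fun i => i.elim0)
      have e1 : (fun i : Empty => ((default : Empty → A × B) i).2) = default := Subsingleton.elim _ _
      have e2 : (fun i : Fin 0 => ((default : Fin 0 → A × B) i).2) = default := Subsingleton.elim _ _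
      rw [e1, e2] at h2
      exact h2
    rw [FirstOrder.Language.Theory.model_iff] at h
    exact (key B).2 (h ψ ⟨φ, hφ, key⟩)

end VRR
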