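import Pool.Agent.VRR.Srs

/-!
# VRR-Idt: identities as sentences, rings from identities
-/

open Set FirstOrder VCR

namespace VRR

section General

variable {L : FirstOrder.Language.{0, 0}}

private theorem exists_fin (p : L.Term ℕ) : ∃ n : ℕ, ∀ m, n ≤ m → ∃ p' : L.Term (Empty ⊕ Fin m),
    ∀ (M : Type) [L.Structure M] (v : ℕ → M), p.realize v = p'.realize (Sum.elim default fun i : Fin m => v i) := by
  induction p with
  | var k =>
    exact ⟨k + 1, fun m hm => ⟨FirstOrder.Language.Term.var (Sum.inr ⟨k, by omega⟩), fun M _ v => rfl⟩⟩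
  | @func l f ts ih =>
    choose n hn using ih
    refine ⟨Finset.univ.sup n, fun m hm => ?_⟩
    choose p' hp' using fun i => hn i m ((Finset.le_sup (Finset.mem_univ i)).trans hm)
    refine ⟨FirstOrder.Language.Term.func f p', fun M _ v => ?_⟩
    show FirstOrder.Language.Structure.funMap f (fun i => (ts i).realize v) =
      FirstOrder.Language.Structure.funMap f fun i => (p' i).realize _
    congr 1
    funext i
    exact hp' i M v

theorem exists_sent (p q : L.Term ℕ) : ∃ ψ : L.Sentence, ∀ (M : Type) [L.Structure M] [Nonempty M],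
    M ⊨ ψ ↔ ∀ v : ℕ → M, p.realize v = q.realize v := by
  classical
  obtain ⟨n₁, h₁⟩ := exists_fin p
  obtain ⟨n₂, h₂⟩ := exists_fin q
  obtain ⟨p', hp'⟩ := h₁ (max n₁ n₂) (le_max_left _ _)
  obtain ⟨q', hq'⟩ := h₂ (max n₁ n₂) (le_max_right _ _)
  refine ⟨(FirstOrder.Language.BoundedFormula.equal p' q').alls, fun M _ _ => ?_⟩
  have h3 : M ⊨ ((FirstOrder.Language.BoundedFormula.equal p' q').alls : L.Sentence) ↔
      ∀ xs : Fin (max n₁ n₂) → M, p'.realize (Sum.elim default xs) = q'.realize (Sum.elim default xs) :=
    FirstOrder.Language.BoundedFormula.realize_alls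
  rw [h3]
  constructor
  · intro h v
    rw [hp', hq']
    exact h _
  · intro h xs
    obtain ⟨c⟩ := ‹Nonempty M›
    have h4 := h fun k => if hk : k < max n₁ n₂ then xs ⟨k, hk⟩ else c
    rw [hp', hq'] at h4
    have h5 : (fun i : Fin (max n₁ n₂) => if hk : (i : ℕ) < max n₁ n₂ then xs ⟨i, hk⟩ else c) = xs := by
      funext i
      rw [dif_pos i.2]
    rw [h5] at h4
    exact h4

/-- the identities of the algebras `S i` -/
def idT {ι : Type} (S : ι → Type) [∀ i, L.Structure (S i)] : L.Theory :=
  {ψ | ∃ p q : L.Term ℕ, (∀ (i : ι) (v : ℕ → S i), p.realize v = q.realize v) ∧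
    ∀ (M : Type) [L.Structure M] [Nonempty M], M ⊨ ψ ↔ ∀ v : ℕ → M, p.realize v = q.realize v}

theorem model_idT {ι : Type} (S : ι → Type) [∀ i, L.Structure (S i)] (M : Type) [L.Structure M] [Nonempty M] :
    M ⊨ (idT S : L.Theory) ↔ VCD.Ids (L := L) S M := by
  rw [FirstOrder.Language.Theory.model_iff]
  constructor
  · intro h p q hpq
    obtain ⟨ψ, hψ⟩ := exists_sent p q
    exact (hψ M).1 (h ψ ⟨p, q, hpq, fun M _ _ => hψ M⟩)
  · rintro h ψ ⟨p, q, hpq, hψ⟩
    exact (hψ M).2 (h p q hpq)

theorem ids_congr {ι : Type} {S : ι → Type} [∀ i, L.Structure (S i)] {M M' : Type} (iM : L.Structure M)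
    (iM' : L.Structure M') (e : @FirstOrder.Language.Equiv L M M' iM iM')
    (h : @VCD.Ids L ι S _ M iM) : @VCD.Ids L ι S _ M' iM' := by
  intro p q hpq v
  have h1 := h p q hpq (fun n => e.symm (v n))
  have h2 := congrArg e h1
  have h3 : ∀ t : L.Term ℕ, e (t.realize fun n => e.symm (v n)) = t.realize v := by
    intro t
    have h4 := FirstOrder.Language.HomClass.realize_term e (t := t) (v := fun n => e.symm (v n))
    rw [← h4]
    congr 1
    funext n
    exact e.apply_symm_apply (v n)
  rwa [h3, h3] at h2

end General

/-- powers of terms -/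
def tpw {α : Type} (t : FirstOrder.Language.ring.Term α) : ℕ → FirstOrder.Language.ring.Term α
  | 0 => 1
  | n + 1 => tpw t n * t

theorem tpw_realize {R : Type} [Ring R] {α : Type} (t : FirstOrder.Language.ring.Term α) (n : ℕ) (v : α → R) :
    @FirstOrder.Language.Term.realize _ R (rstr R) α v (tpw t n) =
      (@FirstOrder.Language.Term.realize _ R (rstr R) α v t) ^ n := by
  letI := FirstOrder.Ring.compatibleRingOfRing R
  induction n with
  | zero =>
    rw [pow_zero]
    exact FirstOrder.Ring.realize_one v
  | succ n ih =>
    rw [pow_succ, ← ih]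
    exact FirstOrder.Ring.realize_mul _ _ v

theorem ring_of_ids {M : Type} {N : ℕ} (i : FirstOrder.Language.ring.Structure M)
    (h : @VCD.Ids _ (FI N) FK _ M i) : ∃ r : Ring M, rstr M = i ∧ ∀ x : M, x ^ N = x := by
  have hr : ∃ r : Ring M, rstr M = i := by
    letI := FirstOrder.Ring.addOfRingStructure M
    letI := FirstOrder.Ring.mulOfRingStructure M
    letI := FirstOrder.Ring.negOfRingStructure M
    letI := FirstOrder.Ring.zeroOfRingStructure M
    letI := FirstOrder.Ring.oneOfRingStructure M
    letI := FirstOrder.Ring.compatibleRingOfRingStructure M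
    let x : FirstOrder.Language.ring.Term ℕ := FirstOrder.Language.Term.var 0
    let y : FirstOrder.Language.ring.Term ℕ := FirstOrder.Language.Term.var 1
    let z : FirstOrder.Language.ring.Term ℕ := FirstOrder.Language.Term.var 2
    have key : ∀ p q : FirstOrder.Language.ring.Term ℕ,
        (∀ (K : Type) [Field K] (v : ℕ → K), @FirstOrder.Language.Term.realize _ K (rstr K) ℕ v p =
          @FirstOrder.Language.Term.realize _ K (rstr K) ℕ v q) → ∀ v : ℕ → M, p.realize v = q.realize v :=
      fun p q hpq => h p q fun i v => hpq (FK i) v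
    obtain ⟨V, hV⟩ : ∃ V : M → M → M → ℕ → M, ∀ a b c, V a b c 0 = a ∧ V a b c 1 = b ∧ V a b c 2 = c :=
      ⟨fun a b c n => if n = 0 then a else if n = 1 then b else c, fun a b c => ⟨rfl, rfl, rfl⟩⟩
    have vx : ∀ a b c, x.realize (V a b c) = a := fun a b c => (hV a b c).1
    have vy : ∀ a b c, y.realize (V a b c) = b := fun a b c => (hV a b c).2.1
    have vz : ∀ a b c, z.realize (V a b c) = c := fun a b c => (hV a b c).2.2
    have a1 : ∀ a b c : M, a + b + c = a + (b + c) := by
      intro a b c
      have h1 := key (x + y + z) (x + (y + z)) (fun K _ v => by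
        letI := FirstOrder.Ring.compatibleRingOfRing K
        simp only [FirstOrder.Ring.realize_add, add_assoc]) (V a b c)
      simpa only [FirstOrder.Ring.realize_add, vx, vy, vz] using h1
    have a2 : ∀ a : M, 0 + a = a := by
      intro a
      have h1 := key (0 + x) x (fun K _ v => by
        letI := FirstOrder.Ring.compatibleRingOfRing K
        simp only [FirstOrder.Ring.realize_add, FirstOrder.Ring.realize_zero, zero_add]) (V a a a)
      simpa only [FirstOrder.Ring.realize_add, FirstOrder.Ring.realize_zero, vx, vy, vz] using h1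
    have a3 : ∀ a : M, -a + a = 0 := by
      intro a
      have h1 := key (-x + x) 0 (fun K _ v => by
        letI := FirstOrder.Ring.compatibleRingOfRing K
        simp only [FirstOrder.Ring.realize_add, FirstOrder.Ring.realize_neg, FirstOrder.Ring.realize_zero,
          neg_add_cancel]) (V a a a)
      simpa only [FirstOrder.Ring.realize_add, FirstOrder.Ring.realize_neg, FirstOrder.Ring.realize_zero, vx, vy,
        vz] using h1
    have a4 : ∀ a b c : M, a * b * c = a * (b * c) := by
      intro a b c
      have h1 := key (x * y * z) (x * (y * z)) (fun K _ v => by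
        letI := FirstOrder.Ring.compatibleRingOfRing K
        simp only [FirstOrder.Ring.realize_mul, mul_assoc]) (V a b c)
      simpa only [FirstOrder.Ring.realize_mul, vx, vy, vz] using h1
    have a5 : ∀ a : M, 1 * a = a := by
      intro a
      have h1 := key (1 * x) x (fun K _ v => by
        letI := FirstOrder.Ring.compatibleRingOfRing K
        simp only [FirstOrder.Ring.realize_mul, FirstOrder.Ring.realize_one, one_mul]) (V a a a)
      simpa only [FirstOrder.Ring.realize_mul, FirstOrder.Ring.realize_one, vx, vy, vz] using h1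
    have a6 : ∀ a : M, a * 1 = a := by
      intro a
      have h1 := key (x * 1) x (fun K _ v => by
        letI := FirstOrder.Ring.compatibleRingOfRing K
        simp only [FirstOrder.Ring.realize_mul, FirstOrder.Ring.realize_one, mul_one]) (V a a a)
      simpa only [FirstOrder.Ring.realize_mul, FirstOrder.Ring.realize_one, vx, vy, vz] using h1
    have a7 : ∀ a b c : M, a * (b + c) = a * b + a * c := by
      intro a b c
      have h1 := key (x * (y + z)) (x * y + x * z) (fun K _ v => by
        letI := FirstOrder.Ring.compatibleRingOfRing K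
        simp only [FirstOrder.Ring.realize_mul, FirstOrder.Ring.realize_add, mul_add]) (V a b c)
      simpa only [FirstOrder.Ring.realize_mul, FirstOrder.Ring.realize_add, vx, vy, vz] using h1
    have a8 : ∀ a b c : M, (a + b) * c = a * c + b * c := by
      intro a b c
      have h1 := key ((x + y) * z) (x * z + y * z) (fun K _ v => by
        letI := FirstOrder.Ring.compatibleRingOfRing K
        simp only [FirstOrder.Ring.realize_mul, FirstOrder.Ring.realize_add, add_mul]) (V a b c)
      simpa only [FirstOrder.Ring.realize_mul, FirstOrder.Ring.realize_add, vx, vy, vz] using h1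
    refine ⟨Ring.ofMinimalAxioms a1 a2 a3 a4 a5 a6 a7 a8, ?_⟩
    refine FirstOrder.Language.Structure.ext ?_ ?_
    · funext n f v
      change FirstOrder.ringFunc n at f
      cases f with
      | add =>
        show i.funMap FirstOrder.Ring.addFunc ![v 0, v 1] = i.funMap FirstOrder.Ring.addFunc v
        congr 1
        funext j
        fin_cases j <;> rfl
      | mul =>
        show i.funMap FirstOrder.Ring.mulFunc ![v 0, v 1] = i.funMap FirstOrder.Ring.mulFunc v
        congr 1
        funext j
        fin_cases j <;> rfl
      | neg =>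
        show i.funMap FirstOrder.Ring.negFunc ![v 0] = i.funMap FirstOrder.Ring.negFunc v
        congr 1
        funext j
        fin_cases j
        rfl
      | zero =>
        show i.funMap FirstOrder.Ring.zeroFunc ![] = i.funMap FirstOrder.Ring.zeroFunc v
        congr 1
        exact Subsingleton.elim _ _
      | one =>
        show i.funMap FirstOrder.Ring.oneFunc ![] = i.funMap FirstOrder.Ring.oneFunc v
        congr 1
        exact Subsingleton.elim _ _
    · funext n r
      exact Empty.elim r
  obtain ⟨r, hr⟩ := hr
  refine ⟨r, hr, fun x => ?_⟩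
  rw [← hr] at h
  have h1 := h (tpw (FirstOrder.Language.Term.var 0) N) (FirstOrder.Language.Term.var 0) (fun i v => by
    refine (tpw_realize (R := FK i) _ N v).trans ?_
    exact (FK_spec i).2.2 _) (fun _ => x)
  exact (tpw_realize (R := M) _ N (fun _ => x)).symm.trans h1

end VRR
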