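import Pool.Agent.VRR.DivA
import Pool.Agent.VCR.RegB

/-!
# VRR-Jcb: rings with an identity `x ^ N = x`

They are commutative (Jacobson), and every nonzero element is nonzero in a quotient field with at most `N` elements.
-/

open Set VCR

namespace VRR

universe v

private theorem core {D : Type v} [DivisionRing D] (p : ℕ) [hp : Fact p.Prime] [CharP D p]
    (y a b : D) (hfin : (Subring.closure {y} : Set D).Finite) (ha : a ∈ Subring.closure ({y} : Set D))
    (ha0 : a ≠ 0) (hb0 : b ≠ 0) (hab : y * b - b * y = a * b) (N : ℕ) (hN : 0 < N) (hbN : b ^ N = 1) :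
    False := by
  have hby : b * y = (y - a) * b := by
    rw [sub_mul, ← hab]
    abel
  have hcom : b * y ≠ y * b := by
    intro h
    rw [h, sub_mul, eq_comm, sub_eq_self] at hby
    exact mul_ne_zero ha0 hb0 hby
  have hyS : y ∈ Subring.closure ({y} : Set D) := Subring.subset_closure rfl
  have hσ : ∀ z ∈ Subring.closure ({y} : Set D), ∃ z' ∈ Subring.closure ({y} : Set D),
      b * z = z' * b := by
    intro z hz
    induction hz using Subring.closure_induction with
    | mem z hz =>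
      rcases hz with rfl
      exact ⟨z - a, Subring.sub_mem _ hyS ha, hby⟩
    | zero => exact ⟨0, Subring.zero_mem _, by simp⟩
    | one => exact ⟨1, Subring.one_mem _, by simp⟩
    | add z w _ _ h1 h2 =>
      obtain ⟨z', hz', e1⟩ := h1
      obtain ⟨w', hw', e2⟩ := h2
      exact ⟨z' + w', Subring.add_mem _ hz' hw', by rw [mul_add, add_mul, e1, e2]⟩
    | neg z _ h1 =>
      obtain ⟨z', hz', e1⟩ := h1
      exact ⟨-z', Subring.neg_mem _ hz', by rw [mul_neg, neg_mul, e1]⟩
    | mul z w _ _ h1 h2 =>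
      obtain ⟨z', hz', e1⟩ := h1
      obtain ⟨w', hw', e2⟩ := h2
      exact ⟨z' * w', Subring.mul_mem _ hz' hw', by rw [← mul_assoc, e1, mul_assoc, e2, mul_assoc]⟩
  have hσn : ∀ (i : ℕ), ∀ z ∈ Subring.closure ({y} : Set D),
      ∃ z' ∈ Subring.closure ({y} : Set D), b ^ i * z = z' * b ^ i := by
    intro i
    induction i with
    | zero => exact fun z hz => ⟨z, hz, by simp⟩
    | succ i ih =>
      intro z hz
      obtain ⟨z', hz', e1⟩ := hσ z hz
      obtain ⟨z'', hz'', e2⟩ := ih z' hz'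
      exact ⟨z'', hz'', by rw [pow_succ, mul_assoc, e1, ← mul_assoc, e2, mul_assoc]⟩
  obtain ⟨s, hs⟩ : ∃ s : Set D, ∀ w, w ∈ s ↔ ∃ z ∈ Subring.closure ({y} : Set D), ∃ i < N,
      w = z * b ^ i := ⟨{w | ∃ z ∈ Subring.closure ({y} : Set D), ∃ i < N, w = z * b ^ i},
        fun w => Iff.rfl⟩
  have hmod : ∀ i : ℕ, b ^ i = b ^ (i % N) := by
    intro i
    conv_lhs => rw [← Nat.mod_add_div i N, pow_add, pow_mul, hbN, one_pow, mul_one]
  have hsf : s.Finite := by
    have h1 : s ⊆ (fun q : D × ℕ => q.1 * b ^ q.2) ''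
        ((Subring.closure ({y} : Set D) : Set D) ×ˢ (Finset.range N : Set ℕ)) := by
      intro w hw
      obtain ⟨z, hz, i, hi, rfl⟩ := (hs w).1 hw
      exact ⟨(z, i), ⟨hz, by simpa using hi⟩, rfl⟩
    exact ((hfin.prod (Finset.finite_toSet _)).image _).subset h1
  have hfc : (Subring.closure s : Set D).Finite := by
    refine finite_closure p s hsf ?_ ?_
    · exact (hs 1).2 ⟨1, Subring.one_mem _, 0, hN, by simp⟩
    · intro u hu w hw
      obtain ⟨z, hz, i, hi, rfl⟩ := (hs u).1 hu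
      obtain ⟨z', hz', j, hj, rfl⟩ := (hs w).1 hw
      obtain ⟨z'', hz'', e⟩ := hσn i z' hz'
      refine (hs _).2 ⟨z * z'', Subring.mul_mem _ hz hz'', (i + j) % N, Nat.mod_lt _ hN, ?_⟩
      rw [← hmod, pow_add]
      calc z * b ^ i * (z' * b ^ j) = z * (b ^ i * z') * b ^ j := by simp only [mul_assoc]
        _ = z * z'' * (b ^ i * b ^ j) := by rw [e]; simp only [mul_assoc]
  have hys : y ∈ Subring.closure s :=
    Subring.subset_closure ((hs y).2 ⟨y, hyS, 0, hN, by simp⟩)
  have hbs : b ∈ Subring.closure s := by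
    refine Subring.subset_closure ((hs b).2 ⟨1, Subring.one_mem _, 1 % N, Nat.mod_lt _ hN, ?_⟩)
    rw [← hmod, pow_one, one_mul]
  exact hcom (finSub_comm _ hfc b y hbs hys)

private theorem pow_pred {D : Type v} [DivisionRing D] {N : ℕ} (hN : 2 ≤ N) (h : ∀ x : D, x ^ N = x)
    {x : D} (hx : x ≠ 0) : x ^ (N - 1) = 1 := by
  have h1 : x * x ^ (N - 1) = x := by
    rw [← pow_succ', show N - 1 + 1 = N by omega, h]
  exact (mul_eq_left₀ hx).1 h1

theorem div_comm_of_pow {D : Type v} [DivisionRing D] {N : ℕ} (hN : 2 ≤ N) (h : ∀ x : D, x ^ N = x)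
    (x y : D) : y * x = x * y := by
  obtain ⟨p, hp⟩ := CharP.exists D
  have hp' : p.Prime := by
    rcases CharP.char_is_prime_or_zero D p with h1 | h1
    · exact h1
    · exfalso
      subst h1
      have := CharP.charP_to_charZero D
      have h2 := h (2 : D)
      have h3 : (2 : ℕ) ^ N = 2 := by exact_mod_cast h2
      have h4 : 2 ^ 1 < 2 ^ N := Nat.pow_lt_pow_right (by norm_num) (by omega)
      omega
  haveI : Fact p.Prime := ⟨hp'⟩
  by_cases hy : y = 0
  · rw [hy, zero_mul, mul_zero]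
  by_contra hx
  obtain ⟨hfin, a, ha, ha0, b, hb0, hab⟩ := exists_eigen p y (N - 1) (by omega) (pow_pred hN h hy) ⟨x, hx⟩
  exact core p y a b hfin ha ha0 hb0 hab (N - 1) (by omega) (pow_pred hN h hb0)

theorem red_of_pow {B : Type v} [Ring B] {N : ℕ} (hN : 2 ≤ N) (h : ∀ x : B, x ^ N = x) (x : B)
    (hx : x * x = 0) : x = 0 := by
  rw [← h x, show N = 2 + (N - 2) by omega, pow_add, pow_two, hx, zero_mul]

theorem idem_of_pow {B : Type v} [Ring B] {N : ℕ} (hN : 2 ≤ N) (h : ∀ x : B, x ^ N = x) (x : B) :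
    x ^ (N - 1) * x ^ (N - 1) = x ^ (N - 1) ∧ x ^ (N - 1) * x = x := by
  constructor
  · rw [← pow_add, show N - 1 + (N - 1) = N + (N - 2) by omega, pow_add, h, ← pow_succ',
      show N - 2 + 1 = N - 1 by omega]
  · rw [← pow_succ, show N - 1 + 1 = N by omega, h]

/-- left ideals are two-sided -/
private theorem two_sided {B : Type v} [Ring B] {N : ℕ} (hN : 2 ≤ N) (h : ∀ x : B, x ^ N = x)
    (P : Ideal B) : P.IsTwoSided := by
  refine ⟨fun {a} b ha => ?_⟩
  obtain ⟨h1, h2⟩ := idem_of_pow hN h a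
  have hc := idem_central (red_of_pow hN h) _ h1
  have h3 : a ^ (N - 1) ∈ P := by
    rw [show N - 1 = N - 2 + 1 by omega, pow_succ]
    exact P.mul_mem_left _ ha
  rw [← h2, mul_assoc, hc]
  exact P.mul_mem_left _ h3

theorem comm_of_pow {B : Type v} [Ring B] {N : ℕ} (hN : 2 ≤ N) (h : ∀ x : B, x ^ N = x) (x y : B) :
    x * y = y * x := by
  by_contra hxy
  obtain ⟨z, hz⟩ : ∃ z, z = x * y - y * x := ⟨_, rfl⟩
  have hz0 : z ≠ 0 := by
    rw [hz]
    exact sub_ne_zero.2 hxy
  obtain ⟨h1, h2⟩ := idem_of_pow hN h z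
  have he0 : z ^ (N - 1) ≠ 0 := by
    intro h3
    rw [h3, zero_mul] at h2
    exact hz0 h2.symm
  have hpr : Ideal.span {1 - z ^ (N - 1)} ≠ (⊤ : Ideal B) := by
    intro h3
    have h4 : (1 : B) ∈ Ideal.span {1 - z ^ (N - 1)} := by rw [h3]; trivial
    obtain ⟨a, ha⟩ := Ideal.mem_span_singleton'.1 h4
    apply he0
    have h5 : a * (1 - z ^ (N - 1)) * z ^ (N - 1) = 0 := by
      rw [mul_assoc, sub_mul, one_mul, h1, sub_self, mul_zero]
    rwa [ha, one_mul] at h5
  obtain ⟨P, hP, hle⟩ := Ideal.exists_le_maximal _ hpr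
  haveI := two_sided hN h P
  have h1P : 1 - z ^ (N - 1) ∈ P := hle (Ideal.mem_span_singleton_self _)
  have hq : ∀ w : B ⧸ P, w ^ N = w := by
    intro w
    obtain ⟨w, rfl⟩ := Ideal.Quotient.mk_surjective w
    rw [← map_pow, h]
  have hnt : Nontrivial (B ⧸ P) := Ideal.Quotient.nontrivial_iff.2 hP.ne_top
  have hdiv : ∀ w : B ⧸ P, IsUnit w ∨ w = 0 := by
    intro w
    by_cases hw : w = 0
    · exact Or.inr hw
    left
    obtain ⟨w, rfl⟩ := Ideal.Quotient.mk_surjective w
    have hwP : w ∉ P := fun h3 => hw (Ideal.Quotient.eq_zero_iff_mem.2 h3)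
    have h3 : P ⊔ Ideal.span {w} = ⊤ := by
      refine hP.1.2 _ (lt_of_le_of_ne le_sup_left fun h4 => hwP ?_)
      rw [h4]
      exact Ideal.mem_sup_right (Ideal.mem_span_singleton_self _)
    have h4 : (1 : B) ∈ P ⊔ Ideal.span {w} := by rw [h3]; trivial
    obtain ⟨a, ha, b, hb, hab⟩ := Submodule.mem_sup.1 h4
    obtain ⟨c, rfl⟩ := Ideal.mem_span_singleton'.1 hb
    have h5 : Ideal.Quotient.mk P c * Ideal.Quotient.mk P w = 1 := by
      rw [← map_mul, ← map_one (Ideal.Quotient.mk P), ← hab, map_add,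
        Ideal.Quotient.eq_zero_iff_mem.2 ha, zero_add]
    have h6 : Ideal.Quotient.mk P w ^ (N - 1) = 1 := by
      have h7 := hq (Ideal.Quotient.mk P w)
      rw [show N = N - 1 + 1 by omega, pow_succ'] at h7
      have h8 := congrArg (fun t => Ideal.Quotient.mk P c * t) h7
      simp only [← mul_assoc, h5, one_mul] at h8
      exact h8
    have h9 : Ideal.Quotient.mk P w * Ideal.Quotient.mk P w ^ (N - 2) = 1 := by
      rw [← pow_succ', show N - 2 + 1 = N - 1 by omega, h6]
    have h10 : Ideal.Quotient.mk P w ^ (N - 2) * Ideal.Quotient.mk P w = 1 := by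
      rw [← pow_succ, show N - 2 + 1 = N - 1 by omega, h6]
    exact ⟨⟨_, _, h9, h10⟩, rfl⟩
  letI : DivisionRing (B ⧸ P) := DivisionRing.ofIsUnitOrEqZero hdiv
  have h3 := div_comm_of_pow hN hq (Ideal.Quotient.mk P y) (Ideal.Quotient.mk P x)
  have h4 : z ∈ P := by
    rw [← Ideal.Quotient.eq_zero_iff_mem, hz, map_sub, map_mul, map_mul, sub_eq_zero]
    exact h3
  have h5 : z ^ (N - 1) ∈ P := by
    rw [show N - 1 = N - 2 + 1 by omega, pow_succ]
    exact P.mul_mem_left _ h4
  apply hP.ne_top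
  rw [Ideal.eq_top_iff_one]
  have h6 := P.add_mem h1P h5
  rwa [sub_add_cancel] at h6

end VRR
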