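import Pool.Agent.VCR.Fo
import Pool.Agent.VCR.TreeA

/-!
# VRR-Ort: no large orthogonal families of idempotents with bad corners

`Pm m e`: the corner of `e` satisfies `x ^ (m! + 1) = x`.  In a strongly regular ring with a calculus there is `n`
such that there are no orthogonal idempotents `e 0, ..., e (n - 1)` with `¬ Pm i (e i)`.
-/

open Set VCR

namespace VRR

universe v

/-- the corner of `e` satisfies `x ^ (m! + 1) = x` -/
def Pm {S : Type v} [Ring S] (m : ℕ) (e : S) : Prop := ∀ x, e * x ^ (m.factorial + 1) = e * x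

private def tT {Z : Type v} (A : ℕ → Set Z) : List Bool → Set Z
  | [] => univ
  | i :: s => {x | x ∈ tT A s ∧ (x ∈ A s.length ↔ i = true)}

private theorem tTmem {Z : Type v} (A : ℕ → Set Z) (s : List Bool) :
    ∃ ε : ℕ → Bool, ∀ x, (∀ j < s.length, (x ∈ A j ↔ ε j = true)) → x ∈ tT A s := by
  induction s with
  | nil => exact ⟨fun _ => true, fun x _ => mem_univ x⟩
  | cons i s ih =>
    obtain ⟨ε, hε⟩ := ih
    refine ⟨Function.update ε s.length i, fun x hx => ⟨hε x fun j hj => ?_, ?_⟩⟩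
    · have h1 := hx j (by rw [List.length_cons]; omega)
      rwa [Function.update_of_ne hj.ne] at h1
    · have h1 := hx s.length (by rw [List.length_cons]; omega)
      rwa [Function.update_self] at h1

theorem no_indep' {X : Type v} (𝓓 : Calc X) {α : Type} [Finite α] (A : ℕ → Set (α → X))
    (hA : ∀ n, A n ∈ 𝓓.D α)
    (h : ∀ (n : ℕ) (ε : ℕ → Bool), ∃ x, ∀ i < n, (x ∈ A i ↔ ε i = true)) : False := by
  refine 𝓓.small (tT A) ⟨?_, ?_, ?_⟩ ?_
  · intro s
    obtain ⟨ε, hε⟩ := tTmem A s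
    obtain ⟨x, hx⟩ := h s.length ε
    exact ⟨x, hε x hx⟩
  · intro i s x hx
    exact hx.1
  · intro s
    rw [Set.disjoint_left]
    intro x hx hx'
    have h1 := hx'.2.2 rfl
    have h2 := hx.2.1 h1
    cases h2
  · intro s
    induction s with
    | nil => exact 𝓓.univ
    | cons i s ih => exact Dp.and ih (Dp.iff (hA s.length) (Dp.const (i = true)))

private theorem piece {S : Type v} [Ring S] (hcen : ∀ e : S, e * e = e → ∀ r, e * r = r * e)
    (hreg : ∀ r : S, ∃ x, r * x * r = r ∧ r * x = x * r) (m : ℕ) (e : S) (he : e * e = e)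
    (hP : ¬ Pm m e) : ∃ f x l r s : S, f * f = f ∧ f ≠ 0 ∧ f * e = f ∧ l * x = f ∧ x * r = f ∧
      (x ^ m.factorial - 1) * s = f := by
  unfold Pm at hP
  push Not at hP
  obtain ⟨x, hx⟩ := hP
  obtain ⟨w, hw⟩ : ∃ w, w = x ^ m.factorial - 1 := ⟨_, rfl⟩
  obtain ⟨y, hy⟩ : ∃ y, y = e * (x * w) := ⟨_, rfl⟩
  have hxw : x * w = w * x := by
    rw [hw, mul_sub, sub_mul, mul_one, one_mul, ← pow_succ, ← pow_succ']
  have hy0 : y ≠ 0 := by
    intro h0
    apply hx
    rw [hy, hxw, hw, sub_mul, one_mul, mul_sub, ← pow_succ, sub_eq_zero] at h0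
    exact h0
  obtain ⟨u, hu1, hu2⟩ := hreg y
  have hc := hcen e he
  have hye : y * e = y := by
    rw [hy, mul_assoc, ← hc, ← mul_assoc, he]
  refine ⟨y * u, x, u * e * w, e * w * u, e * x * u, ?_, ?_, ?_, ?_, ?_, ?_⟩
  · rw [← mul_assoc, hu1]
  · intro h0
    apply hy0
    rw [← hu1, h0, zero_mul]
  · rw [hu2, mul_assoc, hye]
  · rw [hu2, hy, hxw]
    simp only [mul_assoc]
  · rw [hy]
    simp only [← mul_assoc]
    rw [← hc x]
  · rw [hy, hxw, ← hw]
    simp only [← mul_assoc]
    rw [← hc w]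

theorem no_family {S : Type v} [Ring S] (𝓓 : Calc S) [RC 𝓓]
    (hcen : ∀ e : S, e * e = e → ∀ r, e * r = r * e)
    (hreg : ∀ r : S, ∃ x, r * x * r = r ∧ r * x = x * r) :
    ∃ n : ℕ, ¬ ∃ e : ℕ → S, (∀ i < n, e i * e i = e i ∧ ¬ Pm i (e i)) ∧
      ∀ i < n, ∀ j < n, i ≠ j → e i * e j = 0 := by
  by_contra hcon
  push Not at hcon
  refine no_indep' 𝓓 (α := Bool) (fun k => {q | ∃ e, e * e = e ∧ e ≠ 0 ∧ (∃ s, e * (q false * s) = e) ∧
    (∀ j ∈ Finset.range k, ∃ s, e * ((q false ^ (j + 1) - 1) * s) = e) ∧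
    e * q true = e * q false ^ k}) (fun k => ?_) (fun n ε => ?_)
  · have h1 : Dp 𝓓 (fun q : Bool → S => ∃ e, e * e = e ∧ e ≠ 0 ∧ (∃ s, e * (q false * s) = e) ∧
        (∀ j ∈ Finset.range k, ∃ s, e * ((q false ^ (j + 1) - 1) * s) = e) ∧
        e * q true = e * q false ^ k) := by
      repeat' first | assumption | exact Df.var _ | exact Df.zero | exact Df.one | refine Df.add ?_ ?_ | refine Df.mul ?_ ?_ | refine Df.subt ?_ ?_ | refine Df.neg ?_ | refine Df.pow ?_ _ | refine Dp.eq ?_ ?_ | refine Dp.ne ?_ ?_ | refine Dp.and ?_ ?_ | refine Dp.ball _ (fun _ _ => ?_) | refine Dp.ex ?_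
    exact h1
  obtain ⟨e, he, hort⟩ := hcon n
  have hp : ∀ i, ∃ f x l r s : S, i < n → (f * f = f ∧ f ≠ 0 ∧ f * e i = f ∧ l * x = f ∧ x * r = f ∧
      (x ^ i.factorial - 1) * s = f) := by
    intro i
    by_cases hi : i < n
    · obtain ⟨f, x, l, r, s, h⟩ := piece hcen hreg i (e i) (he i hi).1 (he i hi).2
      exact ⟨f, x, l, r, s, fun _ => h⟩
    · exact ⟨0, 0, 0, 0, 0, fun h => absurd h hi⟩
  choose f x l r s hfs using hp
  have hff : ∀ i < n, f i * f i = f i := fun i hi => (hfs i hi).1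
  have hf0 : ∀ i < n, f i ≠ 0 := fun i hi => (hfs i hi).2.1
  have hfe : ∀ i < n, f i * e i = f i := fun i hi => (hfs i hi).2.2.1
  have hlx : ∀ i < n, l i * x i = f i := fun i hi => (hfs i hi).2.2.2.1
  have hxr : ∀ i < n, x i * r i = f i := fun i hi => (hfs i hi).2.2.2.2.1
  have hxs : ∀ i < n, (x i ^ i.factorial - 1) * s i = f i := fun i hi => (hfs i hi).2.2.2.2.2
  have hfc : ∀ i < n, ∀ z, f i * z = z * f i := fun i hi => hcen _ (hff i hi)
  have hfo : ∀ i < n, ∀ j < n, i ≠ j → f i * f j = 0 := by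
    intro i hi j hj hij
    rw [← hfe i hi, ← hfe j hj, hfc j hj (e j)]
    calc f i * e i * (e j * f j) = f i * (e i * e j) * f j := by simp only [mul_assoc]
      _ = 0 := by rw [hort i hi j hj hij, mul_zero, zero_mul]
  obtain ⟨t, ht⟩ : ∃ t, t = ∑ i ∈ Finset.range n, f i * x i := ⟨_, rfl⟩
  obtain ⟨a, ha⟩ : ∃ a, a = ∑ i ∈ Finset.range n, f i * (if ε i = true then x i ^ i else 0) := ⟨_, rfl⟩
  have hsum : ∀ i < n, ∀ e', e' * f i = e' → ∀ g : ℕ → S,
      e' * ∑ j ∈ Finset.range n, f j * g j = e' * g i := by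
    intro i hi e' he' g
    rw [Finset.mul_sum, Finset.sum_eq_single i]
    · rw [← mul_assoc, he']
    · intro j hj hji
      rw [← he', mul_assoc, ← mul_assoc (f i), hfo i hi j (Finset.mem_range.1 hj) (Ne.symm hji), zero_mul,
        mul_zero]
    · intro h
      exact absurd (Finset.mem_range.2 hi) h
  have het : ∀ i < n, ∀ e', e' * f i = e' → e' * t = e' * x i := fun i hi e' he' => by
    rw [ht, hsum i hi e' he']
  have hea : ∀ i < n, ∀ e', e' * f i = e' → e' * a = e' * (if ε i = true then x i ^ i else 0) :=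
    fun i hi e' he' => by rw [ha, hsum i hi e' he']
  have hetn : ∀ i < n, ∀ e', e' * f i = e' → e' * e' = e' → ∀ j : ℕ, e' * t ^ j = e' * x i ^ j := by
    intro i hi e' he' hee j
    have hc := hcen e' hee
    induction j with
    | zero => rw [pow_zero, pow_zero]
    | succ j ih =>
      rw [pow_succ, pow_succ, ← mul_assoc, ih, hc (x i ^ j), mul_assoc, het i hi e' he', ← mul_assoc,
        ← hc (x i ^ j), mul_assoc]
  refine ⟨fun b => if b then a else t, fun k hk => ?_⟩
  show (∃ e, e * e = e ∧ e ≠ 0 ∧ (∃ s, e * (t * s) = e) ∧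
    (∀ j ∈ Finset.range k, ∃ s, e * ((t ^ (j + 1) - 1) * s) = e) ∧ e * a = e * t ^ k) ↔ ε k = true
  constructor
  · rintro ⟨E, hE, hE0, ⟨w, hw⟩, hj, hEa⟩
    by_contra hε
    have hEc := hcen E hE
    -- some `f i` meets `E`
    have hi : ∃ i < n, E * f i ≠ 0 := by
      by_contra hno
      push Not at hno
      apply hE0
      rw [← hw, ht, ← mul_assoc, Finset.mul_sum]
      rw [Finset.sum_eq_zero fun i hi => ?_, zero_mul]
      rw [← mul_assoc, hno i (Finset.mem_range.1 hi), zero_mul]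
    obtain ⟨i, hi, hEf⟩ := hi
    obtain ⟨e', he'⟩ : ∃ e', e' = E * f i := ⟨_, rfl⟩
    have he'0 : e' ≠ 0 := by rw [he']; exact hEf
    have hee : e' * e' = e' := by
      rw [he']
      calc E * f i * (E * f i) = E * (f i * E) * f i := by simp only [mul_assoc]
        _ = (E * E) * (f i * f i) := by rw [hfc i hi E]; simp only [mul_assoc]
        _ = E * f i := by rw [hE, hff i hi]
    have hef : e' * f i = e' := by rw [he', mul_assoc, hff i hi]
    have heE : e' * E = e' := by
      rw [he', mul_assoc, hfc i hi E, ← mul_assoc, hE]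
    have hec := hcen e' hee
    have h1 : e' * a = e' * x i ^ k := by
      rw [← hetn i hi e' hef hee k, ← heE, mul_assoc, mul_assoc, hEa]
    rw [hea i hi e' hef] at h1
    -- `x i` is invertible below `e'`
    have hlp : ∀ j : ℕ, e' * (l i ^ j * x i ^ j) = e' := by
      intro j
      induction j with
      | zero => rw [pow_zero, pow_zero, mul_one, mul_one]
      | succ j ih =>
        rw [pow_succ, pow_succ']
        calc e' * (l i ^ j * l i * (x i * x i ^ j)) = e' * (l i ^ j * (l i * x i) * x i ^ j) := by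
              simp only [mul_assoc]
          _ = e' * (f i * l i ^ j * x i ^ j) := by rw [hlx i hi, hfc i hi]
          _ = (e' * f i) * (l i ^ j * x i ^ j) := by simp only [mul_assoc]
          _ = e' := by rw [hef, ih]
    have hcancel : ∀ (j : ℕ) (y : S), e' * (x i ^ j * y) = 0 → e' * y = 0 := by
      intro j y hy
      rw [← hlp j]
      calc e' * (l i ^ j * x i ^ j) * y = (e' * l i ^ j) * (x i ^ j * y) := by simp only [mul_assoc]
        _ = l i ^ j * (e' * (x i ^ j * y)) := by rw [hec (l i ^ j), mul_assoc]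
        _ = 0 := by rw [hy, mul_zero]
    by_cases hεi : ε i = true
    · rw [if_pos hεi] at h1
      have hik : i ≠ k := fun h => hε (h ▸ hεi)
      rcases lt_or_gt_of_ne hik with hlt | hgt
      · -- `i < k`
        have h2 : e' * (x i ^ (k - i) - 1) = 0 := by
          refine hcancel i _ ?_
          rw [mul_sub, mul_one, ← pow_add, show i + (k - i) = k by omega, mul_sub, ← h1, sub_self]
        obtain ⟨w', hw'⟩ := hj (k - i - 1) (Finset.mem_range.2 (by omega))
        apply he'0
        rw [← heE, ← hw', ← mul_assoc, heE, ← mul_assoc, mul_sub, hetn i hi e' hef hee, ← mul_sub,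
          show k - i - 1 + 1 = k - i by omega, h2, zero_mul]
      · have h2 : e' * (x i ^ (i - k) - 1) = 0 := by
          refine hcancel k _ ?_
          rw [mul_sub, mul_one, ← pow_add, show k + (i - k) = i by omega, mul_sub, h1, sub_self]
        have hdv : (i - k) ∣ i.factorial := Nat.dvd_factorial (by omega) (by omega)
        obtain ⟨c, hc⟩ := hdv
        apply he'0
        rw [← hef, ← hxs i hi, hc, pow_mul, ← mul_geom_sum, ← mul_assoc, ← mul_assoc, h2, zero_mul,
          zero_mul]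
    · rw [if_neg hεi, mul_zero] at h1
      have h2 := hcancel k 1 (by rw [mul_one]; exact h1.symm)
      rw [mul_one] at h2
      exact he'0 h2
  · intro hε
    have hff' := hff k hk
    refine ⟨f k, hff', hf0 k hk, ⟨r k, ?_⟩, fun j hj => ?_, ?_⟩
    · rw [← mul_assoc, het k hk _ hff', mul_assoc, hxr k hk, hff']
    · have hdv : (j + 1) ∣ k.factorial := Nat.dvd_factorial (by omega) (by
        have := Finset.mem_range.1 hj
        omega)
      obtain ⟨c, hc⟩ := hdv
      refine ⟨(∑ i ∈ Finset.range c, (x k ^ (j + 1)) ^ i) * s k, ?_⟩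
      rw [← mul_assoc, mul_sub, hetn k hk _ hff' hff', ← mul_sub]
      calc f k * (x k ^ (j + 1) - 1) * ((∑ i ∈ Finset.range c, (x k ^ (j + 1)) ^ i) * s k) =
          f k * (((x k ^ (j + 1) - 1) * ∑ i ∈ Finset.range c, (x k ^ (j + 1)) ^ i) * s k) := by
            simp only [mul_assoc]
        _ = f k * ((x k ^ k.factorial - 1) * s k) := by rw [mul_geom_sum, ← pow_mul, ← hc]
        _ = f k := by rw [hxs k hk, hff']
    · rw [hea k hk _ hff', if_pos hε, hetn k hk _ hff' hff']

end VRR
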