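import Pool.Agent.VRR.Ort

/-!
# VRR-Pur: the pure part of a strongly regular ring with a calculus

There is a central idempotent `h` such that the corner of `1 - h` satisfies an identity `x ^ (m! + 1) = x`, no nonzero
idempotent below `h` has a corner with such an identity, and there are only finitely many idempotents below `h`.
-/

open Set VCR

namespace VRR

universe v

theorem Pm.mono {S : Type v} [Ring S] {m m' : ℕ} (h : m ≤ m') {e : S} (he : Pm m e) : Pm m' e := by
  intro x
  obtain ⟨c, hc⟩ := Nat.factorial_dvd_factorial h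
  have h1 : ∀ c : ℕ, e * x ^ (c * m.factorial + 1) = e * x := by
    intro c
    induction c with
    | zero => rw [zero_mul, zero_add, pow_one]
    | succ c ih =>
      rw [show (c + 1) * m.factorial + 1 = c * m.factorial + 1 + m.factorial by ring, pow_add,
        ← mul_assoc, ih, mul_assoc, ← pow_succ', he x]
  rw [hc, mul_comm m.factorial c]
  exact h1 c

theorem Pm.below {S : Type v} [Ring S] {m : ℕ} {e e' : S} (he : Pm m e) (h : e' * e = e') :
    Pm m e' := by
  intro x
  rw [← h, mul_assoc, he x, mul_assoc]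

theorem Pm.add {S : Type v} [Ring S] {m : ℕ} {e e' : S} (he : Pm m e) (he' : Pm m e') :
    Pm m (e + e') := by
  intro x
  rw [add_mul, add_mul, he x, he' x]

private theorem build {S : Type v} [Ring S] (hcen : ∀ e : S, e * e = e → ∀ r, e * r = r * e)
    (K : S → Prop) (G : ℕ → S → Prop) (K0 : K 0)
    (h : ∀ n f, f * f = f → K f → ∃ E, E * E = E ∧ E * f = 0 ∧ G n E ∧ K (f + E)) (n : ℕ) :
    ∃ (e : ℕ → S) (f : S), f * f = f ∧ K f ∧ (∀ i < n, e i * e i = e i ∧ G i (e i) ∧ e i * f = e i) ∧
      ∀ i < n, ∀ j < n, i ≠ j → e i * e j = 0 := by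
  induction n with
  | zero => exact ⟨fun _ => 0, 0, mul_zero 0, K0, fun i hi => absurd hi (Nat.not_lt_zero i),
      fun i hi => absurd hi (Nat.not_lt_zero i)⟩
  | succ n ih =>
    obtain ⟨e, f, hf, hKf, he, hort⟩ := ih
    obtain ⟨E, hE, hEf, hG, hK⟩ := h n f hf hKf
    have hfE : f * E = 0 := by rw [hcen f hf, hEf]
    have heE : ∀ i < n, e i * E = 0 := by
      intro i hi
      rw [← (he i hi).2.2, mul_assoc, hfE, mul_zero]
    refine ⟨fun j => if j = n then E else e j, f + E, ?_, hK, fun i hi => ?_, fun i hi j hj hij => ?_⟩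
    · rw [mul_add, add_mul, add_mul, hf, hfE, hEf, hE, zero_add, add_zero]
    · beta_reduce
      by_cases hin : i = n
      · subst hin
        rw [if_pos rfl]
        exact ⟨hE, hG, by rw [mul_add, hEf, hE, zero_add]⟩
      · rw [if_neg hin]
        have hi' : i < n := by omega
        exact ⟨(he i hi').1, (he i hi').2.1, by rw [mul_add, (he i hi').2.2, heE i hi', add_zero]⟩
    · show (if i = n then E else e i) * (if j = n then E else e j) = 0
      by_cases hin : i = n
      · have hjn : j ≠ n := fun h => hij (hin.trans h.symm)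
        rw [if_pos hin, if_neg hjn, hcen E hE, heE j (by omega)]
      · rw [if_neg hin]
        by_cases hjn : j = n
        · rw [if_pos hjn, heE i (by omega)]
        · rw [if_neg hjn]
          exact hort i (by omega) j (by omega) hij

theorem exists_pure {S : Type v} [Ring S] (𝓓 : Calc S) [RC 𝓓]
    (hcen : ∀ e : S, e * e = e → ∀ r, e * r = r * e)
    (hreg : ∀ r : S, ∃ x, r * x * r = r ∧ r * x = x * r) :
    ∃ (h : S) (m n : ℕ), h * h = h ∧ Pm m (1 - h) ∧
      (∀ e, e * e = e → e * h = e → e ≠ 0 → ∀ k, ¬ Pm k e) ∧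
      ∀ (k : ℕ) (e : Fin k → S), (∀ i, e i * e i = e i ∧ e i ≠ 0 ∧ e i * h = e i) →
        (∀ i j, i ≠ j → e i * e j = 0) → k ≤ n := by
  obtain ⟨n₀, hn₀⟩ := no_family 𝓓 hcen hreg
  have hA : ∃ m₀, ∀ e, e * e = e → (∃ m, Pm m e) → Pm (S := S) m₀ e := by
    by_contra hcon
    push Not at hcon
    obtain ⟨e, f, -, -, he, hort⟩ := build hcen (fun f => ∃ m, Pm m f) (fun n E => ¬ Pm n E)
      ⟨0, fun x => by rw [zero_mul, zero_mul]⟩ (fun n f hf ⟨m, hm⟩ => by
        obtain ⟨E, hE, ⟨k, hk⟩, hEm⟩ := hcon (max m n)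
        have hfE : f * E = E * f := hcen f hf E
        have hEE : (E - E * f) * (E - E * f) = E - E * f := by
          have h1 : E * f * E = E * f := by rw [mul_assoc, hfE, ← mul_assoc, hE]
          have h2 : E * f * (E * f) = E * f := by rw [← mul_assoc, h1, mul_assoc, hf]
          rw [mul_sub, sub_mul, sub_mul, hE, h1, h2, ← mul_assoc, hE, sub_self, sub_zero]
        have hEf : (E - E * f) * f = 0 := by
          rw [sub_mul, mul_assoc, hf, sub_self]
        have hEE' : (E - E * f) * E = E - E * f := by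
          rw [sub_mul, hE, mul_assoc, hfE, ← mul_assoc, hE]
        refine ⟨E - E * f, hEE, hEf, fun hP => ?_, max m k, ?_⟩
        · apply hEm
          have h1 := (hP.mono (le_max_right m n)).add
            ((hm.mono (le_max_left m n)).below (e' := E * f) (by rw [mul_assoc, hf]))
          rwa [sub_add_cancel] at h1
        · exact (hm.mono (le_max_left m k)).add ((hk.mono (le_max_right m k)).below hEE')) n₀
    exact hn₀ ⟨e, fun i hi => ⟨(he i hi).1, (he i hi).2.1⟩, hort⟩
  obtain ⟨m₀, hm₀⟩ := hA
  have hB : ∃ h : S, h * h = h ∧ (∀ e, e * e = e → e * h = e → (∃ m, Pm m e) → e = 0) ∧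
      Pm m₀ (1 - h) := by
    by_contra hcon
    push Not at hcon
    obtain ⟨e, f, -, -, he, hort⟩ := build hcen
      (fun f => ∀ e, e * e = e → e * f = e → (∃ m, Pm m e) → e = 0) (fun n E => ¬ Pm n E)
      (fun e _ h0 _ => by rw [← h0, mul_zero]) (fun n f hf hpf => by
        have h1 := hcon f hf hpf
        unfold Pm at h1
        push Not at h1
        obtain ⟨x, hx⟩ := h1
        obtain ⟨y, hy⟩ : ∃ y, y = (1 - f) * (x ^ (m₀.factorial + 1) - x) := ⟨_, rfl⟩
        have hy0 : y ≠ 0 := by
          rw [hy, mul_sub]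
          exact sub_ne_zero.2 hx
        have hff : (1 - f) * (1 - f) = 1 - f := by
          rw [mul_sub, mul_one, sub_mul, one_mul, hf, sub_self, sub_zero]
        have hc := hcen _ hff
        obtain ⟨u, hu1, hu2⟩ := hreg y
        have hzf : (1 - f) * f = 0 := by rw [sub_mul, one_mul, hf, sub_self]
        have hyf : y * f = 0 := by
          rw [hy, hc, mul_assoc, hzf, mul_zero]
        have hEE : y * u * (y * u) = y * u := by rw [← mul_assoc, hu1]
        have hE0 : y * u ≠ 0 := by
          intro h0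
          apply hy0
          rw [← hu1, h0, zero_mul]
        have hEf : y * u * f = 0 := by rw [hu2, mul_assoc, hyf, mul_zero]
        have hpure : ∀ e, e * e = e → e * (y * u) = e → (∃ m, Pm m e) → e = 0 := by
          intro e he hey hs
          have h2 := hm₀ e he hs x
          have h3 : e * y = 0 := by
            rw [hy, ← mul_assoc, hcen e he (1 - f), mul_assoc, mul_sub, h2, sub_self, mul_zero]
          rw [← hey, ← mul_assoc, h3, zero_mul]
        refine ⟨y * u, hEE, hEf, fun hP => hE0 (hpure _ hEE hEE ⟨n, hP⟩), fun e he hef hs => ?_⟩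
        obtain ⟨m, hm⟩ := hs
        have hec := hcen e he
        have h4 : e * f = 0 := by
          refine hpf _ ?_ ?_ ⟨m, hm.below ?_⟩
          · rw [mul_assoc, ← mul_assoc f, ← hec f, mul_assoc e f f, hf, ← mul_assoc, he]
          · rw [mul_assoc, hf]
          · rw [mul_assoc, ← hec f, ← mul_assoc, he]
        have h5 : e * (y * u) = 0 := by
          refine hpure _ ?_ ?_ ⟨m, hm.below ?_⟩
          · rw [mul_assoc, ← mul_assoc (y * u), ← hec (y * u), mul_assoc e (y * u) (y * u), hEE,
              ← mul_assoc, he]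
          · rw [mul_assoc, hEE]
          · rw [mul_assoc, ← hec (y * u), ← mul_assoc, he]
        rw [← hef, mul_add, h4, h5, add_zero]) n₀
    exact hn₀ ⟨e, fun i hi => ⟨(he i hi).1, (he i hi).2.1⟩, hort⟩
  obtain ⟨h, hh, hpure, hP⟩ := hB
  refine ⟨h, m₀, n₀, hh, hP, fun e he heh he0 k hk => he0 (hpure e he heh ⟨k, hk⟩), fun k e he hort => ?_⟩
  by_contra hk
  push Not at hk
  apply hn₀
  refine ⟨fun i => if hi : i < k then e ⟨i, hi⟩ else 0, fun i hi => ?_, fun i hi j hj hij => ?_⟩
  · have hik : i < k := by omega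
    beta_reduce
    rw [dif_pos hik]
    exact ⟨(he _).1, fun h1 => (he ⟨i, hik⟩).2.1 (hpure _ (he _).1 (he _).2.2 ⟨i, h1⟩)⟩
  · have hik : i < k := by omega
    have hjk : j < k := by omega
    beta_reduce
    rw [dif_pos hik, dif_pos hjk]
    exact hort _ _ fun h1 => hij (congrArg Fin.val h1)

end VRR
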