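import Pool.Agent.VCR.TreeB
import Pool.Agent.VCR.Adj

/-!
# VRR-Rep: in a field with a calculus the `q`-th powers have finite index

As `VCR-RootA`, in any characteristic.
-/

open Set VCR

namespace VRR

universe v

private theorem reps_unit {K : Type v} [Field K] (𝓓 : Calc K) [RC 𝓓] (q : ℕ) (hq : q.Prime)
    (c : Kˣ) : ∃ ζ w : Kˣ, (∃ n : ℕ, ζ ^ (q ^ n) = 1) ∧ c = ζ * w ^ q := by
  by_contra hcon
  push Not at hcon
  obtain ⟨𝓔, hle, hc⟩ := exists_adj_one 𝓓 (c : K)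
  have hrc : RC 𝓔 := RC.mono hle
  refine no_mul_chain 𝓔 (fun n => (powMonoidHom (q ^ n) : Kˣ →* Kˣ).range) (fun n => ?_)
    (fun n => ?_) (fun n => c ^ (q ^ n)) (fun n => ?_) (fun n => ?_) (fun n => ?_)
  · have h1 : DS 𝓔 {x : K | x ≠ 0 ∧ ∃ y, x = y ^ (q ^ n)} := by ((try unfold DS); (try unfold DF₁); (try unfold DF₂); (try unfold DR₂); repeat' first | assumption | exact Df.var _ | exact Df.zero | exact Df.one | exact Df.natCast _ | (refine DE.app ?_; first | assumption | exact DE.natCast _) | refine Df.add ?_ ?_ | refine Df.mul ?_ ?_ | refine Df.subt ?_ ?_ | refine Df.neg ?_ | refine Df.pow ?_ _ | refine Df.sum _ (fun _ _ => ?_) | (refine DF₁.app (by assumption) ?_) | (refine DF₂.app (by assumption) ?_ ?_) | refine Dp.const _ | refine Dp.not ?_ | refine Dp.eq ?_ ?_ | refine Dp.ne ?_ ?_ | refine Dp.and ?_ ?_ | refine Dp.or ?_ ?_ | refine Dp.iff ?_ ?_ | refine Dp.imp ?_ ?_ | (refine DS.app (by assumption) ?_) | (refine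 DR₂.app (by assumption) ?_ ?_) | refine Dp.isUnit ?_ | refine Dp.ball _ (fun _ _ => ?_) | refine Dp.ex ?_ | refine Dp.all ?_ | refine Dp.allfin (fun _ => ?_) | refine Dp.exfin (fun _ => ?_))
    refine Dp.congr (fun f => ?_) h1
    constructor
    · rintro ⟨h0, y, hy⟩
      have hy0 : y ≠ 0 := by
        rintro rfl
        apply h0
        rw [hy, zero_pow (pow_ne_zero _ hq.ne_zero)]
      exact ⟨(Units.mk0 y hy0) ^ (q ^ n), ⟨Units.mk0 y hy0, rfl⟩, by simp [hy]⟩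
    · rintro ⟨u, ⟨v, hv⟩, hu⟩
      refine ⟨hu ▸ u.ne_zero, (v : K), ?_⟩
      rw [← hu, ← hv]
      simp
  · rintro _ ⟨v, rfl⟩
    refine ⟨v ^ q, ?_⟩
    simp only [powMonoidHom_apply]
    rw [← pow_mul, pow_succ, mul_comm]
  · have h2 := DE.pow hc (q ^ n)
    simpa using h2
  · exact ⟨c, rfl⟩
  · rintro ⟨w, hw⟩
    simp only [powMonoidHom_apply] at hw
    refine hcon (c / w ^ q) w ⟨n, ?_⟩ (by rw [div_mul_cancel])
    rw [div_pow, ← pow_mul, ← hw, pow_succ, mul_comm q (q ^ n), div_self']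

theorem exists_reps {K : Type v} [Field K] (𝓓 : Calc K) [RC 𝓓] (q : ℕ)
    (hq : q.Prime) :
    ∃ G : Finset K, (∀ g ∈ G, g ≠ 0) ∧ ∀ x : K, x ≠ 0 → ∃ g ∈ G, ∃ y, x = g * y ^ q := by
  by_cases hA : ∀ k : ℕ, ∃ ξ : K, IsPrimitiveRoot ξ (q ^ k)
  · refine ⟨{1}, by simp, fun x hx => ⟨1, by simp, ?_⟩⟩
    obtain ⟨ζ, w, ⟨k, hk⟩, hc⟩ := reps_unit 𝓓 q hq (Units.mk0 x hx)
    obtain ⟨ξ, hξ⟩ := hA (k + 1)
    have hpos : 0 < q ^ (k + 1) := pow_pos hq.pos _
    have h1 : IsPrimitiveRoot (ξ ^ q) (q ^ k) := hξ.pow hpos (by rw [pow_succ, mul_comm])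
    have h2 : (ζ : K) ^ (q ^ k) = 1 := by
      have := congrArg (fun u : Kˣ => (u : K)) hk
      simpa using this
    have : NeZero (q ^ k) := ⟨(pow_pos hq.pos _).ne'⟩
    obtain ⟨i, _, hi⟩ := h1.eq_pow_of_pow_eq_one h2
    refine ⟨ξ ^ i * (w : K), ?_⟩
    have h3 : x = (ζ : K) * (w : K) ^ q := by
      have := congrArg (fun u : Kˣ => (u : K)) hc
      simpa using this
    rw [one_mul, h3, ← hi, mul_pow, ← pow_mul, ← pow_mul, mul_comm q i]
  · push Not at hA
    obtain ⟨k, hk⟩ := hA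
    have hpos : 0 < q ^ k := pow_pos hq.pos _
    refine ⟨Polynomial.nthRootsFinset (q ^ k) (1 : K), fun g hg => ?_, fun x hx => ?_⟩
    · have h1 := (Polynomial.mem_nthRootsFinset hpos (1 : K)).1 hg
      rintro rfl
      rw [zero_pow hpos.ne'] at h1
      exact zero_ne_one h1
    · obtain ⟨ζ, w, ⟨n, hn⟩, hc⟩ := reps_unit 𝓓 q hq (Units.mk0 x hx)
      have h3 : x = (ζ : K) * (w : K) ^ q := by
        have := congrArg (fun u : Kˣ => (u : K)) hc
        simpa using this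
      refine ⟨(ζ : K), (Polynomial.mem_nthRootsFinset hpos (1 : K)).2 ?_, (w : K), h3⟩
      have h2 : (ζ : K) ^ (q ^ n) = 1 := by
        have := congrArg (fun u : Kˣ => (u : K)) hn
        simpa using this
      obtain ⟨j, _, hj⟩ := (Nat.dvd_prime_pow hq).1 (orderOf_dvd_of_pow_eq_one h2)
      by_cases hjk : k ≤ j
      · exfalso
        have hne : q ^ (j - k) ≠ 0 := (pow_pos hq.pos _).ne'
        have hdv : q ^ (j - k) ∣ orderOf (ζ : K) := by
          rw [hj]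
          exact pow_dvd_pow _ (Nat.sub_le _ _)
        have h4 := orderOf_pow_of_dvd hne hdv
        have h5 : orderOf ((ζ : K) ^ (q ^ (j - k))) = q ^ k := by
          rw [h4, hj, Nat.pow_div (Nat.sub_le _ _) hq.pos]
          congr 1
          omega
        refine hk ((ζ : K) ^ (q ^ (j - k))) ?_
        rw [← h5]
        exact IsPrimitiveRoot.orderOf _
      · have h6 : orderOf (ζ : K) ∣ q ^ k := by
          rw [hj]
          exact pow_dvd_pow _ (by omega)
        exact orderOf_dvd_iff_pow_eq_one.1 h6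

end VRR
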