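import Pool.Agent.VRR.Dsc
import Pool.Agent.VRR.Fv
import Pool.Agent.VRR.Code
import Pool.Agent.VCR.Defs
import Pool.Agent.VCR.ClsB
import Pool.Agent.VCR.Perf

/-!
# VRR-Srs: structures of the language of rings, coded products
-/

open Set FirstOrder VCR

namespace VRR

/-- a ring isomorphism is an isomorphism of structures -/
theorem leq {R R' : Type} [Ring R] [Ring R'] (φ : R ≃+* R') :
    ∃ e : @FirstOrder.Language.Equiv FirstOrder.Language.ring R R' (rstr R) (rstr R'), ∀ x, e x = φ x := by
  refine ⟨@FirstOrder.Language.Equiv.mk FirstOrder.Language.ring R R' (rstr R) (rstr R') φ.toEquiv ?_ ?_,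
    fun x => rfl⟩
  · intro n f v
    change FirstOrder.ringFunc n at f
    cases f with
    | add => exact map_add φ _ _
    | mul => exact map_mul φ _ _
    | neg => exact map_neg φ _
    | zero => exact map_zero φ
    | one => exact map_one φ
  · intro n r
    exact Empty.elim r

/-- an isomorphism of structures is a ring isomorphism -/
theorem ringEquiv_of_leq {R R' : Type} [Ring R] [Ring R']
    (e : @FirstOrder.Language.Equiv FirstOrder.Language.ring R R' (rstr R) (rstr R')) :
    Nonempty (R ≃+* R') := by
  letI := rstr R
  letI := rstr R'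
  refine ⟨{ e.toEquiv with
    map_mul' := fun x y => ?_
    map_add' := fun x y => ?_ }⟩
  · have h := e.map_fun' FirstOrder.Ring.mulFunc ![x, y]
    exact h
  · have h := e.map_fun' FirstOrder.Ring.addFunc ![x, y]
    exact h

theorem isRingStr_iff {s : Str FirstOrder.Language.ring} {R : Type} [Ring R] : IsRingStr s R ↔
    Nonempty (@FirstOrder.Language.Equiv FirstOrder.Language.ring ℕ R (toStructure s) (rstr R)) := by
  constructor
  · rintro ⟨e, h1, h2, h3, h4, h5⟩
    refine ⟨@FirstOrder.Language.Equiv.mk FirstOrder.Language.ring ℕ R (toStructure s) (rstr R) e ?_ ?_⟩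
    · intro n f v
      change FirstOrder.ringFunc n at f
      cases f with
      | add => exact h1 v
      | mul => exact h2 v
      | neg => exact h3 v
      | zero => exact h4 v
      | one => exact h5 v
    · intro n r
      exact Empty.elim r
  · rintro ⟨e⟩
    letI := toStructure s
    letI := rstr R
    exact ⟨e.toEquiv, fun v => e.map_fun' FirstOrder.Ring.addFunc v, fun v => e.map_fun' FirstOrder.Ring.mulFunc v,
      fun v => e.map_fun' FirstOrder.Ring.negFunc v, fun v => e.map_fun' FirstOrder.Ring.zeroFunc v,
      fun v => e.map_fun' FirstOrder.Ring.oneFunc v⟩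

theorem isRingStr_congr {s : Str FirstOrder.Language.ring} {R R' : Type} [Ring R] [Ring R'] (φ : R ≃+* R')
    (h : IsRingStr s R) : IsRingStr s R' := by
  rw [isRingStr_iff] at h ⊢
  obtain ⟨e⟩ := h
  obtain ⟨e', -⟩ := leq φ
  letI := toStructure s
  letI := rstr R
  letI := rstr R'
  exact ⟨e'.comp e⟩

/-- every countable infinite ring has a code -/
theorem exists_isRingStr (R : Type) [Ring R] [Countable R] [Infinite R] :
    ∃ s : Str FirstOrder.Language.ring, IsRingStr s R := by
  obtain ⟨e⟩ := nonempty_equiv_of_countable (α := ℕ) (β := R)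
  refine ⟨(fun n f v => e.symm ((rstr R).funMap f fun i => e (v i)), fun n r _ => Empty.elim r), ?_⟩
  exact ⟨e, fun v => e.apply_symm_apply _, fun v => e.apply_symm_apply _, fun v => e.apply_symm_apply _,
    fun v => e.apply_symm_apply _, fun v => e.apply_symm_apply _⟩

theorem prodStr_rstr (A B : Type) [Ring A] [Ring B] :
    @prodStr FirstOrder.Language.ring A B (rstr A) (rstr B) = rstr (A × B) := by
  refine FirstOrder.Language.Structure.ext ?_ ?_
  · funext n f v
    change FirstOrder.ringFunc n at f
    cases f <;> rfl
  · funext n r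
    exact Empty.elim r

section General

variable {L : FirstOrder.Language.{0, 0}}

/-- product of isomorphisms with a fixed factor -/
theorem prod_equiv {A A' B B' : Type} [L.Structure A] [L.Structure A'] [L.Structure B] [L.Structure B']
    (e : A ≃[L] A') (e' : B ≃[L] B') :
    Nonempty (@FirstOrder.Language.Equiv L (A × B) (A' × B') (prodStr L A B) (prodStr L A' B')) := by
  refine ⟨@FirstOrder.Language.Equiv.mk L (A × B) (A' × B') (prodStr L A B) (prodStr L A' B')
    (Equiv.prodCongr e.toEquiv e'.toEquiv) ?_ ?_⟩
  · intro n f v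
    exact Prod.ext (e.map_fun' f _) (e'.map_fun' f _)
  · intro n r v
    exact and_congr (e.map_rel' r _) (e'.map_rel' r _)

open scoped Classical in
/-- the code of the product of `A` and the structure coded by `s` -/
noncomputable def pc {A : Type} [L.Structure A] (e : A × ℕ ≃ ℕ) (s : Str L) : Str L :=
  (fun _ f v => e (FirstOrder.Language.Structure.funMap f fun i => (e.symm (v i)).1,
      s.1 _ f fun i => (e.symm (v i)).2),
    fun _ r v => decide (FirstOrder.Language.Structure.RelMap r (fun i => (e.symm (v i)).1)) &&
      s.2 _ r fun i => (e.symm (v i)).2)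

theorem pc_equiv {A : Type} [L.Structure A] (e : A × ℕ ≃ ℕ) (s : Str L) :
    Nonempty (@FirstOrder.Language.Equiv L (A × ℕ) ℕ (@prodStr L A ℕ _ (toStructure s))
      (toStructure (pc e s))) := by
  refine ⟨@FirstOrder.Language.Equiv.mk L (A × ℕ) ℕ (@prodStr L A ℕ _ (toStructure s))
    (toStructure (pc e s)) e ?_ ?_⟩
  · intro n f v
    show e _ = e _
    congr 1
    refine Prod.ext ?_ ?_
    · show FirstOrder.Language.Structure.funMap f _ = FirstOrder.Language.Structure.funMap f _
      congr 1
      funext i
      show (v i).1 = (e.symm (e (v i))).1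
      rw [Equiv.symm_apply_apply]
    · show s.1 n f (fun i => (v i).2) = s.1 n f fun i => (e.symm (e (v i))).2
      simp only [Equiv.symm_apply_apply]
  · intro n r v
    classical
    show (decide (FirstOrder.Language.Structure.RelMap r (fun i => (e.symm (e (v i))).1)) &&
      s.2 _ r fun i => (e.symm (e (v i))).2) = true ↔ _
    simp only [Equiv.symm_apply_apply, Bool.and_eq_true, decide_eq_true_eq]
    exact Iff.rfl

theorem pc_continuous {A : Type} [L.Structure A] (e : A × ℕ ≃ ℕ) : Continuous (pc (L := L) e) := by
  refine Continuous.prodMk ?_ ?_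
  · refine continuous_pi fun n => continuous_pi fun f => continuous_pi fun v => ?_
    have h1 : Continuous fun s : Str L => s.1 n f fun i => (e.symm (v i)).2 :=
      (continuous_apply _).comp ((continuous_apply f).comp ((continuous_apply n).comp continuous_fst))
    exact (continuous_of_discreteTopology (f := fun k : ℕ =>
      e (FirstOrder.Language.Structure.funMap f (fun i => (e.symm (v i)).1), k))).comp h1
  · refine continuous_pi fun n => continuous_pi fun r => continuous_pi fun v => ?_
    classical
    have h1 : Continuous fun s : Str L => s.2 n r fun i => (e.symm (v i)).2 :=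
      (continuous_apply _).comp ((continuous_apply r).comp ((continuous_apply n).comp continuous_snd))
    exact (continuous_of_discreteTopology (f := fun k : Bool =>
      decide (FirstOrder.Language.Structure.RelMap r (fun i => (e.symm (v i)).1)) && k)).comp h1

theorem model_of_equiv {M N : Type} (iM : L.Structure M) (iN : L.Structure N)
    (e : @FirstOrder.Language.Equiv L M N iM iN) (T : L.Theory)
    (h : @FirstOrder.Language.Theory.Model L M iM T) : @FirstOrder.Language.Theory.Model L N iN T :=
  FirstOrder.Language.StrongHomClass.theory_model e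

theorem model_pc {A : Type} [L.Structure A] (e : A × ℕ ≃ ℕ) (T : L.Theory) (s : Str L) :
    pc e s ∈ VCR.Mod T ↔ s ∈ VCR.Mod (thA A T) := by
  obtain ⟨φ⟩ := pc_equiv e s
  letI := toStructure s
  have h1 := model_thA A T ℕ
  constructor
  · intro h
    refine h1.1 (model_of_equiv (toStructure (pc e s)) (prodStr L A ℕ) ?_ T h)
    exact @FirstOrder.Language.Equiv.symm L _ _ (prodStr L A ℕ) (toStructure (pc e s)) φ
  · intro h
    exact model_of_equiv (prodStr L A ℕ) (toStructure (pc e s)) φ T (h1.2 h)

theorem perfect_of_prod [∀ n, Countable (L.Functions n)] [∀ n, Countable (L.Relations n)]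
    {A : Type} [L.Structure A] (e : A × ℕ ≃ ℕ) (T T' : L.Theory)
    (hT : ∀ s ∈ VCR.Mod T', s ∈ VCR.Mod (thA A T))
    (hc : ∀ s ∈ VCR.Mod T', ∀ s' ∈ VCR.Mod T', Iso (pc e s) (pc e s') → Iso s s') (hP : PerfectMany T') :
    PerfectMany T := by
  obtain ⟨P, hne, hperf, hsub, hiso⟩ := hP
  letI := TopologicalSpace.upgradeIsCompletelyMetrizable (Str L)
  obtain ⟨f, hf1, hf2, hf3⟩ := hperf.exists_nat_bool_injection hne
  have hmem : ∀ x, f x ∈ P := fun x => hf1 ⟨x, rfl⟩
  refine perfectMany_of_cantor T (fun x => pc e (f x)) ((pc_continuous e).comp hf2) (fun x => ?_) fun x y hxy => ?_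
  · exact (model_pc e T (f x)).2 (hT _ (hsub (hmem x)))
  · intro h
    exact hiso (hmem x) (hmem y) (fun h1 => hxy (hf3 h1)) (hc _ (hsub (hmem x)) _ (hsub (hmem y)) h)

end General

end VRR
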