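import Pool.Agent.VRR.Ult
import Pool.Agent.VRR.Rep
import Pool.Agent.VRR.Pow
import Pool.Agent.VRR.Add

/-!
# VRR-Trn: an infinite field with a calculus has all roots and the Artin-Schreier map is onto

In the ultrapower there is an element of infinite order; it is adjoined to the calculus.
-/

open Set VCR Filter

namespace VRR

universe v

private theorem inf_of_order {K : Type v} [Field K] (𝓓 : Calc K) [RC 𝓓] (t : K) (ht0 : t ≠ 0)
    (ht : ∀ n : ℕ, 0 < n → t ^ n ≠ 1) :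
    ∃ 𝓔 : Calc K, RC 𝓔 ∧ {x : K | DE 𝓔 x}.Infinite := by
  obtain ⟨𝓔, hle, h⟩ := exists_adj_one 𝓓 t
  have : RC 𝓔 := RC.mono hle
  refine ⟨𝓔, this, ?_⟩
  have hinj : Function.Injective fun n : ℕ => t ^ n := by
    intro n m hnm
    have hnm' : t ^ n = t ^ m := hnm
    by_contra hne
    rcases lt_or_gt_of_ne hne with h1 | h1
    · refine ht (m - n) (by omega) ?_
      have h2 : t ^ m = t ^ (m - n) * t ^ n := by
        rw [← pow_add]
        congr 1
        omega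
      rw [hnm'] at h2
      exact (mul_eq_right₀ (pow_ne_zero m ht0)).1 h2.symm
    · refine ht (n - m) (by omega) ?_
      have h2 : t ^ n = t ^ (n - m) * t ^ m := by
        rw [← pow_add]
        congr 1
        omega
      rw [← hnm'] at h2
      exact (mul_eq_right₀ (pow_ne_zero n ht0)).1 h2.symm
  exact (Set.infinite_range_of_injective hinj).mono fun x hx => by
    obtain ⟨n, rfl⟩ := hx
    exact DE.pow h n

theorem root_of_calc {K : Type v} [Field K] [Infinite K] (𝓓 : Calc K) [RC 𝓓] (q : ℕ)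
    (hq : q.Prime) (x : K) : ∃ y, y ^ q = x := by
  obtain ⟨U, t, ht0, ht⟩ := exists_inf_order (K := K)
  obtain ⟨𝓔, hE, hinf⟩ := inf_of_order (ult 𝓓 U) t ht0 ht
  obtain ⟨G, hG0, hG⟩ := exists_reps 𝓔 q hq
  obtain ⟨y, hy⟩ := pow_surj 𝓔 hinf q hq.pos G hG0 hG
    (((fun _ => x) : ℕ → K) : Germ (U : Filter ℕ) K)
  obtain ⟨g, rfl⟩ : ∃ g : ℕ → K, ((g : ℕ → K) : Germ (U : Filter ℕ) K) = y :=
    y.inductionOn fun g => ⟨g, rfl⟩
  have h1 : (((fun n => g n ^ q) : ℕ → K) : Germ (U : Filter ℕ) K) =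
      (((fun _ => x) : ℕ → K) : Germ (U : Filter ℕ) K) := hy
  obtain ⟨n, hn⟩ := (Germ.coe_eq.1 h1).exists
  exact ⟨g n, hn⟩

theorem as_of_calc {K : Type v} [Field K] [Infinite K] (𝓓 : Calc K) [RC 𝓓] (p : ℕ)
    [Fact p.Prime] [CharP K p] (x : K) : ∃ y, y ^ p - y = x := by
  obtain ⟨U, t, ht0, ht⟩ := exists_inf_order (K := K)
  obtain ⟨𝓔, hE, hinf⟩ := inf_of_order (ult 𝓓 U) t ht0 ht
  have : CharP (Germ (U : Filter ℕ) K) p := by
    refine charP_of_injective_ringHom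
      (f := ((Germ.coeRingHom (U : Filter ℕ)).comp (Pi.constRingHom ℕ K) : K →+* Germ (U : Filter ℕ) K)) ?_ p
    exact RingHom.injective _
  obtain ⟨y, hy⟩ := as_surj 𝓔 hinf p (((fun _ => x) : ℕ → K) : Germ (U : Filter ℕ) K)
  obtain ⟨g, rfl⟩ : ∃ g : ℕ → K, ((g : ℕ → K) : Germ (U : Filter ℕ) K) = y :=
    y.inductionOn fun g => ⟨g, rfl⟩
  have h1 : (((fun n => g n ^ p - g n) : ℕ → K) : Germ (U : Filter ℕ) K) =
      (((fun _ => x) : ℕ → K) : Germ (U : Filter ℕ) K) := hy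
  obtain ⟨n, hn⟩ := (Germ.coe_eq.1 h1).exists
  exact ⟨g n, hn⟩

end VRR
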