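import Pool.Agent.VCR.Fo

/-!
# VRR-Ult: the ultrapower of a calculus

`star U S` is the set of the tuples of germs which are in `S` almost everywhere.
-/

open Set Filter VCR

namespace VRR

universe v

variable {X : Type v}

/-- the tuples of germs which are almost everywhere in `S` -/
def star (U : Ultrafilter ℕ) {α : Type} (S : Set (α → X)) : Set (α → Germ (U : Filter ℕ) X) :=
  {f | ∃ r : α → ℕ → X, (∀ a, ((r a : ℕ → X) : Germ (U : Filter ℕ) X) = f a) ∧
    ∀ᶠ n in (U : Filter ℕ), (fun a => r a n) ∈ S}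

theorem exists_rep (U : Ultrafilter ℕ) {α : Type} (f : α → Germ (U : Filter ℕ) X) :
    ∃ r : α → ℕ → X, ∀ a, ((r a : ℕ → X) : Germ (U : Filter ℕ) X) = f a := by
  have h : ∀ a, ∃ g : ℕ → X, ((g : ℕ → X) : Germ (U : Filter ℕ) X) = f a := fun a =>
    (f a).inductionOn fun g => ⟨g, rfl⟩
  choose r hr using h
  exact ⟨r, hr⟩

theorem mem_star (U : Ultrafilter ℕ) {α : Type} [Finite α] (S : Set (α → X)) (r : α → ℕ → X) :
    (fun a => ((r a : ℕ → X) : Germ (U : Filter ℕ) X)) ∈ star U S ↔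
      ∀ᶠ n in (U : Filter ℕ), (fun a => r a n) ∈ S := by
  constructor
  · rintro ⟨r', h, h'⟩
    have h1 : ∀ᶠ n in (U : Filter ℕ), ∀ a, r' a n = r a n := by
      rw [eventually_all]
      intro a
      exact Germ.coe_eq.1 (h a)
    filter_upwards [h1, h'] with n h2 h3
    have h4 : (fun a => r a n) = fun a => r' a n := funext fun a => (h2 a).symm
    rw [h4]
    exact h3
  · intro h
    exact ⟨r, fun a => rfl, h⟩

theorem mem_star' (U : Ultrafilter ℕ) {α : Type} [Finite α] (S : Set (α → X))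
    (f : α → Germ (U : Filter ℕ) X) (r : α → ℕ → X)
    (hr : ∀ a, ((r a : ℕ → X) : Germ (U : Filter ℕ) X) = f a) :
    f ∈ star U S ↔ ∀ᶠ n in (U : Filter ℕ), (fun a => r a n) ∈ S := by
  have h : f = fun a => ((r a : ℕ → X) : Germ (U : Filter ℕ) X) := funext fun a => (hr a).symm
  rw [h]
  exact mem_star U S r

private theorem const_mem (U : Ultrafilter ℕ) {α : Type} [Finite α] (S : Set (α → X)) (x : α → X) :
    (fun a => (((fun _ => x a) : ℕ → X) : Germ (U : Filter ℕ) X)) ∈ star U S ↔ x ∈ S := by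
  rw [mem_star U S (fun a _ => x a)]
  constructor
  · intro h
    obtain ⟨n, hn⟩ := h.exists
    exact hn
  · intro h
    exact Eventually.of_forall fun _ => h

/-- the ultrapower of a calculus -/
def ult (𝓓 : Calc X) (U : Ultrafilter ℕ) : Calc (Germ (U : Filter ℕ) X) where
  D α := {S | ∃ S' ∈ 𝓓.D α, S = star U S'}
  univ := fun {α} _ => ⟨univ, 𝓓.univ, by
    ext f
    obtain ⟨r, hr⟩ := exists_rep U f
    rw [mem_star' U _ f r hr]
    simp⟩
  inter := by
    rintro α _ _ _ ⟨S, hS, rfl⟩ ⟨S', hS', rfl⟩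
    refine ⟨S ∩ S', 𝓓.inter hS hS', ?_⟩
    ext f
    obtain ⟨r, hr⟩ := exists_rep U f
    rw [mem_inter_iff, mem_star' U _ f r hr, mem_star' U _ f r hr, mem_star' U _ f r hr,
      ← eventually_and]
    rfl
  compl := by
    rintro α _ _ ⟨S, hS, rfl⟩
    refine ⟨Sᶜ, 𝓓.compl hS, ?_⟩
    ext f
    obtain ⟨r, hr⟩ := exists_rep U f
    rw [mem_compl_iff, mem_star' U _ f r hr, mem_star' U _ f r hr, ← Ultrafilter.eventually_not]
    rfl
  preim := by
    rintro α β _ _ σ _ ⟨S, hS, rfl⟩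
    refine ⟨{f | f ∘ σ ∈ S}, 𝓓.preim σ hS, ?_⟩
    ext f
    obtain ⟨r, hr⟩ := exists_rep U f
    rw [mem_setOf_eq, mem_star' U _ (f ∘ σ) (fun a => r (σ a)) (fun a => hr _),
      mem_star' U _ f r hr]
    rfl
  im := by
    rintro α β _ _ σ _ ⟨S, hS, rfl⟩
    refine ⟨{f | ∃ g ∈ S, g ∘ σ = f}, 𝓓.im σ hS, ?_⟩
    ext f
    obtain ⟨r, hr⟩ := exists_rep U f
    rw [mem_star' U _ f r hr]
    constructor
    · rintro ⟨g, hg, hgf⟩
      obtain ⟨s, hs⟩ := exists_rep U g
      rw [mem_star' U _ g s hs] at hg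
      have h1 : ∀ᶠ n in (U : Filter ℕ), ∀ a, s (σ a) n = r a n := by
        rw [eventually_all]
        intro a
        refine Germ.coe_eq.1 ?_
        rw [hs, hr, ← hgf]
        rfl
      filter_upwards [hg, h1] with n h2 h3
      exact ⟨_, h2, funext h3⟩
    · intro h
      classical
      have h1 : ∀ n, ∃ g : β → X, ((∃ g ∈ S, g ∘ σ = fun a => r a n) → g ∈ S ∧ g ∘ σ = fun a => r a n) := by
        intro n
        by_cases h2 : ∃ g ∈ S, g ∘ σ = fun a => r a n
        · obtain ⟨g, hg, hg'⟩ := h2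
          exact ⟨g, fun _ => ⟨hg, hg'⟩⟩
        · obtain ⟨m, hm⟩ := h.exists
          obtain ⟨g, -⟩ := hm
          exact ⟨g, fun h3 => absurd h3 h2⟩
      choose g hg using h1
      refine ⟨fun b => (((fun n => g n b) : ℕ → X) : Germ (U : Filter ℕ) X), ?_, ?_⟩
      · rw [mem_star U _ (fun b n => g n b)]
        filter_upwards [h] with n hn
        exact (hg n hn).1
      · funext a
        rw [← hr a]
        refine Germ.coe_eq.2 ?_
        filter_upwards [h] with n hn
        exact congrFun (hg n hn).2 a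
  eq := by
    refine ⟨_, 𝓓.eq, ?_⟩
    ext f
    obtain ⟨r, hr⟩ := exists_rep U f
    rw [mem_star' U _ f r hr, mem_setOf_eq, ← hr, ← hr, Germ.coe_eq]
    rfl
  small := by
    intro α _ T hT hdef
    choose T' hT' hTT' using hdef
    refine 𝓓.small T' ⟨fun s => ?_, fun i s x hx => ?_, fun s => ?_⟩ hT'
    · obtain ⟨f, hf⟩ := hT.ne s
      obtain ⟨r, hr⟩ := exists_rep U f
      rw [hTT' s, mem_star' U _ f r hr] at hf
      obtain ⟨n, hn⟩ := hf.exists
      exact ⟨_, hn⟩
    · have h1 := hT.sub i s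
      rw [hTT' s, hTT' (i :: s)] at h1
      exact (const_mem U _ x).1 (h1 ((const_mem U _ x).2 hx))
    · refine Set.disjoint_left.2 fun x hx hx' => ?_
      have h1 := hT.disj s
      rw [hTT' (false :: s), hTT' (true :: s)] at h1
      exact Set.disjoint_left.1 h1 ((const_mem U _ x).2 hx) ((const_mem U _ x).2 hx')

instance {R : Type v} [Ring R] (𝓓 : Calc R) [RC 𝓓] (U : Ultrafilter ℕ) : RC (ult 𝓓 U) where
  add := by
    refine ⟨_, (RC.add : DF₂ 𝓓 fun a b : R => a + b), ?_⟩
    ext f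
    obtain ⟨r, hr⟩ := exists_rep U f
    rw [mem_star' U _ f r hr]
    show f none = f (some false) + f (some true) ↔ _
    rw [← hr, ← hr, ← hr, ← Germ.coe_add, Germ.coe_eq]
    rfl
  mul := by
    refine ⟨_, (RC.mul : DF₂ 𝓓 fun a b : R => a * b), ?_⟩
    ext f
    obtain ⟨r, hr⟩ := exists_rep U f
    rw [mem_star' U _ f r hr]
    show f none = f (some false) * f (some true) ↔ _
    rw [← hr, ← hr, ← hr, ← Germ.coe_mul, Germ.coe_eq]
    rfl

/-- an element of infinite multiplicative order in the ultrapower -/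
theorem exists_inf_order {K : Type v} [Field K] [Infinite K] :
    ∃ (U : Ultrafilter ℕ) (t : Germ (U : Filter ℕ) K), t ≠ 0 ∧ ∀ n : ℕ, 0 < n → t ^ n ≠ 1 := by
  classical
  refine ⟨hyperfilter ℕ, (((Infinite.natEmbedding K : ℕ → K)) :
    Germ ((hyperfilter ℕ : Ultrafilter ℕ) : Filter ℕ) K), ?_, fun n hn h => ?_⟩
  · intro h
    have h1 : ∀ᶠ k in ((hyperfilter ℕ : Ultrafilter ℕ) : Filter ℕ),
        Infinite.natEmbedding K k = 0 := Germ.coe_eq.1 h
    have h2 : {k | Infinite.natEmbedding K k = 0}.Finite := by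
      refine Set.Subsingleton.finite fun a ha b hb => ?_
      exact (Infinite.natEmbedding K).injective (Eq.trans ha (Eq.symm hb))
    have h3 : ∀ᶠ k in ((hyperfilter ℕ : Ultrafilter ℕ) : Filter ℕ),
        k ∉ {k | Infinite.natEmbedding K k = 0} := by
      exact compl_mem_hyperfilter_of_finite h2
    obtain ⟨k, hk, hk'⟩ := (h1.and h3).exists
    exact hk' hk
  · have h1 : ∀ᶠ k in ((hyperfilter ℕ : Ultrafilter ℕ) : Filter ℕ),
        Infinite.natEmbedding K k ^ n = 1 := by
      have h0 : (((fun k => Infinite.natEmbedding K k ^ n) : ℕ → K) :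
        Germ ((hyperfilter ℕ : Ultrafilter ℕ) : Filter ℕ) K) = (((fun _ => 1) : ℕ → K) :
        Germ ((hyperfilter ℕ : Ultrafilter ℕ) : Filter ℕ) K) := h
      exact Germ.coe_eq.1 h0
    have h2 : {k | Infinite.natEmbedding K k ^ n = 1}.Finite := by
      have h4 : (Polynomial.nthRootsFinset n (1 : K) : Set K).Finite := Finset.finite_toSet _
      refine (h4.preimage (f := Infinite.natEmbedding K)
        (Infinite.natEmbedding K).injective.injOn).subset fun k hk => ?_
      show _ ∈ Polynomial.nthRootsFinset n (1 : K)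
      exact (Polynomial.mem_nthRootsFinset hn (1 : K)).2 hk
    have h3 : ∀ᶠ k in ((hyperfilter ℕ : Ultrafilter ℕ) : Filter ℕ),
        k ∉ {k | Infinite.natEmbedding K k ^ n = 1} := by
      exact compl_mem_hyperfilter_of_finite h2
    obtain ⟨k, hk, hk'⟩ := (h1.and h3).exists
    exact hk' hk

end VRR
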